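import Mathlib

/-!
Legendre type sums: `P_k(m) = C(m,k) C(m+k,k)`; sums of `(2m+1)(-1)^m A_m(x)` where
`A_m(x) = ∑ P_j(m)^2 x^j`, and sums of `(2m+1)(-1)^m D_m(x)^3` where `D_m(x) = ∑ P_j(m) x^j`.
-/

namespace Pool.Agent.V11308.Leg

open Finset

/-- `P_k(m) = C(m,k) C(m+k,k)` -/
def P (k m : ℕ) : ℕ := m.choose k * (m + k).choose k

lemma P_zero {k m : ℕ} (h : m < k) : P k m = 0 := by
  unfold P; rw [Nat.choose_eq_zero_of_lt h, zero_mul]

lemma sumP_step (k n : ℕ) : n * (n.choose (k + 1) * (n + k).choose k) + (2 * n + 1) * P k n =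
    (n + 1) * ((n + 1).choose (k + 1) * (n + 1 + k).choose k) := by
  unfold P
  have h1 := Nat.add_one_mul_choose_eq n k
  have h2 := Nat.choose_succ_right_eq n k
  have h3 := Nat.add_one_mul_choose_eq (n + k) n
  rw [Nat.choose_symm_of_eq_add (show n + k + 1 = (n + 1) + k by ring),
    Nat.choose_symm_of_eq_add (show n + k = n + k by ring)] at h3
  rcases Nat.lt_or_ge n k with hlt | hle
  · rw [Nat.choose_eq_zero_of_lt hlt, Nat.choose_eq_zero_of_lt (show n < k + 1 by omega),
      Nat.choose_eq_zero_of_lt (show n + 1 < k + 1 by omega)]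
    simp
  · apply Nat.eq_of_mul_eq_mul_left (show 0 < k + 1 by omega)
    rw [show n + 1 + k = n + k + 1 by ring]
    zify at h1 h2 h3 ⊢
    rw [Nat.cast_sub hle] at h2
    linear_combination ((n : ℤ) * (n + k).choose k) * h2 + ((n : ℤ) + 1) * ((n + k + 1).choose k) * h1
      + ((n : ℤ) + 1) * (n.choose k) * h3

lemma sumP (k n : ℕ) : ∑ m ∈ range n, (2 * m + 1) * P k m =
    n * (n.choose (k + 1) * (n + k).choose k) := by
  induction n with
  | zero => simp
  | succ n ih => rw [sum_range_succ, ih, sumP_step]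

/-- iterated difference: `∑ (-1)^i C(M,i) C(a+i,b+M) = (-1)^M C(a,b)` -/
lemma alt_sum (M a b : ℕ) : ∑ i ∈ range (M + 1), (-1 : ℤ) ^ i * (M.choose i : ℤ) *
    ((a + i).choose (b + M) : ℤ) = (-1) ^ M * (a.choose b : ℤ) := by
  induction M generalizing b with
  | zero => simp
  | succ M ih =>
    have h := ih b
    have e : ∑ i ∈ range (M + 1 + 1), (-1 : ℤ) ^ i * ((M + 1).choose i : ℤ) *
        ((a + i).choose (b + (M + 1)) : ℤ) =
        ∑ i ∈ range (M + 1), (-1 : ℤ) ^ i * (M.choose i : ℤ) *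
          (((a + i).choose (b + (M + 1)) : ℤ) - ((a + (i + 1)).choose (b + (M + 1)) : ℤ)) := by
      rw [sum_range_succ']
      simp only [pow_succ, Nat.choose_succ_succ]
      push_cast
      have s1 : ∑ i ∈ range (M + 1), (-1 : ℤ) ^ i * (M.choose (i + 1) : ℤ) *
          ((a + (i + 1)).choose (b + (M + 1)) : ℤ) =
          - (∑ i ∈ range (M + 1), (-1 : ℤ) ^ i * (M.choose i : ℤ) *
          ((a + i).choose (b + (M + 1)) : ℤ)) + ((a + 0).choose (b + (M + 1)) : ℤ) := by
        have t := sum_range_succ' (fun i => (-1 : ℤ) ^ i * (M.choose i : ℤ) *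
          ((a + i).choose (b + (M + 1)) : ℤ)) (M + 1)
        rw [sum_range_succ (fun i => (-1 : ℤ) ^ i * (M.choose i : ℤ) *
          ((a + i).choose (b + (M + 1)) : ℤ)) (M + 1), Nat.choose_succ_self] at t
        simp only [pow_succ] at t
        push_cast at t
        have t2 : ∑ i ∈ range (M + 1), (-1 : ℤ) ^ i * -1 * (M.choose (i + 1) : ℤ) *
          ((a + (i + 1)).choose (b + (M + 1)) : ℤ) = - ∑ i ∈ range (M + 1), (-1 : ℤ) ^ i *
          (M.choose (i + 1) : ℤ) * ((a + (i + 1)).choose (b + (M + 1)) : ℤ) := by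
          rw [← sum_neg_distrib]; exact sum_congr rfl (fun i _ => by ring)
        rw [t2] at t
        simp only [Nat.choose_zero_right, Nat.cast_one, one_mul] at t
        linarith
      simp only [mul_sub, sum_sub_distrib]
      have s2 : ∑ i ∈ range (M + 1), (-1 : ℤ) ^ i * -1 * ((M.choose i : ℤ) +
          (M.choose (i + 1) : ℤ)) * ((a + (i + 1)).choose (b + (M + 1)) : ℤ) =
          - (∑ i ∈ range (M + 1), (-1 : ℤ) ^ i * (M.choose i : ℤ) *
          ((a + (i + 1)).choose (b + (M + 1)) : ℤ)) -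
          (∑ i ∈ range (M + 1), (-1 : ℤ) ^ i * (M.choose (i + 1) : ℤ) *
          ((a + (i + 1)).choose (b + (M + 1)) : ℤ)) := by
        rw [← sum_neg_distrib, ← sum_sub_distrib]
        exact sum_congr rfl (fun i _ => by ring)
      rw [s2, s1]
      simp
      ring
    rw [e, pow_succ, mul_neg_one, neg_mul, ← h, ← sum_neg_distrib]
    refine sum_congr rfl (fun i _ => ?_)
    rw [show a + (i + 1) = (a + i) + 1 by ring, show b + (M + 1) = (b + M) + 1 by ring,
      Nat.choose_succ_succ]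
    push_cast
    ring

lemma P_term (j i m : ℕ) : P (j + i) (m + j) * (j + i).choose j ^ 2 =
    P j (m + j) * (m.choose i * (m + j + j + i).choose i) := by
  unfold P
  have h1 := Nat.choose_mul (n := m + j) (k := j + i) (s := j) (by omega)
  have h2 : (m + j + (j + i)).choose (j + i) * (j + i).choose j =
      (m + j + j).choose j * (m + j + j + i).choose i := by
    have e1 := Nat.choose_mul (n := m + j + (j + i)) (k := j + i) (s := i) (by omega)
    rw [Nat.choose_symm_of_eq_add (show j + i = i + j by ring) ] at e1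
    rw [show m + j + (j + i) - i = m + j + j by omega, show j + i - i = j by omega] at e1
    rw [e1, show m + j + (j + i) = m + j + j + i by ring]
    ring
  rw [show m + j - j = m by omega, show j + i - j = i by omega] at h1
  calc _ = ((m + j).choose (j + i) * (j + i).choose j) *
        ((m + j + (j + i)).choose (j + i) * (j + i).choose j) := by ring
    _ = _ := by rw [h1, h2]; ring

lemma P_eq (j m : ℕ) : P j m = (m + j).choose (2 * j) * (2 * j).choose j := by
  unfold P
  rcases Nat.lt_or_ge m j with h | h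
  · rw [Nat.choose_eq_zero_of_lt h, Nat.choose_eq_zero_of_lt (show m + j < 2 * j by omega)]
    simp
  · have := Nat.choose_mul (n := m + j) (k := 2 * j) (s := j) (by omega)
    rw [this, show m + j - j = m by omega, show 2 * j - j = j by omega, mul_comm]

/-- `(-1)^m P_j(m)^2 = ∑_k (-1)^k P_k(m) C(k,j)^2 C(2j,j)` -/
lemma sq_expand (j m : ℕ) : (-1 : ℤ) ^ m * (P j m : ℤ) ^ 2 =
    ∑ k ∈ range (m + 1), (-1) ^ k * (P k m : ℤ) * ((k.choose j : ℤ) ^ 2 * ((2 * j).choose j : ℤ)) := by
  rcases Nat.lt_or_ge m j with hlt | hle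
  · rw [P_zero hlt]
    rw [sum_eq_zero]
    · simp
    · intro k hk
      rw [Nat.choose_eq_zero_of_lt (show k < j by have := mem_range.mp hk; omega)]
      simp
  · obtain ⟨M, rfl⟩ := Nat.exists_eq_add_of_le' hle
    rw [show M + j + 1 = j + (M + 1) by ring, sum_range_add]
    rw [sum_eq_zero (s := range j), zero_add]
    · have := alt_sum M (M + j + j) (2 * j)
      have e : ∀ i ∈ range (M + 1), (-1 : ℤ) ^ (j + i) * (P (j + i) (M + j) : ℤ) *
          (((j + i).choose j : ℤ) ^ 2 * ((2 * j).choose j : ℤ)) =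
          (-1) ^ j * (P j (M + j) : ℤ) * ((2 * j).choose j : ℤ) *
          ((-1) ^ i * (M.choose i : ℤ) * ((M + j + j + i).choose (2 * j + M) : ℤ)) := by
        intro i _
        have ht := P_term j i M
        rw [← Nat.choose_symm_of_eq_add (show M + j + j + i = 2 * j + M + i by ring)] at ht
        have ht' : (P (j + i) (M + j) : ℤ) * ((j + i).choose j : ℤ) ^ 2 =
          (P j (M + j) : ℤ) * ((M.choose i : ℤ) * ((M + j + j + i).choose (2 * j + M) : ℤ)) := by
          exact_mod_cast ht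
        rw [pow_add]
        linear_combination (-1) ^ j * (-1) ^ i * ((2 * j).choose j : ℤ) * ht'
      rw [sum_congr rfl e, ← mul_sum, this, pow_add]
      have h2 := P_eq j (M + j)
      have h2' : (P j (M + j) : ℤ) = ((M + j + j).choose (2 * j) : ℤ) * ((2 * j).choose j : ℤ) := by
        exact_mod_cast h2
      rw [sq]
      nth_rewrite 2 [h2']
      ring
    · intro k hk
      rw [Nat.choose_eq_zero_of_lt (mem_range.mp hk)]
      simp

section ring
variable {R : Type*} [CommRing R]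

/-- Apery polynomials -/
def A (n : ℕ) (x : R) : R := ∑ k ∈ range (n + 1), (n.choose k : R) ^ 2 *
  ((n + k).choose k : R) ^ 2 * x ^ k

/-- `g_k(x) = ∑ C(k,j)^2 C(2j,j) x^j` -/
def g (k : ℕ) (x : R) : R := ∑ j ∈ range (k + 1), (k.choose j : R) ^ 2 *
  ((2 * j).choose j : R) * x ^ j

lemma A_expand (m : ℕ) (x : R) : (-1) ^ m * A m x =
    ∑ k ∈ range (m + 1), (-1) ^ k * (P k m : R) * g k x := by
  have hg : ∀ k ∈ range (m + 1), (-1) ^ k * (P k m : R) * g k x =
      (-1) ^ k * (P k m : R) * ∑ j ∈ range (m + 1), (k.choose j : R) ^ 2 *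
      ((2 * j).choose j : R) * x ^ j := by
    intro k hk
    have hk' : k ≤ m := by have := mem_range.mp hk; omega
    congr 1
    apply sum_subset (range_subset_range.mpr (by omega))
    intro j _ hj
    rw [Nat.choose_eq_zero_of_lt (by simpa using hj)]
    simp
  rw [sum_congr rfl hg]
  unfold A
  rw [mul_sum]
  simp only [mul_sum]
  rw [sum_comm]
  refine sum_congr rfl (fun j _ => ?_)
  have h := congrArg (Int.cast : ℤ → R) (sq_expand j m)
  push_cast at h
  have hP : (P j m : R) = (m.choose j : R) * ((m + j).choose j : R) := by unfold P; push_cast; ring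
  calc (-1) ^ m * ((m.choose j : R) ^ 2 * ((m + j).choose j : R) ^ 2 * x ^ j)
      = ((-1) ^ m * (P j m : R) ^ 2) * x ^ j := by rw [hP]; ring
    _ = _ := by rw [h, sum_mul]; exact sum_congr rfl (fun k _ => by ring)

/-- swapping the order of summation against `∑ (2m+1) P_k(m)` -/
lemma sum_swap (n : ℕ) (c : ℕ → R) :
    ∑ m ∈ range n, (2 * (m : R) + 1) * ∑ k ∈ range (m + 1), (P k m : R) * c k =
    n * ∑ k ∈ range n, ((n.choose (k + 1) : R) * ((n + k).choose k : R)) * c k := by
  have hg : ∀ m ∈ range n, ∑ k ∈ range (m + 1), (P k m : R) * c k =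
      ∑ k ∈ range n, (P k m : R) * c k := by
    intro m hm
    have hm' : m < n := mem_range.mp hm
    apply sum_subset (range_subset_range.mpr (by omega))
    intro k _ hk
    rw [P_zero (by simpa using hk)]
    simp
  rw [sum_congr rfl (fun m hm => by rw [hg m hm])]
  simp only [mul_sum]
  rw [sum_comm]
  refine sum_congr rfl (fun k _ => ?_)
  have h := congrArg (Nat.cast : ℕ → R) (sumP k n)
  push_cast at h
  calc ∑ m ∈ range n, (2 * (m : R) + 1) * ((P k m : R) * c k)
      = (∑ m ∈ range n, (2 * (m : R) + 1) * (P k m : R)) * c k := by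
        rw [sum_mul]; exact sum_congr rfl (fun m _ => by ring)
    _ = _ := by rw [h]; ring

/-- `H_n(x) = ∑_{k<n} (-1)^k C(n,k+1) C(n+k,k) g_k(x)` -/
def H (n : ℕ) (x : R) : R := ∑ k ∈ range n,
  ((n.choose (k + 1) : R) * ((n + k).choose k : R)) * ((-1) ^ k * g k x)

lemma sum_A (n : ℕ) (x : R) : ∑ m ∈ range n, (2 * (m : R) + 1) * (-1) ^ m * A m x =
    n * H n x := by
  unfold H
  rw [← sum_swap]
  refine sum_congr rfl (fun m _ => ?_)
  rw [mul_assoc, A_expand]
  congr 1
  exact sum_congr rfl (fun k _ => by ring)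

end ring

/-- `Γ_k`, with `(k+1) Γ_k = ∑_j C(k,j)^2 C(2j,j) 4^(k-j)` -/
def Gam (k : ℕ) : ℤ := ∑ j ∈ range (k + 1), ((2 * j + 1).choose j : ℤ) * 4 ^ (k - j) *
  ((k.choose j : ℤ) * ((k.choose j : ℤ) - (k.choose (j + 1) : ℤ)))

lemma Gam_step (k j : ℕ) (hj : j ≤ k) : (k.choose j : ℤ) ^ 2 * ((2 * j).choose j : ℤ) * 4 ^ (k - j) -
    ((k : ℤ) + 1) * (((2 * j + 1).choose j : ℤ) * 4 ^ (k - j) *
  ((k.choose j : ℤ) * ((k.choose j : ℤ) - (k.choose (j + 1) : ℤ)))) =
    (if j < k then 2 * ((j : ℤ) + 1) * ((k.choose (j + 1) : ℤ) ^ 2 * ((2 * (j + 1)).choose (j + 1) : ℤ) *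
      4 ^ (k - (j + 1))) else 0) -
    2 * (j : ℤ) * ((k.choose j : ℤ) ^ 2 * ((2 * j).choose j : ℤ) * 4 ^ (k - j)) := by
  have h1 : ((2 * j + 1).choose j : ℤ) * (j + 1) = (2 * j + 1) * ((2 * j).choose j : ℤ) := by
    have := Nat.add_one_mul_choose_eq (2 * j) j
    rw [← Nat.choose_symm_of_eq_add (show 2 * j + 1 = j + (j + 1) by ring)] at this
    have h := congrArg (Nat.cast : ℕ → ℤ) this
    push_cast at h
    linear_combination -h
  have h2 : (k.choose (j + 1) : ℤ) * (j + 1) = (k.choose j : ℤ) * (k - j) := by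
    have h := congrArg (Nat.cast : ℕ → ℤ) (Nat.choose_succ_right_eq k j)
    rw [Nat.cast_mul, Nat.cast_mul, Nat.cast_sub hj] at h
    push_cast at h
    exact h
  have hj1 : ((j : ℤ) + 1) ≠ 0 := by positivity
  rcases Nat.lt_or_ge j k with hlt | hge
  · rw [if_pos hlt]
    have h3 : ((j : ℤ) + 1) * ((2 * (j + 1)).choose (j + 1) : ℤ) = 2 * (2 * j + 1) * ((2 * j).choose j : ℤ) := by
      have := Nat.succ_mul_centralBinom_succ j
      rw [Nat.centralBinom_eq_two_mul_choose, Nat.centralBinom_eq_two_mul_choose] at this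
      exact_mod_cast this
    have h4 : (4 : ℤ) ^ (k - j) = 4 * 4 ^ (k - (j + 1)) := by
      rw [← pow_succ']; congr 1; omega
    rw [h4]
    generalize (4 : ℤ) ^ (k - (j + 1)) = w
    apply mul_left_cancel₀ hj1
    have h5 : 4 * ((k : ℤ) + 1) * ((2 * j + 1).choose j : ℤ) * (j + 1) *
      ((k.choose j : ℤ) - (k.choose (j + 1) : ℤ)) = 4 * (2 * j + 1) * ((2 * j).choose j : ℤ) *
      ((k : ℤ) + 1) * ((k.choose j : ℤ) - (k.choose (j + 1) : ℤ)) := by
      linear_combination 4 * ((k : ℤ) + 1) * ((k.choose j : ℤ) - (k.choose (j + 1) : ℤ)) * h1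
    have h6 : ((k : ℤ) + 1) * (k.choose j : ℤ) = ((j : ℤ) + 1) * ((k.choose j : ℤ) + (k.choose (j + 1) : ℤ)) := by
      linear_combination -h2
    linear_combination (-(k.choose j : ℤ)) * w * h5 -
      4 * (2 * j + 1) * ((2 * j).choose j : ℤ) * ((k.choose j : ℤ) - (k.choose (j + 1) : ℤ)) * w * h6
      - 2 * (j + 1) * (k.choose (j + 1) : ℤ) ^ 2 * w * h3
  · have hjk : j = k := by omega
    subst hjk
    rw [if_neg (by omega), Nat.choose_succ_self, Nat.sub_self, Nat.choose_self]
    push_cast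
    linear_combination -h1

lemma Gam_eq (k : ℕ) : ∑ j ∈ range (k + 1), (k.choose j : ℤ) ^ 2 * ((2 * j).choose j : ℤ) *
    4 ^ (k - j) = ((k : ℤ) + 1) * Gam k := by
  unfold Gam
  rw [mul_sum, ← sub_eq_zero, ← sum_sub_distrib]
  have : ∀ J ≤ k, ∑ j ∈ range J, ((k.choose j : ℤ) ^ 2 * ((2 * j).choose j : ℤ) * 4 ^ (k - j) -
    ((k : ℤ) + 1) * (((2 * j + 1).choose j : ℤ) * 4 ^ (k - j) *
    ((k.choose j : ℤ) * ((k.choose j : ℤ) - (k.choose (j + 1) : ℤ))))) =
    2 * (J : ℤ) * ((k.choose J : ℤ) ^ 2 * ((2 * J).choose J : ℤ) * 4 ^ (k - J)) := by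
    intro J
    induction J with
    | zero => intro _; simp
    | succ J ih =>
      intro hJ
      rw [sum_range_succ, ih (by omega), Gam_step k J (by omega), if_pos (by omega)]
      push_cast
      ring
  rw [sum_range_succ, this k le_rfl, Gam_step k k le_rfl, if_neg (by omega)]
  ring

section ring
variable {R : Type*} [CommRing R]

/-- `4^k g_k(x)` is `(k+1) Γ_k` modulo `4x-1`. -/
lemma g_mod (k : ℕ) (x : R) : ∃ w : R, 4 ^ k * g k x = ((k : R) + 1) * (Gam k : R) + (4 * x - 1) * w := by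
  have h := congrArg (Int.cast : ℤ → R) (Gam_eq k)
  push_cast at h
  rw [← h]
  have hd : (4 * x - 1) ∣ 4 ^ k * g k x - ∑ j ∈ range (k + 1), (k.choose j : R) ^ 2 *
      ((2 * j).choose j : R) * 4 ^ (k - j) := by
    unfold g
    rw [mul_sum, ← sum_sub_distrib]
    apply dvd_sum
    intro j hj
    have hj' : j ≤ k := by have := mem_range.mp hj; omega
    have e : (4 : R) ^ k = 4 ^ (k - j) * 4 ^ j := by rw [← pow_add]; congr 1; omega
    have : 4 ^ k * ((k.choose j : R) ^ 2 * ((2 * j).choose j : R) * x ^ j) -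
        (k.choose j : R) ^ 2 * ((2 * j).choose j : R) * 4 ^ (k - j) =
        ((4 * x) ^ j - 1 ^ j) * ((k.choose j : R) ^ 2 * ((2 * j).choose j : R) * 4 ^ (k - j)) := by
      rw [e, mul_pow, one_pow]; ring
    rw [this]
    exact Dvd.dvd.mul_right (sub_dvd_pow_sub_pow _ _ _) _
  obtain ⟨w, hw⟩ := hd
  exact ⟨w, by rw [← hw]; ring⟩

/-- if `4 u = 1` then `H_n(x) ∈ n R + (4x-1) R` -/
lemma H_mod (n : ℕ) (x u : R) (hu : 4 * u = 1) :
    ∃ a b : R, H n x = n * a + (4 * x - 1) * b := by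
  unfold H
  choose w hw using (fun k => g_mod k x)
  refine ⟨∑ k ∈ range n, ((n - 1).choose k : R) * ((n + k).choose k : R) *
      ((-1) ^ k * (u ^ k * (Gam k : R))),
    ∑ k ∈ range n, ((n.choose (k + 1) : R) * ((n + k).choose k : R)) *
      ((-1) ^ k * (u ^ k * w k)), ?_⟩
  rw [mul_sum, mul_sum, ← sum_add_distrib]
  refine sum_congr rfl (fun k hk => ?_)
  have hk' : k < n := mem_range.mp hk
  have h1 : (n.choose (k + 1) : R) * ((k : R) + 1) = n * ((n - 1).choose k : R) := by
    have := Nat.add_one_mul_choose_eq (n - 1) k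
    rw [show n - 1 + 1 = n by omega] at this
    have h := congrArg (Nat.cast : ℕ → R) this
    push_cast at h
    exact h.symm
  have h2 : g k x = u ^ k * (4 ^ k * g k x) := by
    rw [← mul_assoc, ← mul_pow, mul_comm u 4, hu, one_pow, one_mul]
  rw [h2, hw k]
  linear_combination ((n + k).choose k : R) * ((-1) ^ k * (u ^ k * (Gam k : R))) * h1

end ring

end Pool.Agent.V11308.Leg
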