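import Mathlib
import Pool.Agent.V11308.Leg

namespace Pool.Agent.V11308.Leg

open Finset

lemma P_succ (k m : ℕ) : (P (k + 1) m : ℤ) * ((k : ℤ) + 1) ^ 2 =
    (P k m : ℤ) * ((m : ℤ) * (m + 1) - k * (k + 1)) := by
  unfold P
  rcases Nat.lt_or_ge m k with hlt | hle
  · rw [Nat.choose_eq_zero_of_lt hlt, Nat.choose_eq_zero_of_lt (show m < k + 1 by omega)]; simp
  · have h1 := congrArg (Nat.cast : ℕ → ℤ) (Nat.choose_succ_right_eq m k)
    rw [Nat.cast_mul, Nat.cast_mul, Nat.cast_sub hle] at h1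
    have h2 := congrArg (Nat.cast : ℕ → ℤ) (Nat.add_one_mul_choose_eq (m + k) k)
    push_cast at h1 h2 ⊢
    rw [show m + (k + 1) = m + k + 1 by ring]
    linear_combination ((m + k + 1).choose (k + 1) : ℤ) * ((k : ℤ) + 1) * h1 -
      (m.choose k : ℤ) * ((m : ℤ) - k) * h2

/-- coefficient of the product formula -/
def cf (i j k : ℕ) : ℤ := (k.choose i : ℤ) * (k.choose j : ℤ) * ((i + j).choose k : ℤ)

lemma cf_succ (i j k : ℕ) : (cf (i + 1) j (k + 1)) * ((i : ℤ) + 1) ^ 2 =
    cf i j (k + 1) * (((k : ℤ) + 1) * (k + 2) - i * (i + 1)) + ((k : ℤ) + 1) ^ 2 * cf i j k := by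
  unfold cf
  -- C(K,i+1)(i+1) = C(K,i)(K-i), K = k+1
  have c : ∀ K i : ℕ, (K.choose (i + 1) : ℤ) * ((i : ℤ) + 1) = (K.choose i : ℤ) * ((K : ℤ) - i) := by
    intro K i
    rcases Nat.lt_or_ge K i with hlt | hle
    · rw [Nat.choose_eq_zero_of_lt hlt, Nat.choose_eq_zero_of_lt (show K < i + 1 by omega)]; simp
    · have h1 := congrArg (Nat.cast : ℕ → ℤ) (Nat.choose_succ_right_eq K i)
      rw [Nat.cast_mul, Nat.cast_mul, Nat.cast_sub hle] at h1
      push_cast at h1
      exact h1
  -- (K-j) C(K,j) = K C(K-1,j), K = k+1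
  have d : ∀ j : ℕ, (((k : ℤ) + 1) - j) * ((k + 1).choose j : ℤ) = ((k : ℤ) + 1) * (k.choose j : ℤ) := by
    intro j
    have h1 := congrArg (Nat.cast : ℕ → ℤ) (Nat.add_one_mul_choose_eq k j)
    have h2 := c (k + 1) j
    push_cast at h1 h2
    linear_combination -h1 - h2
  have e1 := c (k + 1) i
  have e2 := d i
  have e3 := d j
  have e4 := c (i + j) k
  have e5 : ((i + 1 + j).choose (k + 1) : ℤ) = ((i + j).choose k : ℤ) + ((i + j).choose (k + 1) : ℤ) := by
    rw [show i + 1 + j = (i + j) + 1 by ring, Nat.choose_succ_succ]; push_cast; ring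
  rw [e5]
  push_cast at e1 e2 e3 e4 ⊢
  generalize ((k + 1).choose (i + 1) : ℤ) = Ki1 at *
  generalize ((k + 1).choose i : ℤ) = Ki at *
  generalize ((k + 1).choose j : ℤ) = Kj at *
  generalize (k.choose i : ℤ) = ki at *
  generalize (k.choose j : ℤ) = kj at *
  generalize ((i + j).choose k : ℤ) = u at *
  generalize ((i + j).choose (k + 1) : ℤ) = v at *
  -- goal : Ki1*Kj*(u+v)*(i+1)^2 = Ki*Kj*v*((k+1)(k+2)-i(i+1)) + (k+1)^2*(ki*kj*u)
  have f1 : ((k : ℤ) + 1) ^ 2 * (ki * kj * u) = (((k : ℤ) + 1) - i) * Ki * ((((k : ℤ) + 1) - j) * Kj) * u := by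
    rw [e2, e3]; ring
  rw [f1]
  linear_combination Kj * (u + v) * ((i : ℤ) + 1) * e1 - Ki * Kj * (((k : ℤ) + 1) - i) * e4

lemma cf_zero (i j : ℕ) : (cf (i + 1) j 0) * ((i : ℤ) + 1) ^ 2 =
    cf i j 0 * ((0 : ℤ) * (0 + 1) - i * (i + 1)) := by
  unfold cf
  rcases Nat.eq_zero_or_pos i with rfl | h
  · simp
  · rw [Nat.choose_eq_zero_of_lt h]; simp

/-- product formula -/
lemma prod (i j m : ℕ) : (P i m : ℤ) * (P j m : ℤ) =
    ∑ k ∈ range (m + 1), (P k m : ℤ) * cf i j k := by
  induction i with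
  | zero =>
    have : ∀ k ∈ range (m + 1), k ≠ j → (P k m : ℤ) * cf 0 j k = 0 := by
      intro k _ hk
      unfold cf
      rcases Nat.lt_or_ge k j with h | h
      · rw [Nat.choose_eq_zero_of_lt h]; simp
      · rw [Nat.choose_eq_zero_of_lt (show 0 + j < k by omega)]; simp
    rcases Nat.lt_or_ge m j with hlt | hle
    · rw [P_zero hlt, sum_eq_zero]
      · simp
      · intro k hk
        exact this k hk (by have := mem_range.mp hk; omega)
    · rw [sum_eq_single j this]
      · unfold cf P; simp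
      · intro h; exact absurd (mem_range.mpr (by omega)) h
  | succ i ih =>
    have hne : ((i : ℤ) + 1) ^ 2 ≠ 0 := by positivity
    apply mul_left_cancel₀ hne
    have h1 := P_succ i m
    calc ((i : ℤ) + 1) ^ 2 * ((P (i + 1) m : ℤ) * (P j m : ℤ))
        = ((P i m : ℤ) * (P j m : ℤ)) * ((m : ℤ) * (m + 1) - i * (i + 1)) := by
          linear_combination (P j m : ℤ) * h1
      _ = ∑ k ∈ range (m + 1), ((P k m : ℤ) * cf i j k * ((k : ℤ) * (k + 1) - i * (i + 1)) +
          ((k : ℤ) + 1) ^ 2 * (P (k + 1) m : ℤ) * cf i j k) := by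
          rw [ih, sum_mul]
          refine sum_congr rfl (fun k _ => ?_)
          have h2 := P_succ k m
          linear_combination (-(cf i j k)) * h2
      _ = ∑ k ∈ range (m + 1), ((i : ℤ) + 1) ^ 2 * ((P k m : ℤ) * cf (i + 1) j k) := by
          rw [sum_add_distrib, sum_range_succ' (fun k => (P k m : ℤ) * cf i j k * ((k : ℤ) * (k + 1) - i * (i + 1))),
            sum_range_succ (fun k => ((k : ℤ) + 1) ^ 2 * (P (k + 1) m : ℤ) * cf i j k),
            P_zero (show m < m + 1 by omega),
            sum_range_succ' (fun k => ((i : ℤ) + 1) ^ 2 * ((P k m : ℤ) * cf (i + 1) j k))]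
          have h0 := cf_zero i j
          have hs : ∑ k ∈ range m, ((i : ℤ) + 1) ^ 2 * ((P (k + 1) m : ℤ) * cf (i + 1) j (k + 1)) =
            ∑ k ∈ range m, (P (k + 1) m : ℤ) * cf i j (k + 1) * (((k + 1 : ℕ) : ℤ) * (((k + 1 : ℕ) : ℤ) + 1) - i * (i + 1)) +
            ∑ k ∈ range m, ((k : ℤ) + 1) ^ 2 * (P (k + 1) m : ℤ) * cf i j k := by
            rw [← sum_add_distrib]
            refine sum_congr rfl (fun k _ => ?_)
            have h3 := cf_succ i j k
            push_cast
            linear_combination (P (k + 1) m : ℤ) * h3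
          rw [hs]
          push_cast
          linear_combination (-(P 0 m : ℤ)) * h0
      _ = _ := by rw [mul_sum]

section ring
variable {R : Type*} [CommRing R]

/-- product of two expansions -/
lemma conv (m : ℕ) (a b : ℕ → R) :
    (∑ i ∈ range (m + 1), (P i m : R) * a i) * (∑ j ∈ range (m + 1), (P j m : R) * b j) =
    ∑ k ∈ range (m + 1), (P k m : R) *
      (∑ i ∈ range (k + 1), ∑ j ∈ range (k + 1), (cf i j k : R) * (a i * b j)) := by
  have hg : ∀ k ∈ range (m + 1), (P k m : R) *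
      (∑ i ∈ range (k + 1), ∑ j ∈ range (k + 1), (cf i j k : R) * (a i * b j)) =
      (P k m : R) *
      (∑ i ∈ range (m + 1), ∑ j ∈ range (m + 1), (cf i j k : R) * (a i * b j)) := by
    intro k hk
    have hk' : k ≤ m := by have := mem_range.mp hk; omega
    congr 1
    have e1 : ∀ i, ∑ j ∈ range (k + 1), (cf i j k : R) * (a i * b j) =
        ∑ j ∈ range (m + 1), (cf i j k : R) * (a i * b j) := by
      intro i
      apply sum_subset (range_subset_range.mpr (by omega))
      intro j _ hj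
      unfold cf
      rw [Nat.choose_eq_zero_of_lt (show k < j by simpa using hj)]
      simp
    rw [sum_congr rfl (fun i _ => e1 i)]
    apply sum_subset (range_subset_range.mpr (by omega))
    intro i _ hi
    apply sum_eq_zero
    intro j _
    unfold cf
    rw [Nat.choose_eq_zero_of_lt (show k < i by simpa using hi)]
    simp
  rw [sum_congr rfl hg, sum_mul_sum]
  simp only [mul_sum]
  rw [sum_comm (s := range (m + 1)) (t := range (m + 1)) (f := fun k i => ∑ j ∈ range (m + 1),
    (P k m : R) * ((cf i j k : R) * (a i * b j)))]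
  refine sum_congr rfl (fun i _ => ?_)
  rw [sum_comm]
  refine sum_congr rfl (fun j _ => ?_)
  have h := congrArg (Int.cast : ℤ → R) (prod i j m)
  push_cast at h
  calc (P i m : R) * a i * ((P j m : R) * b j) = ((P i m : R) * (P j m : R)) * (a i * b j) := by ring
    _ = _ := by rw [h, sum_mul]; exact sum_congr rfl (fun k _ => by ring)

/-- Delannoy type polynomials -/
def D (n : ℕ) (x : R) : R := ∑ k ∈ range (n + 1), (n.choose k : R) * ((n + k).choose k : R) * x ^ k

lemma D_eq (n : ℕ) (x : R) : D n x = ∑ k ∈ range (n + 1), (P k n : R) * x ^ k := by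
  unfold D P
  refine sum_congr rfl (fun k _ => ?_)
  push_cast; ring

open Polynomial in
/-- homogeneous quadratic form identity -/
lemma hom (k : ℕ) (Y v y u : R) :
    ∑ i ∈ range (k + 1), ∑ j ∈ range (k + 1), (cf i j k : R) *
      (Y ^ i * v ^ (k - i) * (y ^ j * u ^ (k - j))) =
    ∑ r ∈ range (k + 1), (k.choose r : R) ^ 2 * (Y * (u + y)) ^ r * (y * (v + Y)) ^ (k - r) := by
  have h1 : (((C (v + Y) + X * C Y) ^ k * (C (u + y) + X * C y) ^ k : R[X])).coeff k =
      ∑ r ∈ range (k + 1), (k.choose r : R) ^ 2 * (Y * (u + y)) ^ r * (y * (v + Y)) ^ (k - r) := by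
    rw [coeff_mul, Nat.sum_antidiagonal_eq_sum_range_succ_mk]
    refine sum_congr rfl (fun r hr => ?_)
    have hr' : r ≤ k := by have := mem_range.mp hr; omega
    have cc : ∀ (a b : R) (s : ℕ), ((C a + X * C b) ^ k : R[X]).coeff s =
        b ^ s * a ^ (k - s) * (k.choose s : R) := by
      intro a b s
      rw [add_comm, add_pow, finsetSum_coeff]
      rcases Nat.lt_or_ge k s with hlt | hle
      · rw [Nat.choose_eq_zero_of_lt hlt]
        simp only [Nat.cast_zero, mul_zero]
        apply sum_eq_zero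
        intro l hl
        have hl' := mem_range.mp hl
        rw [mul_pow, ← C_pow, ← C_pow, ← C_eq_natCast, mul_assoc, mul_assoc, ← C_mul, ← C_mul,
          coeff_X_pow_mul', if_pos (by omega), coeff_C_of_ne_zero (by omega)]
      · rw [sum_eq_single s]
        · rw [mul_pow, ← C_pow, ← C_pow, ← C_eq_natCast, mul_assoc, mul_assoc, ← C_mul, ← C_mul,
            coeff_X_pow_mul', if_pos le_rfl, Nat.sub_self, coeff_C_zero]
          ring
        · intro l _ hl
          rw [mul_pow, ← C_pow, ← C_pow, ← C_eq_natCast, mul_assoc, mul_assoc, ← C_mul, ← C_mul,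
            coeff_X_pow_mul']
          split_ifs with h
          · rw [coeff_C_of_ne_zero (by omega)]
          · rfl
        · intro h; exact absurd (mem_range.mpr (by omega)) h
    rw [cc, cc, show k - (k - r) = r by omega, Nat.choose_symm hr']
    rw [mul_pow, mul_pow]
    ring
  have h2 : (((C (v + Y) + X * C Y) ^ k * (C (u + y) + X * C y) ^ k : R[X])).coeff k =
      ∑ i ∈ range (k + 1), ∑ j ∈ range (k + 1), (cf i j k : R) *
      (Y ^ i * v ^ (k - i) * (y ^ j * u ^ (k - j))) := by
    have e1 : (C (v + Y) + X * C Y : R[X]) = (1 + X) * C Y + C v := by rw [C_add]; ring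
    have e2 : (C (u + y) + X * C y : R[X]) = (1 + X) * C y + C u := by rw [C_add]; ring
    rw [e1, e2, add_pow ((1 + X) * C Y), add_pow ((1 + X) * C y), sum_mul_sum, finsetSum_coeff]
    refine sum_congr rfl (fun i _ => ?_)
    rw [finsetSum_coeff]
    refine sum_congr rfl (fun j _ => ?_)
    have : (((1 + X) * C Y) ^ i * C v ^ (k - i) * (k.choose i : R[X]) *
        (((1 + X) * C y) ^ j * C u ^ (k - j) * (k.choose j : R[X]))) =
        (1 + X) ^ (i + j) * C (Y ^ i * v ^ (k - i) * (y ^ j * u ^ (k - j)) *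
          ((k.choose i : R) * (k.choose j : R))) := by
      simp only [C_mul, C_pow, map_natCast, mul_pow, pow_add]
      ring
    rw [this, coeff_mul_C, coeff_one_add_X_pow]
    unfold cf
    push_cast
    ring
  rw [← h2, h1]

open Polynomial in
/-- Legendre type rewriting -/
lemma leg (k : ℕ) (a b : R) :
    ∑ r ∈ range (k + 1), (k.choose r : R) ^ 2 * a ^ r * b ^ (k - r) =
    ∑ s ∈ range (k + 1), (k.choose s : R) * ((k + s).choose s : R) * a ^ s * (b - a) ^ (k - s) := by
  have h1 : (((X + C a) ^ k * (X + C b) ^ k : R[X])).coeff k =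
      ∑ r ∈ range (k + 1), (k.choose r : R) ^ 2 * a ^ r * b ^ (k - r) := by
    rw [coeff_mul, ← Finset.Nat.sum_antidiagonal_swap, Nat.sum_antidiagonal_eq_sum_range_succ_mk]
    refine sum_congr rfl (fun r hr => ?_)
    have hr' : r ≤ k := by have := mem_range.mp hr; omega
    simp only [Prod.swap_prod_mk, coeff_X_add_C_pow]
    rw [show k - (k - r) = r by omega, Nat.choose_symm hr']
    ring
  have h2 : (((X + C a) ^ k * (X + C b) ^ k : R[X])).coeff k =
      ∑ s ∈ range (k + 1), (k.choose s : R) * ((k + s).choose s : R) * a ^ s * (b - a) ^ (k - s) := by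
    have e : (X + C b : R[X]) = (X + C a) + C (b - a) := by rw [C_sub]; ring
    rw [e, add_pow (X + C a) (C (b - a)), mul_sum, finsetSum_coeff]
    refine sum_congr rfl (fun s hs => ?_)
    have : (X + C a : R[X]) ^ k * ((X + C a) ^ s * C (b - a) ^ (k - s) * (k.choose s : R[X])) =
        (X + C a) ^ (k + s) * C ((b - a) ^ (k - s) * (k.choose s : R)) := by
      simp only [C_mul, C_pow, map_natCast, pow_add]
      ring
    rw [this, coeff_mul_C, coeff_X_add_C_pow, show k + s - k = s by omega,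
      Nat.choose_symm_of_eq_add (show k + s = k + s by rfl)]
    ring
  rw [← h1, h2]

/-- square of `D` -/
lemma D_sq (m : ℕ) (x : R) : D m x ^ 2 =
    ∑ k ∈ range (m + 1), (P k m : R) * (((2 * k).choose k : R) * (x * (x + 1)) ^ k) := by
  rw [sq, D_eq, conv]
  refine sum_congr rfl (fun k _ => ?_)
  congr 1
  have h := hom k x (1 : R) x 1
  simp only [one_pow, mul_one] at h
  rw [h]
  have h2 : ∀ r ∈ range (k + 1), (k.choose r : R) ^ 2 * (x * (1 + x)) ^ r * (x * (1 + x)) ^ (k - r) =
      (k.choose r : R) ^ 2 * (x * (x + 1)) ^ k := by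
    intro r hr
    have hr' : r ≤ k := by have := mem_range.mp hr; omega
    rw [mul_assoc, ← pow_add, show r + (k - r) = k by omega, add_comm 1 x]
  rw [sum_congr rfl h2, ← sum_mul]
  have h3 := congrArg (Nat.cast : ℕ → R) (Nat.sum_range_choose_sq k)
  push_cast at h3
  rw [h3]

lemma D_refl (m : ℕ) (x : R) : D m (-1 - x) = (-1) ^ m * D m x := by
  rw [D_eq, D_eq, mul_sum]
  have key : ∀ j, ∑ k ∈ range (m + 1), (-1 : ℤ) ^ k * (P k m : ℤ) * (k.choose j : ℤ) =
      (-1) ^ m * (P j m : ℤ) := by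
    intro j
    rcases Nat.lt_or_ge m j with hlt | hle
    · rw [P_zero hlt, sum_eq_zero]
      · simp
      · intro k hk
        rw [Nat.choose_eq_zero_of_lt (show k < j by have := mem_range.mp hk; omega)]
        simp
    · obtain ⟨M, rfl⟩ := Nat.exists_eq_add_of_le' hle
      rw [show M + j + 1 = j + (M + 1) by ring, sum_range_add]
      rw [sum_eq_zero (s := range j), zero_add]
      · have h := alt_sum M (M + j + j) j
        have e : ∀ i ∈ range (M + 1), (-1 : ℤ) ^ (j + i) * (P (j + i) (M + j) : ℤ) *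
            ((j + i).choose j : ℤ) =
            (-1) ^ j * ((M + j).choose j : ℤ) *
            ((-1) ^ i * (M.choose i : ℤ) * ((M + j + j + i).choose (j + M) : ℤ)) := by
          intro i _
          have h1 := Nat.choose_mul (n := M + j) (k := j + i) (s := j) (by omega)
          rw [show M + j - j = M by omega, show j + i - j = i by omega] at h1
          have h1' : ((M + j).choose (j + i) : ℤ) * ((j + i).choose j : ℤ) =
            ((M + j).choose j : ℤ) * (M.choose i : ℤ) := by exact_mod_cast h1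
          have h2 : (M + j + (j + i)).choose (j + i) = (M + j + j + i).choose (j + M) := by
            rw [Nat.choose_symm_of_eq_add (show M + j + (j + i) = (j + i) + (j + M) by ring)]
            congr 1
            ring
          unfold P
          rw [h2, pow_add]
          push_cast
          linear_combination (-1) ^ j * (-1) ^ i * ((M + j + j + i).choose (j + M) : ℤ) * h1'
        rw [sum_congr rfl e, ← mul_sum, h, pow_add]
        unfold P
        push_cast
        ring
      · intro k hk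
        rw [Nat.choose_eq_zero_of_lt (mem_range.mp hk)]
        simp
  have e1 : ∀ k ∈ range (m + 1), (P k m : R) * (-1 - x) ^ k =
      ∑ j ∈ range (m + 1), ((-1) ^ k * (P k m : R) * (k.choose j : R)) * x ^ j := by
    intro k hk
    have hk' : k ≤ m := by have := mem_range.mp hk; omega
    have : (-1 - x) ^ k = (-1) ^ k * (x + 1) ^ k := by rw [← mul_pow]; ring
    rw [this, add_pow]
    have : ∑ l ∈ range (k + 1), x ^ l * 1 ^ (k - l) * (k.choose l : R) =
        ∑ l ∈ range (m + 1), x ^ l * (k.choose l : R) := by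
      rw [sum_congr rfl (fun l _ => by rw [one_pow, mul_one])]
      apply sum_subset (range_subset_range.mpr (by omega))
      intro l _ hl
      rw [Nat.choose_eq_zero_of_lt (show k < l by simpa using hl)]
      simp
    rw [this, mul_sum, mul_sum]
    exact sum_congr rfl (fun l _ => by ring)
  rw [sum_congr rfl e1, sum_comm]
  refine sum_congr rfl (fun j _ => ?_)
  rw [← sum_mul]
  have h := congrArg (Int.cast : ℤ → R) (key j)
  push_cast at h
  rw [h]
  ring

/-- the coefficients `L_k(x)` -/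
def L (k : ℕ) (x : R) : R := ∑ i ∈ range (k + 1), ∑ j ∈ range (k + 1), (cf i j k : R) *
  (((2 * i).choose i : R) * (x * (x + 1)) ^ i * (-1 - x) ^ j)

lemma D_cube (m : ℕ) (x : R) : (-1) ^ m * D m x ^ 3 =
    ∑ k ∈ range (m + 1), (P k m : R) * L k x := by
  have h : (-1) ^ m * D m x ^ 3 = D m x ^ 2 * D m (-1 - x) := by rw [D_refl]; ring
  rw [h, D_sq, D_eq m (-1 - x), conv]
  rfl

/-- `K_n(x) = ∑_{k<n} C(n,k+1) C(n+k,k) L_k(x)` -/
def K (n : ℕ) (x : R) : R := ∑ k ∈ range n,
  ((n.choose (k + 1) : R) * ((n + k).choose k : R)) * L k x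

lemma sum_D (n : ℕ) (x : R) : ∑ m ∈ range n, (2 * (m : R) + 1) * (-1) ^ m * D m x ^ 3 =
    n * K n x := by
  unfold K
  rw [← sum_swap]
  refine sum_congr rfl (fun m _ => ?_)
  rw [mul_assoc, D_cube]

end ring

/-- super Catalan numbers as coefficients -/
noncomputable def sc (r s : ℕ) : ℤ :=
  (-1) ^ s * (((1 + Polynomial.X : Polynomial ℤ) ^ (2 * r) *
    (1 - Polynomial.X) ^ (2 * s)).coeff (r + s))

open Polynomial in
lemma sc_rec (r s : ℕ) : sc r (s + 1) = 4 * sc r s - sc (r + 1) s := by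
  unfold sc
  have h : ((1 + X : ℤ[X]) ^ (2 * r) * (1 - X) ^ (2 * (s + 1))) =
      (1 + X) ^ (2 * (r + 1)) * (1 - X) ^ (2 * s) -
        X * (C 4 * ((1 + X) ^ (2 * r) * (1 - X) ^ (2 * s))) := by
    have : (C 4 : ℤ[X]) = 4 := rfl
    rw [this]
    ring
  rw [h, coeff_sub, show r + (s + 1) = (r + s) + 1 by ring, coeff_X_mul, coeff_C_mul,
    show r + 1 + s = (r + s) + 1 by ring]
  ring

open Polynomial in
lemma sc_zero (r : ℕ) : sc r 0 = ((2 * r).choose r : ℤ) := by
  unfold sc
  simp [coeff_one_add_X_pow]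

lemma sc_fact (r s : ℕ) : sc r s * ((r.factorial : ℤ) * s.factorial * (r + s).factorial) =
    ((2 * r).factorial : ℤ) * (2 * s).factorial := by
  induction s generalizing r with
  | zero =>
    rw [sc_zero]
    have := Nat.choose_mul_factorial_mul_factorial (show r ≤ 2 * r by omega)
    rw [show 2 * r - r = r by omega] at this
    have h : ((2 * r).choose r : ℤ) * r.factorial * r.factorial = (2 * r).factorial := by
      exact_mod_cast this
    simp only [Nat.factorial_zero, add_zero, mul_zero]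
    push_cast
    linear_combination h
  | succ s ih =>
    rw [sc_rec]
    have h1 := ih r
    have h2 := ih (r + 1)
    have f1 : ((r + 1).factorial : ℤ) = (r + 1) * r.factorial := by
      rw [Nat.factorial_succ]; push_cast; ring
    have f2 : ((s + 1).factorial : ℤ) = (s + 1) * s.factorial := by
      rw [Nat.factorial_succ]; push_cast; ring
    have f3 : ((r + (s + 1)).factorial : ℤ) = (r + s + 1) * (r + s).factorial := by
      rw [show r + (s + 1) = (r + s) + 1 by ring, Nat.factorial_succ]; push_cast; ring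
    have f3' : ((r + 1 + s).factorial : ℤ) = (r + s + 1) * (r + s).factorial := by
      rw [show r + 1 + s = (r + s) + 1 by ring, Nat.factorial_succ]; push_cast; ring
    have f4 : ((2 * (r + 1)).factorial : ℤ) = (2 * r + 2) * ((2 * r + 1) * (2 * r).factorial) := by
      rw [show 2 * (r + 1) = (2 * r + 1) + 1 by ring, Nat.factorial_succ, Nat.factorial_succ]
      push_cast; ring
    have f5 : ((2 * (s + 1)).factorial : ℤ) = (2 * s + 2) * ((2 * s + 1) * (2 * s).factorial) := by
      rw [show 2 * (s + 1) = (2 * s + 1) + 1 by ring, Nat.factorial_succ, Nat.factorial_succ]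
      push_cast; ring
    rw [f1, f3', f4] at h2
    rw [f2, f3, f5]
    have hr : ((r : ℤ) + 1) ≠ 0 := by positivity
    apply mul_left_cancel₀ hr
    linear_combination 4 * ((r : ℤ) + 1) * (s + 1) * (r + s + 1) * h1 - ((s : ℤ) + 1) * h2

lemma sc_choose (k r : ℕ) (hr : r ≤ k) : (k.choose r : ℤ) * sc r (k - r) =
    ((2 * r).choose r : ℤ) * ((2 * (k - r)).choose (k - r) : ℤ) := by
  obtain ⟨s, rfl⟩ := Nat.exists_eq_add_of_le hr
  rw [show r + s - r = s by omega]
  have h := sc_fact r s
  have c1 := Nat.choose_mul_factorial_mul_factorial (show r ≤ r + s by omega)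
  have c2 := Nat.choose_mul_factorial_mul_factorial (show r ≤ 2 * r by omega)
  have c3 := Nat.choose_mul_factorial_mul_factorial (show s ≤ 2 * s by omega)
  rw [show r + s - r = s by omega] at c1
  rw [show 2 * r - r = r by omega] at c2
  rw [show 2 * s - s = s by omega] at c3
  have c1' : ((r + s).choose r : ℤ) * r.factorial * s.factorial = (r + s).factorial := by
    exact_mod_cast c1
  have c2' : ((2 * r).choose r : ℤ) * r.factorial * r.factorial = (2 * r).factorial := by
    exact_mod_cast c2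
  have c3' : ((2 * s).choose s : ℤ) * s.factorial * s.factorial = (2 * s).factorial := by
    exact_mod_cast c3
  have f1 : ((r.factorial : ℤ)) ≠ 0 := by exact_mod_cast Nat.factorial_ne_zero r
  have f2 : ((s.factorial : ℤ)) ≠ 0 := by exact_mod_cast Nat.factorial_ne_zero s
  have f3 : (((r + s).factorial : ℤ)) ≠ 0 := by exact_mod_cast Nat.factorial_ne_zero _
  have hne : ((r.factorial : ℤ) ^ 2 * (s.factorial : ℤ) ^ 2 * (r + s).factorial) ≠ 0 := by positivity
  apply mul_right_cancel₀ hne
  calc ((r + s).choose r : ℤ) * sc r s * ((r.factorial : ℤ) ^ 2 * (s.factorial : ℤ) ^ 2 * (r + s).factorial)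
      = (((r + s).choose r : ℤ) * r.factorial * s.factorial) *
        (sc r s * ((r.factorial : ℤ) * s.factorial * (r + s).factorial)) := by ring
    _ = (r + s).factorial * ((((2 * r).choose r : ℤ) * r.factorial * r.factorial) *
        (((2 * s).choose s : ℤ) * s.factorial * s.factorial)) := by rw [c1', h, c2', c3']
    _ = _ := by ring

/-- `W_k / (k+1)` -/
def om (k : ℕ) : ℤ := ∑ r ∈ range (k + 1), ((2 * r).choose r : ℤ) * (catalan (k - r) : ℤ) *
  (((k + r).choose r : ℤ) - (if r = 0 then 0 else ((k + r).choose (r - 1) : ℤ))) * 4 ^ (k - r)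

lemma om_eq (k : ℕ) : ∑ r ∈ range (k + 1), ((k + r).choose r : ℤ) * (((2 * r).choose r : ℤ) *
    ((2 * (k - r)).choose (k - r) : ℤ)) * 4 ^ (k - r) = ((k : ℤ) + 1) * om k := by
  unfold om
  rw [mul_sum]
  refine sum_congr rfl (fun r hr => ?_)
  have hr' : r ≤ k := by have := mem_range.mp hr; omega
  obtain ⟨s, rfl⟩ := Nat.exists_eq_add_of_le hr'
  rw [show r + s - r = s by omega]
  have hc : ((2 * s).choose s : ℤ) = ((s : ℤ) + 1) * (catalan s : ℤ) := by
    have := succ_mul_catalan_eq_centralBinom s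
    rw [Nat.centralBinom_eq_two_mul_choose] at this
    exact_mod_cast this.symm
  have hb : (((r + s : ℕ) : ℤ) + 1) * (if r = 0 then 0 else ((r + s + r).choose (r - 1) : ℤ)) =
      (r : ℤ) * ((r + s + r).choose r : ℤ) := by
    rcases Nat.eq_zero_or_pos r with rfl | h
    · simp
    · rw [if_neg (by omega)]
      obtain ⟨q, rfl⟩ := Nat.exists_eq_add_of_le' h
      have h1 := Nat.choose_succ_right_eq (q + 1 + s + (q + 1)) q
      rw [show q + 1 + s + (q + 1) - q = q + s + 2 by omega] at h1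
      have h2 := congrArg (Nat.cast : ℕ → ℤ) h1
      rw [show q + 1 - 1 = q by omega]
      push_cast at h2 ⊢
      linear_combination -h2
  rw [hc]
  push_cast at hb ⊢
  linear_combination ((2 * r).choose r : ℤ) * (catalan s : ℤ) * 4 ^ s * hb

open Polynomial in
/-- the value at `-1/4`, integrally normalized -/
lemma N_eq (k : ℕ) : ∑ i ∈ range (k + 1), ∑ j ∈ range (k + 1), cf i j k *
    (((2 * i).choose i : ℤ) * ((-3) ^ i * (-3) ^ j * 4 ^ (2 * (k - i) + (k - j)))) =
    (-3) ^ k * (((k : ℤ) + 1) * om k) := by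
  have h1 := hom k (C (-3) * (1 + X) ^ 2 : ℤ[X]) (C 16 * X) (C (-3)) (C 4)
  rw [leg k] at h1
  have ha : (C (-3) * (1 + X) ^ 2 * (C 4 + C (-3)) : ℤ[X]) = C (-3) * (1 + X) ^ 2 := by
    rw [← C_add]; norm_num
  have hb : (C (-3) * (C 16 * X + C (-3) * (1 + X) ^ 2) - C (-3) * (1 + X) ^ 2 : ℤ[X]) =
      C 12 * (1 - X) ^ 2 := by
    have e16 : (C 16 : ℤ[X]) = 16 := rfl
    have e3 : (C (-3) : ℤ[X]) = -3 := by rw [C_neg]; rfl
    have e12 : (C 12 : ℤ[X]) = 12 := rfl
    rw [e16, e3, e12]; ring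
  rw [ha, hb] at h1
  have h2 := congrArg (fun q : ℤ[X] => q.coeff k) h1
  simp only [finsetSum_coeff] at h2
  have e1 : ∀ i ∈ range (k + 1), ∀ j ∈ range (k + 1), (((cf i j k : ℤ) : ℤ[X]) *
      ((C (-3) * (1 + X) ^ 2) ^ i * (C 16 * X) ^ (k - i) * (C (-3) ^ j * C 4 ^ (k - j)))).coeff k =
      cf i j k * (((2 * i).choose i : ℤ) * ((-3) ^ i * (-3) ^ j * 4 ^ (2 * (k - i) + (k - j)))) := by
    intro i hi j hj
    have hi' : i ≤ k := by have := mem_range.mp hi; omega
    have : (((cf i j k : ℤ) : ℤ[X]) *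
      ((C (-3) * (1 + X) ^ 2) ^ i * (C 16 * X) ^ (k - i) * (C (-3) ^ j * C 4 ^ (k - j)))) =
      C (cf i j k * ((-3) ^ i * 16 ^ (k - i) * ((-3) ^ j * 4 ^ (k - j)))) *
        (X ^ (k - i) * (1 + X) ^ (2 * i)) := by
      have hc : ((cf i j k : ℤ) : ℤ[X]) = C (cf i j k) := by simp
      rw [hc]
      simp only [C_mul, C_pow, mul_pow, ← pow_mul]
      ring
    rw [this, coeff_C_mul, coeff_X_pow_mul', if_pos (by omega), show k - (k - i) = i by omega,
      coeff_one_add_X_pow]
    have e4 : (4 : ℤ) ^ (2 * (k - i) + (k - j)) = 16 ^ (k - i) * 4 ^ (k - j) := by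
      rw [pow_add, pow_mul]; norm_num
    rw [e4]
    ring
  have e2 : ∀ s ∈ range (k + 1), ((((k.choose s : ℕ) : ℤ[X]) * (((k + s).choose s : ℕ) : ℤ[X]) *
      (C (-3) * (1 + X) ^ 2) ^ s * (C 12 * (1 - X) ^ 2) ^ (k - s))).coeff k =
      (-3) ^ k * (((k + s).choose s : ℤ) * (((2 * s).choose s : ℤ) *
    ((2 * (k - s)).choose (k - s) : ℤ)) * 4 ^ (k - s)) := by
    intro s hs
    have hs' : s ≤ k := by have := mem_range.mp hs; omega
    have : ((((k.choose s : ℕ) : ℤ[X]) * (((k + s).choose s : ℕ) : ℤ[X]) *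
      (C (-3) * (1 + X) ^ 2) ^ s * (C 12 * (1 - X) ^ 2) ^ (k - s))) =
      C ((k.choose s : ℤ) * ((k + s).choose s : ℤ) * ((-3) ^ s * 12 ^ (k - s))) *
        ((1 + X) ^ (2 * s) * (1 - X) ^ (2 * (k - s))) := by
      simp only [C_mul, C_pow, mul_pow, ← pow_mul, map_natCast]
      ring
    rw [this, coeff_C_mul, ← sc_choose k s hs']
    unfold sc
    rw [show s + (k - s) = k by omega]
    have e12 : (12 : ℤ) ^ (k - s) = (-3) ^ (k - s) * (4 ^ (k - s) * (-1) ^ (k - s)) := by
      rw [← mul_pow, ← mul_pow]; norm_num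
    have e3 : (-3 : ℤ) ^ k = (-3) ^ s * (-3) ^ (k - s) := by rw [← pow_add]; congr 1; omega
    rw [e12, e3]
    ring
  rw [sum_congr rfl (fun i hi => sum_congr rfl (fun j hj => e1 i hi j hj)),
    sum_congr rfl e2, ← mul_sum, om_eq] at h2
  exact h2

section ring
variable {R : Type*} [CommRing R]

lemma L_mod (k : ℕ) (x : R) : ∃ w : R, 4 ^ (3 * k) * L k x =
    ((k : R) + 1) * ((-3) ^ k * (om k : R)) + (4 * x + 1) * w := by
  have h := congrArg (Int.cast : ℤ → R) (N_eq k)
  push_cast at h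
  have hd : (4 * x + 1) ∣ 4 ^ (3 * k) * L k x - (-3) ^ k * (((k : R) + 1) * (om k : R)) := by
    rw [← h]
    unfold L
    rw [mul_sum, ← sum_sub_distrib]
    apply dvd_sum
    intro i hi
    rw [mul_sum, ← sum_sub_distrib]
    apply dvd_sum
    intro j hj
    have hi' : i ≤ k := by have := mem_range.mp hi; omega
    have hj' : j ≤ k := by have := mem_range.mp hj; omega
    have e : (4 : R) ^ (3 * k) = 4 ^ (2 * (k - i) + (k - j)) * (16 ^ i * 4 ^ j) := by
      have : (16 : R) ^ i = 4 ^ (2 * i) := by rw [pow_mul]; norm_num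
      rw [this, ← pow_add, ← pow_add]; congr 1; omega
    have e2 : 4 ^ (3 * k) * ((cf i j k : R) * (((2 * i).choose i : R) * (x * (x + 1)) ^ i * (-1 - x) ^ j)) -
        (cf i j k : R) * (((2 * i).choose i : R) * ((-3) ^ i * (-3) ^ j * 4 ^ (2 * (k - i) + (k - j)))) =
        (((16 * (x * (x + 1))) ^ i - (-3) ^ i) * (4 * (-1 - x)) ^ j +
          (-3) ^ i * ((4 * (-1 - x)) ^ j - (-3) ^ j)) *
          ((cf i j k : R) * ((2 * i).choose i : R) * 4 ^ (2 * (k - i) + (k - j))) := by
      rw [e, mul_pow 16, mul_pow 4]; ring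
    rw [e2]
    apply Dvd.dvd.mul_right
    apply dvd_add
    · apply Dvd.dvd.mul_right
      refine dvd_trans ?_ (sub_dvd_pow_sub_pow _ _ _)
      exact ⟨4 * x + 3, by ring⟩
    · apply Dvd.dvd.mul_left
      refine dvd_trans ?_ (sub_dvd_pow_sub_pow _ _ _)
      exact ⟨-1, by ring⟩
  obtain ⟨w, hw⟩ := hd
  exact ⟨w, by linear_combination hw⟩

/-- if `4 u = 1` then `K_n(x) ∈ n R + (4x+1) R` -/
lemma K_mod (n : ℕ) (x u : R) (hu : 4 * u = 1) :
    ∃ a b : R, K n x = n * a + (4 * x + 1) * b := by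
  unfold K
  choose w hw using (fun k => L_mod k x)
  refine ⟨∑ k ∈ range n, ((n - 1).choose k : R) * ((n + k).choose k : R) *
      (u ^ (3 * k) * ((-3) ^ k * (om k : R))),
    ∑ k ∈ range n, ((n.choose (k + 1) : R) * ((n + k).choose k : R)) *
      (u ^ (3 * k) * w k), ?_⟩
  rw [mul_sum, mul_sum, ← sum_add_distrib]
  refine sum_congr rfl (fun k hk => ?_)
  have hk' : k < n := mem_range.mp hk
  have h1 : (n.choose (k + 1) : R) * ((k : R) + 1) = n * ((n - 1).choose k : R) := by
    have := Nat.add_one_mul_choose_eq (n - 1) k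
    rw [show n - 1 + 1 = n by omega] at this
    have h := congrArg (Nat.cast : ℕ → R) this
    push_cast at h
    exact h.symm
  have h2 : L k x = u ^ (3 * k) * (4 ^ (3 * k) * L k x) := by
    rw [← mul_assoc, ← mul_pow, mul_comm u 4, hu, one_pow, one_mul]
  rw [h2, hw k]
  linear_combination ((n + k).choose k : R) * (u ^ (3 * k) * ((-3) ^ k * (om k : R))) * h1

end ring

end Pool.Agent.V11308.Leg
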