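import Mathlib

/-!
Self-convolution of `t_k = C(6k,3k) C(3k,k)`: a Clausen type identity
`∑_{k ≤ n} t_k t_{n-k} = ∑_{k ≤ n} D_k C(k,n-k) (-432)^(n-k)`, `D_k = t_k C(2k,k)`.
-/

namespace Pool.Agent.V11308.SixThree

open Finset

/-- `t_k = C(6k,3k) C(3k,k)` -/
def t (k : ℕ) : ℕ := (6 * k).choose (3 * k) * (3 * k).choose k

/-- `D_k = t_k C(2k,k)` -/
def D (k : ℕ) : ℕ := t k * (2 * k).choose k

theorem t_fact (k : ℕ) : t k * ((3 * k).factorial * (2 * k).factorial * k.factorial) =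
    (6 * k).factorial := by
  have h1 := Nat.choose_mul_factorial_mul_factorial (show 3 * k ≤ 6 * k by omega)
  have h2 := Nat.choose_mul_factorial_mul_factorial (show k ≤ 3 * k by omega)
  rw [show 6 * k - 3 * k = 3 * k by omega] at h1
  rw [show 3 * k - k = 2 * k by omega] at h2
  unfold t
  calc (6 * k).choose (3 * k) * (3 * k).choose k *
        ((3 * k).factorial * (2 * k).factorial * k.factorial)
      = (6 * k).choose (3 * k) * (3 * k).factorial *
        ((3 * k).choose k * k.factorial * (2 * k).factorial) := by ring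
    _ = _ := by rw [h2, h1]

theorem D_fact (k : ℕ) : D k * ((3 * k).factorial * k.factorial ^ 3) =
    (6 * k).factorial := by
  have h2 := Nat.choose_mul_factorial_mul_factorial (show k ≤ 2 * k by omega)
  rw [show 2 * k - k = k by omega] at h2
  rw [← t_fact k, ← h2]
  unfold D
  ring

/-- `c(x) = 12(6x+1)(6x+5)` -/
def c (x : ℚ) : ℚ := 12 * (6 * x + 1) * (6 * x + 5)

theorem t_succ (k : ℕ) : (t (k + 1) : ℚ) * ((k : ℚ) + 1) ^ 2 = c k * t k := by
  have h1 := t_fact k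
  have h2 := t_fact (k + 1)
  rw [show 6 * (k + 1) = 6 * k + 1 + 1 + 1 + 1 + 1 + 1 by ring,
    show 3 * (k + 1) = 3 * k + 1 + 1 + 1 by ring,
    show 2 * (k + 1) = 2 * k + 1 + 1 by ring] at h2
  simp only [Nat.factorial_succ] at h2
  have h1' : (t k : ℚ) * ((3 * k).factorial * (2 * k).factorial * k.factorial) =
    (6 * k).factorial := by exact_mod_cast h1
  have h2' := congrArg (Nat.cast : ℕ → ℚ) h2
  push_cast at h2'
  rw [← h1'] at h2'
  have e3 : ((3 * k).factorial : ℚ) ≠ 0 := by exact_mod_cast Nat.factorial_ne_zero _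
  have e2 : ((2 * k).factorial : ℚ) ≠ 0 := by exact_mod_cast Nat.factorial_ne_zero _
  have e1 : (k.factorial : ℚ) ≠ 0 := by exact_mod_cast Nat.factorial_ne_zero _
  have key : ((t (k + 1) : ℚ) * ((k : ℚ) + 1) ^ 2 - c k * t k) *
      (((3 * k).factorial : ℚ) * (2 * k).factorial * k.factorial *
        (6 * ((3 : ℚ) * k + 1) * (3 * k + 2) * (2 * k + 1) * ((k : ℚ) + 1))) = 0 := by
    unfold c
    linear_combination h2'
  rcases mul_eq_zero.mp key with h | h
  · linarith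
  · exfalso
    have : (((3 * k).factorial : ℚ) * (2 * k).factorial * k.factorial *
        (6 * ((3 : ℚ) * k + 1) * (3 * k + 2) * (2 * k + 1) * ((k : ℚ) + 1))) ≠ 0 := by
      positivity
    exact this h

theorem D_succ (k : ℕ) : (D (k + 1) : ℚ) * ((k : ℚ) + 1) ^ 3 = c k * (4 * k + 2) * D k := by
  have h := Nat.succ_mul_centralBinom_succ k
  rw [Nat.centralBinom_eq_two_mul_choose, Nat.centralBinom_eq_two_mul_choose] at h
  have h' : ((k : ℚ) + 1) * ((2 * (k + 1)).choose (k + 1) : ℕ) = 2 * (2 * k + 1) *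
      ((2 * k).choose k : ℕ) := by exact_mod_cast h
  have ht := t_succ k
  unfold D
  push_cast
  linear_combination ((k : ℚ) + 1) ^ 2 * (t (k + 1) : ℚ) * h' +
    2 * (2 * (k : ℚ) + 1) * ((2 * k).choose k : ℕ) * ht

/-- the convolution -/
def S (n : ℕ) : ℕ := ∑ k ∈ range (n + 1), t k * t (n - k)

def P1 (n : ℚ) : ℚ := 24 * (2 * n + 3) * (18 * n ^ 2 + 54 * n + 41)
def P0 (n : ℚ) : ℚ := 20736 * (n + 1) * (3 * n + 1) * (3 * n + 5)
def h (n k : ℚ) : ℚ := 432 * n ^ 2 + 1548 * n + 1368 - (432 * n + 744) * k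

def G (n k : ℕ) : ℚ :=
  if k ≤ n + 2 then (k : ℚ) ^ 2 * h n k * t k * t (n + 2 - k) / c ((n : ℚ) + 1 - k) else 0

theorem c_pos (k : ℕ) : 0 < c k := by unfold c; positivity

theorem t0 : t 0 = 1 := by decide
theorem t1 : t 1 = 60 := by decide

theorem cert_main (k j : ℕ) :
    (((k + j : ℕ) : ℚ) + 2) ^ 3 * (t k * t (j + 2)) - P1 ((k + j : ℕ) : ℚ) * (t k * t (j + 1))
      + P0 ((k + j : ℕ) : ℚ) * (t k * t j) = G (k + j) (k + 1) - G (k + j) k := by
  unfold G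
  rw [if_pos (by omega), if_pos (by omega), show k + j + 2 - (k + 1) = j + 1 by omega,
    show k + j + 2 - k = j + 2 by omega]
  have hk := t_succ k
  have hj := t_succ j
  have hj2 := t_succ (j + 1)
  have e1 : ((k : ℚ) + 1) ≠ 0 := by positivity
  have e2 : ((j : ℚ) + 1) ≠ 0 := by positivity
  have e3 : ((j : ℚ) + 2) ≠ 0 := by positivity
  have tk : (t (k + 1) : ℚ) = c k * t k / ((k : ℚ) + 1) ^ 2 := by
    rw [eq_div_iff (pow_ne_zero 2 e1), hk]
  have tj : (t (j + 1) : ℚ) = c j * t j / ((j : ℚ) + 1) ^ 2 := by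
    rw [eq_div_iff (pow_ne_zero 2 e2), hj]
  have tj2 : (t (j + 2) : ℚ) = c ((j : ℚ) + 1) * t (j + 1) / ((j : ℚ) + 2) ^ 2 := by
    rw [eq_div_iff (pow_ne_zero 2 e3)]
    rw [show j + 1 + 1 = j + 2 by ring] at hj2
    push_cast at hj2
    rw [← hj2]; ring
  rw [tj2, tj, tk]
  have q1 : c ((((k + j : ℕ) : ℚ)) + 1 - ((k + 1 : ℕ) : ℚ)) = c j := by
    congr 1; push_cast; ring
  have q2 : c ((((k + j : ℕ) : ℚ)) + 1 - (k : ℚ)) = c ((j : ℚ) + 1) := by
    congr 1; push_cast; ring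
  rw [q1, q2]
  have c1 : c (j : ℚ) ≠ 0 := (c_pos j).ne'
  have c2 : c ((j : ℚ) + 1) ≠ 0 := by
    have := (c_pos (j + 1)).ne'
    push_cast at this
    exact this
  have key : ((((k + j : ℕ) : ℚ) + 2) ^ 3 * (c ((j : ℚ) + 1) * c j) -
      P1 ((k + j : ℕ) : ℚ) * (c j) * ((j : ℚ) + 2) ^ 2
      + P0 ((k + j : ℕ) : ℚ) * ((j : ℚ) + 1) ^ 2 * ((j : ℚ) + 2) ^ 2) =
      h ((k + j : ℕ) : ℚ) ((k + 1 : ℕ) : ℚ) * c k * ((j : ℚ) + 2) ^ 2 -
      (k : ℚ) ^ 2 * h ((k + j : ℕ) : ℚ) k * c j := by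
    unfold c P1 P0 h
    push_cast
    ring
  have E1 : (((k + 1 : ℕ) : ℚ)) ^ 2 = ((k : ℚ) + 1) ^ 2 := by push_cast; ring
  rw [E1]
  field_simp
  linear_combination (t k : ℚ) * t j * key

theorem cert_one (n : ℕ) :
    ((n : ℚ) + 2) ^ 3 * (t (n + 1) * t 1) - P1 n * (t (n + 1) * t 0)
      = G n (n + 2) - G n (n + 1) := by
  unfold G
  rw [if_pos (by omega), if_pos (by omega), show n + 2 - (n + 2) = 0 by omega,
    show n + 2 - (n + 1) = 1 by omega, t0, t1]
  have hk := t_succ (n + 1)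
  have e1 : ((n : ℚ) + 2) ≠ 0 := by positivity
  have tk : (t (n + 2) : ℚ) = c ((n : ℚ) + 1) * t (n + 1) / ((n : ℚ) + 2) ^ 2 := by
    rw [eq_div_iff (pow_ne_zero 2 e1)]
    rw [show n + 1 + 1 = n + 2 by ring] at hk
    push_cast at hk
    rw [← hk]; ring
  rw [tk]
  have q1 : c ((n : ℚ) + 1 - ((n + 2 : ℕ) : ℚ)) = 60 := by
    unfold c; push_cast; ring
  have q2 : c ((n : ℚ) + 1 - ((n + 1 : ℕ) : ℚ)) = 60 := by
    unfold c; push_cast; ring
  rw [q1, q2]
  have E1 : (((n + 2 : ℕ) : ℚ)) ^ 2 = ((n : ℚ) + 2) ^ 2 := by push_cast; ring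
  rw [E1]
  have key : ((n : ℚ) + 2) ^ 3 * 60 - P1 n =
    h (n : ℚ) ((n + 2 : ℕ) : ℚ) * c ((n : ℚ) + 1) / 60 -
    ((n : ℚ) + 1) ^ 2 * h (n : ℚ) ((n + 1 : ℕ) : ℚ) := by
    unfold c P1 h
    push_cast
    ring
  push_cast at key ⊢
  have : ((n : ℚ) + 2) ^ 2 * h n ((n : ℚ) + 2) *
      (c ((n : ℚ) + 1) * (t (n + 1) : ℚ) / ((n : ℚ) + 2) ^ 2) * 1 / 60 =
      h n ((n : ℚ) + 2) * c ((n : ℚ) + 1) / 60 * t (n + 1) := by
    field_simp
  rw [this]
  linear_combination (t (n + 1) : ℚ) * key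

theorem cert_two (n : ℕ) :
    ((n : ℚ) + 2) ^ 3 * (t (n + 2) * t 0) = G n (n + 3) - G n (n + 2) := by
  unfold G
  rw [if_neg (by omega), if_pos (by omega), show n + 2 - (n + 2) = 0 by omega, t0]
  have q1 : c ((n : ℚ) + 1 - ((n + 2 : ℕ) : ℚ)) = 60 := by
    unfold c; push_cast; ring
  rw [q1]
  unfold h
  push_cast
  ring

theorem S_rec (n : ℕ) :
    ((n : ℚ) + 2) ^ 3 * S (n + 2) - P1 n * S (n + 1) + P0 n * S n = 0 := by
  have tel : ∑ k ∈ range (n + 3), (G n (k + 1) - G n k) = 0 := by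
    rw [sum_range_sub]
    unfold G
    rw [if_neg (by omega), if_pos (by omega)]
    simp
  rw [← tel]
  unfold S
  push_cast
  rw [sum_range_succ (fun k => G n (k + 1) - G n k) (n + 2),
    sum_range_succ (fun k => G n (k + 1) - G n k) (n + 1), ← cert_one, ← cert_two,
    show n + 2 + 1 = (n + 1) + 1 + 1 by ring,
    sum_range_succ (fun k => (t k : ℚ) * (t (n + 2 - k) : ℚ)) (n + 1 + 1),
    sum_range_succ (fun k => (t k : ℚ) * (t (n + 2 - k) : ℚ)) (n + 1),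
    sum_range_succ (fun k => (t k : ℚ) * (t (n + 1 - k) : ℚ)) (n + 1),
    show n + 2 - (n + 1 + 1) = 0 by omega, show n + 2 - (n + 1) = 1 by omega,
    show n + 1 - (n + 1) = 0 by omega]
  have : ∑ k ∈ range (n + 1), (G n (k + 1) - G n k) =
      ((n : ℚ) + 2) ^ 3 * ∑ k ∈ range (n + 1), (t k : ℚ) * (t (n + 2 - k) : ℚ) -
      P1 n * ∑ k ∈ range (n + 1), (t k : ℚ) * (t (n + 1 - k) : ℚ) +
      P0 n * ∑ k ∈ range (n + 1), (t k : ℚ) * (t (n - k) : ℚ) := by
    rw [mul_sum, mul_sum, mul_sum, ← sum_sub_distrib, ← sum_add_distrib]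
    refine sum_congr rfl (fun k hk => ?_)
    have hk' : k ≤ n := by have := mem_range.mp hk; omega
    obtain ⟨j, rfl⟩ := Nat.exists_eq_add_of_le hk'
    rw [← cert_main, show k + j + 2 - k = j + 2 by omega, show k + j + 1 - k = j + 1 by omega,
      show k + j - k = j by omega]
  rw [this]
  ring

/-- the terms of the single sum -/
def E (i k : ℕ) : ℚ := (D k : ℚ) * (k.choose i : ℕ) * (-432) ^ i

theorem E_i (i k : ℕ) : ((i : ℚ) + 1) * E (i + 1) k = -432 * ((k : ℚ) - i) * E i k := by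
  unfold E
  have hc : ((i : ℚ) + 1) * (k.choose (i + 1) : ℕ) = ((k : ℚ) - i) * (k.choose i : ℕ) := by
    rcases Nat.lt_or_ge k i with hlt | hle
    · rw [Nat.choose_eq_zero_of_lt hlt, Nat.choose_eq_zero_of_lt (by omega)]; simp
    · have := Nat.choose_succ_right_eq k i
      have h2 := congrArg (Nat.cast : ℕ → ℚ) this
      push_cast [Nat.cast_sub hle] at h2
      linear_combination h2
  rw [pow_succ]
  linear_combination (D k : ℚ) * (-432) ^ i * (-432) * hc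

theorem E_k (i k : ℕ) : ((i : ℚ) + 1) * ((k : ℚ) + 1) ^ 2 * E (i + 1) (k + 1) =
    -432 * c k * (4 * k + 2) * E i k := by
  unfold E
  have hc : ((k + 1).choose (i + 1) : ℚ) * ((i : ℚ) + 1) = ((k : ℚ) + 1) * (k.choose i : ℕ) := by
    exact_mod_cast (Nat.add_one_mul_choose_eq k i).symm
  have hd := D_succ k
  rw [pow_succ]
  linear_combination ((k : ℚ) + 1) ^ 2 * (D (k + 1) : ℚ) * (-432) ^ i * (-432) * hc +
    (k.choose i : ℕ) * (-432) ^ i * (-432) * hd

theorem E_main (i k : ℕ) :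
    (((i + k : ℕ) : ℚ) + 2) ^ 3 * E (i + 2) k - P1 ((i + k : ℕ) : ℚ) * E (i + 1) k +
      P0 ((i + k : ℕ) : ℚ) * E i k =
    -(((i + k : ℕ) : ℚ) + 2) * ((k : ℚ) + 1) ^ 2 * E (i + 1) (k + 1) +
      (((i + k : ℕ) : ℚ) + 2) * (k : ℚ) ^ 2 * E (i + 2) k := by
  have h1 := E_i i k
  have h2 := E_i (i + 1) k
  have h3 := E_k i k
  rw [show i + 1 + 1 = i + 2 by ring] at h2
  have e1 : ((i : ℚ) + 1) ≠ 0 := by positivity
  have e2 : ((i : ℚ) + 2) ≠ 0 := by positivity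
  have a1 : E (i + 1) k = -432 * ((k : ℚ) - i) * E i k / ((i : ℚ) + 1) := by
    rw [eq_div_iff e1, ← h1]; ring
  have a2 : E (i + 2) k = -432 * ((k : ℚ) - i - 1) * E (i + 1) k / ((i : ℚ) + 2) := by
    rw [eq_div_iff e2]; push_cast at h2; linear_combination h2
  have a3 : ((k : ℚ) + 1) ^ 2 * E (i + 1) (k + 1) =
      -432 * c k * (4 * k + 2) * E i k / ((i : ℚ) + 1) := by
    rw [eq_div_iff e1, ← h3]; ring
  have a3' : -(((i + k : ℕ) : ℚ) + 2) * ((k : ℚ) + 1) ^ 2 * E (i + 1) (k + 1) =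
      -(((i + k : ℕ) : ℚ) + 2) * (-432 * c k * (4 * k + 2) * E i k / ((i : ℚ) + 1)) := by
    rw [← a3]; ring
  rw [a3', a2, a1]
  unfold P1 P0 c
  push_cast
  field_simp
  ring

/-- the single sum -/
def R (n : ℕ) : ℚ := ∑ k ∈ range (n + 1), E (n - k) k

theorem E_zero (k : ℕ) : E 0 k = D k := by simp [E]

theorem R_rec (n : ℕ) :
    ((n : ℚ) + 2) ^ 3 * R (n + 2) - P1 n * R (n + 1) + P0 n * R n = 0 := by
  have V : ∀ n : ℕ, ∀ m ≤ n + 1, ∑ k ∈ range m,
      (((n : ℚ) + 2) ^ 3 * E (n + 2 - k) k - P1 n * E (n + 1 - k) k + P0 n * E (n - k) k) =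
      -((n : ℚ) + 2) * (m : ℚ) ^ 2 * E (n + 2 - m) m := by
    intro n m
    induction m with
    | zero => intro _; simp
    | succ m ih =>
      intro hm
      rw [sum_range_succ, ih (by omega)]
      obtain ⟨i, rfl⟩ := Nat.exists_eq_add_of_le (show m ≤ n by omega)
      have := E_main i m
      rw [show m + i + 2 - m = i + 2 by omega, show m + i + 1 - m = i + 1 by omega,
        show m + i - m = i by omega, show m + i + 2 - (m + 1) = i + 1 by omega]
      rw [show i + m = m + i by ring] at this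
      rw [this]
      push_cast
      ring
  unfold R
  have h1 := V n (n + 1) le_rfl
  rw [show n + 2 - (n + 1) = 1 by omega] at h1
  rw [show n + 2 + 1 = (n + 1) + 1 + 1 by ring,
    sum_range_succ (fun k => E (n + 2 - k) k) (n + 1 + 1),
    sum_range_succ (fun k => E (n + 2 - k) k) (n + 1),
    sum_range_succ (fun k => E (n + 1 - k) k) (n + 1),
    show n + 2 - (n + 1 + 1) = 0 by omega, show n + 2 - (n + 1) = 1 by omega,
    show n + 1 - (n + 1) = 0 by omega]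
  rw [sum_add_distrib, sum_sub_distrib, ← mul_sum, ← mul_sum, ← mul_sum] at h1
  have h2 := E_k 0 (n + 1)
  have h3 := E_i 0 (n + 1)
  have h4 := D_succ (n + 1)
  rw [E_zero] at h2 h3
  rw [E_zero, E_zero]
  rw [show 0 + 1 = 1 by rfl] at h2 h3
  push_cast at h1 h2 h3 h4
  have e1 : E 1 (n + 1) = -432 * ((n : ℚ) + 1) * D (n + 1) := by linear_combination h3
  rw [e1] at h1 ⊢
  have key : -((n : ℚ) + 2) * ((n : ℚ) + 1) ^ 2 * (-432 * ((n : ℚ) + 1)) +
      ((n : ℚ) + 2) ^ 3 * (-432 * ((n : ℚ) + 1)) - P1 n +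
      c ((n : ℚ) + 1) * (4 * ((n : ℚ) + 1) + 2) = 0 := by
    unfold c P1; ring
  rw [show n + 1 + 1 = n + 2 by ring] at h4 ⊢
  linear_combination h1 + h4 + (D (n + 1) : ℚ) * key

theorem clausen (n : ℕ) : (S n : ℚ) = R n := by
  have h0 : (S 0 : ℚ) = R 0 := by
    have : S 0 = 1 := by decide
    rw [this]
    have hD : D 0 = 1 := by decide
    simp [R, E, hD]
  have h1 : (S 1 : ℚ) = R 1 := by
    have : S 1 = 120 := by decide +kernel
    rw [this]
    have hD : D 0 = 1 := by decide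
    have hD1 : D 1 = 120 := by decide +kernel
    simp [R, E, hD, hD1, sum_range_succ]
  have hpair : ∀ n : ℕ, (S n : ℚ) = R n ∧ (S (n + 1) : ℚ) = R (n + 1) := by
    intro n
    induction n with
    | zero => exact ⟨h0, h1⟩
    | succ n ih =>
      refine ⟨ih.2, ?_⟩
      have hs := S_rec n
      have hr := R_rec n
      rw [ih.1, ih.2] at hs
      have e : ((n : ℚ) + 2) ^ 3 ≠ 0 := by positivity
      apply mul_left_cancel₀ e
      linear_combination hs - hr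
  exact (hpair n).1

end Pool.Agent.V11308.SixThree
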