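import Mathlib
import Pool.Agent.V11308.SixThree

namespace Pool.Agent.V11308.SixThree

open Finset

/-- binary digit sum -/
def s2 (m : ℕ) : ℕ := (Nat.digits 2 m).sum

theorem val2_fact (m : ℕ) : padicValNat 2 m.factorial + s2 m = m := by
  have h := sub_one_mul_padicValNat_factorial (p := 2) m
  have h2 := Nat.digit_sum_le 2 m
  unfold s2
  omega

theorem s2_two_mul (m : ℕ) : s2 (2 * m) = s2 m := by
  unfold s2
  rcases Nat.eq_zero_or_pos m with rfl | h
  · rfl
  · rw [Nat.digits_def' (by norm_num) (by omega)]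
    simp

theorem s2_rec (m : ℕ) (hm : 0 < m) : s2 m = m % 2 + s2 (m / 2) := by
  unfold s2
  rw [Nat.digits_def' (by norm_num) hm]
  simp

theorem s2_le (m : ℕ) : s2 m ≤ m := Nat.digit_sum_le 2 m

theorem s2_add (a b : ℕ) : s2 (a + b) ≤ s2 a + s2 b := by
  have h := Nat.choose_mul_factorial_mul_factorial (show a ≤ a + b by omega)
  have h2 := congrArg (padicValNat 2) h
  have hc : (a + b).choose a ≠ 0 := (Nat.choose_pos (by omega)).ne'
  rw [show a + b - a = b by omega,
    padicValNat.mul (mul_ne_zero hc (Nat.factorial_ne_zero _)) (Nat.factorial_ne_zero _),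
    padicValNat.mul hc (Nat.factorial_ne_zero _)] at h2
  have e1 := val2_fact a
  have e2 := val2_fact b
  have e3 := val2_fact (a + b)
  omega

theorem s2_pos (m : ℕ) (hm : 0 < m) : 0 < s2 m := by
  induction m using Nat.strong_induction_on with
  | _ m ih =>
    rw [s2_rec m hm]
    rcases Nat.mod_two_eq_zero_or_one m with h | h
    · have := ih (m / 2) (by omega) (by omega)
      omega
    · omega

theorem s2_eq_one (m : ℕ) (hm : s2 m = 1) : ∃ j, m = 2 ^ j := by
  induction m using Nat.strong_induction_on with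
  | _ m ih =>
    rcases Nat.eq_zero_or_pos m with rfl | hpos
    · simp [s2] at hm
    rw [s2_rec m hpos] at hm
    rcases Nat.mod_two_eq_zero_or_one m with h | h
    · obtain ⟨j, hj⟩ := ih (m / 2) (by omega) (by omega)
      exact ⟨j + 1, by rw [pow_succ]; omega⟩
    · rcases Nat.eq_zero_or_pos (m / 2) with h0 | h1
      · exact ⟨0, by rw [pow_zero]; omega⟩
      · have := s2_pos _ h1
        omega

theorem s2_pow (j : ℕ) : s2 (2 ^ j) = 1 := by
  induction j with
  | zero => simp [s2]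
  | succ j ih => rw [pow_succ, mul_comm, s2_two_mul, ih]

theorem s2_three_pow (j : ℕ) : s2 (3 * 2 ^ j) = 2 := by
  induction j with
  | zero => norm_num [s2]
  | succ j ih => rw [pow_succ, show 3 * (2 ^ j * 2) = 2 * (3 * 2 ^ j) by ring, s2_two_mul, ih]

theorem s2_three (n : ℕ) (hn : 0 < n) : 2 ≤ s2 (3 * n) := by
  by_contra hlt
  have h1 : s2 (3 * n) = 1 := by
    have := s2_pos (3 * n) (by omega)
    omega
  obtain ⟨j, hj⟩ := s2_eq_one _ h1
  have h3 : 3 ∣ 2 ^ j := ⟨n, hj.symm⟩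
  have := Nat.prime_three.dvd_of_dvd_pow h3
  omega

theorem D_pos (k : ℕ) : 0 < D k := by
  unfold D t
  exact Nat.mul_pos (Nat.mul_pos (Nat.choose_pos (by omega)) (Nat.choose_pos (by omega)))
    (Nat.choose_pos (by omega))

theorem t_pos (k : ℕ) : 0 < t k := by
  unfold t
  exact Nat.mul_pos (Nat.choose_pos (by omega)) (Nat.choose_pos (by omega))

theorem val2_D (k : ℕ) : padicValNat 2 (D k) = 3 * s2 k := by
  have h := congrArg (padicValNat 2) (D_fact k)
  have h6 := padicValNat_factorial_mul (p := 2) (3 * k)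
  rw [show 6 * k = 2 * (3 * k) by ring, h6,
    padicValNat.mul (D_pos k).ne' (mul_ne_zero (Nat.factorial_ne_zero _)
      (pow_ne_zero 3 (Nat.factorial_ne_zero _))),
    padicValNat.mul (Nat.factorial_ne_zero _) (pow_ne_zero 3 (Nat.factorial_ne_zero _)),
    padicValNat.pow] at h
  have := val2_fact k
  omega

theorem S_int (n : ℕ) : (S n : ℤ) =
    ∑ k ∈ range n, (D k : ℤ) * (k.choose (n - k) : ℕ) * (-432) ^ (n - k) + (D n : ℤ) := by
  have h := clausen n
  unfold R E at h
  rw [sum_range_succ] at h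
  simp only [Nat.sub_self, Nat.choose_zero_right, pow_zero, Nat.cast_one, mul_one] at h
  exact_mod_cast h

theorem S_pos (n : ℕ) : 0 < S n := by
  unfold S
  exact sum_pos (fun k _ => Nat.mul_pos (t_pos _) (t_pos _)) ⟨0, by simp⟩

theorem dvd_diff (n : ℕ) : (2 : ℤ) ^ (3 * s2 n + 1) ∣ (S n : ℤ) - D n := by
  rw [S_int n, add_sub_cancel_right]
  apply dvd_sum
  intro k hk
  have hk' : k < n := mem_range.mp hk
  have h1 : (2 : ℤ) ^ (3 * s2 k) ∣ (D k : ℤ) := by
    have : 2 ^ (3 * s2 k) ∣ D k := by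
      rw [← val2_D]; exact pow_padicValNat_dvd
    exact_mod_cast this
  have h2 : (2 : ℤ) ^ (4 * (n - k)) ∣ (-432) ^ (n - k) := by
    rw [pow_mul]
    exact pow_dvd_pow_of_dvd (by norm_num) _
  have h3 : (2 : ℤ) ^ (3 * s2 k) * 2 ^ (4 * (n - k)) ∣
      (D k : ℤ) * (k.choose (n - k) : ℕ) * (-432) ^ (n - k) :=
    mul_dvd_mul (Dvd.dvd.mul_right h1 _) h2
  refine dvd_trans ?_ h3
  rw [← pow_add]
  apply pow_dvd_pow
  have h4 := s2_add k (n - k)
  have h5 := s2_le (n - k)
  rw [show k + (n - k) = n by omega] at h4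
  omega

theorem val2_S (n : ℕ) : padicValNat 2 (S n) = 3 * s2 n := by
  have hd := dvd_diff n
  have hS := (S_pos n).ne'
  have hD := (D_pos n).ne'
  have hv := val2_D n
  have key : ∀ m ≤ 3 * s2 n + 1, (2 ^ m ∣ S n ↔ 2 ^ m ∣ D n) := by
    intro m hm
    have h1 : (2 : ℤ) ^ m ∣ (S n : ℤ) - D n := dvd_trans (pow_dvd_pow 2 hm) hd
    have h2 := dvd_iff_dvd_of_dvd_sub h1
    constructor
    · intro h
      have : (2 : ℤ) ^ m ∣ (D n : ℤ) := h2.mp (by exact_mod_cast h)
      exact_mod_cast this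
    · intro h
      have : (2 : ℤ) ^ m ∣ (S n : ℤ) := h2.mpr (by exact_mod_cast h)
      exact_mod_cast this
  have le1 : 3 * s2 n ≤ padicValNat 2 (S n) := by
    rw [← padicValNat_dvd_iff_le hS, key _ (by omega), padicValNat_dvd_iff_le hD, hv]
  have le2 : ¬ (3 * s2 n + 1 ≤ padicValNat 2 (S n)) := by
    rw [← padicValNat_dvd_iff_le hS, key _ (by omega), padicValNat_dvd_iff_le hD, hv]
    omega
  omega

/-! ### odd primes -/

theorem fl2 (m x : ℕ) : 3 * x / m = (6 * x / m) / 2 := by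
  rw [Nat.div_div_eq_div_mul, show 6 * x = 2 * (3 * x) by ring, mul_comm m 2,
    Nat.mul_div_mul_left _ _ (by norm_num)]

theorem fl3 (m x : ℕ) : 2 * x / m = (6 * x / m) / 3 := by
  rw [Nat.div_div_eq_div_mul, show 6 * x = 3 * (2 * x) by ring, mul_comm m 3,
    Nat.mul_div_mul_left _ _ (by norm_num)]

theorem fl6 (m x : ℕ) : x / m = (6 * x / m) / 6 := by
  rw [Nat.div_div_eq_div_mul, mul_comm m 6,
    Nat.mul_div_mul_left _ _ (by norm_num)]

theorem fladd (m a b : ℕ) (hm : 0 < m) : 6 * (a + b) / m = 6 * a / m + 6 * b / m ∨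
    6 * (a + b) / m = 6 * a / m + 6 * b / m + 1 := by
  have h1 := Nat.div_add_mod (6 * a) m
  have h2 := Nat.div_add_mod (6 * b) m
  have l1 := Nat.mod_lt (6 * a) hm
  have l2 := Nat.mod_lt (6 * b) hm
  set x := 6 * a / m
  set y := 6 * b / m
  set r := 6 * a % m
  set s := 6 * b % m
  have e : 6 * (a + b) = m * (x + y) + (r + s) := by rw [mul_add, mul_add]; omega
  rw [e, Nat.mul_add_div hm]
  rcases Nat.lt_or_ge (r + s) m with h | h
  · left; rw [Nat.div_eq_of_lt h]; omega
  · right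
    have : (r + s) / m = 1 := by
      rw [Nat.div_eq_iff hm]
      omega
    omega

/-- left hand floor sum -/
def Lf (a b m : ℕ) : ℕ := (2 * (a + b) - 1) / m + 3 * (a + b) / m + 3 * a / m + 2 * a / m +
  a / m + 3 * b / m + 2 * b / m + b / m

/-- right hand floor sum -/
def Rf (a b m : ℕ) : ℕ := 6 * a / m + 6 * b / m + (a + b) / m + 2 * (a + b) / m +
  (2 * (a + b) - 2) / m

theorem odd_part (n m : ℕ) (hn : 0 < n) (hm : m % 2 = 1) :
    ((2 * n - 1) / m = (2 * n - 2) / m ∧ ¬ m ∣ 2 * n - 1) ∨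
    ((2 * n - 1) / m = (2 * n - 2) / m + 1 ∧ ∃ w, w % 2 = 1 ∧ 2 * n - 1 = m * w) := by
  have h := @Nat.succ_div (2 * n - 2) m
  rw [show 2 * n - 2 + 1 = 2 * n - 1 by omega] at h
  by_cases hd : m ∣ 2 * n - 1
  · right
    rw [if_pos hd] at h
    refine ⟨h, ?_⟩
    obtain ⟨w, hw⟩ := hd
    refine ⟨w, ?_, hw⟩
    have : (m * w) % 2 = 1 := by rw [← hw]; omega
    rw [Nat.mul_mod, hm, one_mul, Nat.mod_mod] at this
    exact this
  · left
    rw [if_neg hd] at h
    exact ⟨by omega, hd⟩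

theorem floor_ineq (a b m : ℕ) (hab : 0 < a + b) (hm : m % 2 = 1) (h5 : 5 ≤ m) :
    Lf a b m ≤ Rf a b m := by
  unfold Lf Rf
  rw [fl2 m a, fl2 m b, fl2 m (a + b), fl3 m a, fl3 m b, fl3 m (a + b), fl6 m a, fl6 m b,
    fl6 m (a + b)]
  have hz := fladd m a b (by omega)
  have ho := odd_part (a + b) m hab hm
  rcases ho with ⟨ho, -⟩ | ⟨ho, w, hw, hw2⟩
  · rw [ho]
    generalize 6 * (a + b) / m = z at *
    generalize 6 * a / m = x at *
    generalize 6 * b / m = y at *
    omega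
  · have hz2 : 6 * (a + b) / m = 3 * w := by
      have e : 6 * (a + b) = m * (3 * w) + 3 := by
        have : m * (3 * w) = 3 * (m * w) := by ring
        omega
      rw [e, Nat.mul_add_div (by omega), Nat.div_eq_of_lt (show 3 < m by omega), add_zero]
    rw [ho]
    generalize 6 * (a + b) / m = z at *
    generalize 6 * a / m = x at *
    generalize 6 * b / m = y at *
    omega

/-- the bad configurations for the prime 3 -/
def bad (a b m : ℕ) : Prop := (a % m = 0 ∧ (2 * b) % m = 1) ∨ (b % m = 0 ∧ (2 * a) % m = 1)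

instance (a b m : ℕ) : Decidable (bad a b m) := by unfold bad; infer_instance

theorem base3 (a b : ℕ) (hab : 0 < a + b) :
    Lf a b 3 ≤ Rf a b 3 + (if bad a b 3 then 1 else 0) := by
  by_cases hB : bad a b 3
  · rw [if_pos hB]
    unfold bad at hB
    unfold Lf Rf
    obtain ⟨u, r, hr, rfl⟩ : ∃ u r, r < 3 ∧ a = 3 * u + r := ⟨a / 3, a % 3, by omega, by omega⟩
    obtain ⟨v, s, hs, rfl⟩ : ∃ v s, s < 3 ∧ b = 3 * v + s := ⟨b / 3, b % 3, by omega, by omega⟩
    interval_cases r <;> interval_cases s <;> omega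
  · rw [if_neg hB]
    unfold bad at hB
    unfold Lf Rf
    obtain ⟨u, r, hr, rfl⟩ : ∃ u r, r < 3 ∧ a = 3 * u + r := ⟨a / 3, a % 3, by omega, by omega⟩
    obtain ⟨v, s, hs, rfl⟩ : ∃ v s, s < 3 ∧ b = 3 * v + s := ⟨b / 3, b % 3, by omega, by omega⟩
    interval_cases r <;> interval_cases s <;> omega

theorem step_bad (a b M : ℕ) (hab : 0 < a + b) (hM : M % 2 = 1) (h3 : 3 ≤ M)
    (ha : a % M = 0) (hb : (2 * b) % M = 1) :
    Lf a b (3 * M) + 1 ≤ Rf a b (3 * M) + (if bad a b (3 * M) then 1 else 0) := by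
  obtain ⟨a', ha'⟩ := Nat.dvd_of_mod_eq_zero ha
  have hb' := Nat.div_add_mod (2 * b) M
  rw [hb] at hb'
  set b' := 2 * b / M with hb'def
  have hodd : b' % 2 = 1 := by
    have : (M * b') % 2 = 1 := by omega
    rw [Nat.mul_mod, hM, one_mul, Nat.mod_mod] at this
    exact this
  have hpos : 0 < 3 * M := by omega
  have x : 6 * a / (3 * M) = 2 * a' := by
    rw [ha', show 6 * (M * a') = (3 * M) * (2 * a') by ring, Nat.mul_div_cancel_left _ hpos]
  have y : 6 * b / (3 * M) = b' := by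
    have e : 6 * b = (3 * M) * b' + 3 := by
      have : (3 * M) * b' = 3 * (M * b') := by ring
      omega
    rw [e, Nat.mul_add_div hpos, Nat.div_eq_of_lt (show 3 < 3 * M by omega), add_zero]
  have z : 6 * (a + b) / (3 * M) = 2 * a' + b' := by
    have e : 6 * (a + b) = (3 * M) * (2 * a' + b') + 3 := by
      have : (3 * M) * (2 * a' + b') = 6 * (M * a') + 3 * (M * b') := by ring
      omega
    rw [e, Nat.mul_add_div hpos, Nat.div_eq_of_lt (show 3 < 3 * M by omega), add_zero]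
  have hbad : a' % 3 = 0 → b' % 3 = 0 → bad a b (3 * M) := by
    intro h1 h2
    left
    constructor
    · rw [ha', mul_comm 3 M, Nat.mul_mod_mul_left, h1, mul_zero]
    · rw [← hb', ← Nat.div_add_mod b' 3, h2, add_zero,
        show M * (3 * (b' / 3)) + 1 = 1 + (3 * M) * (b' / 3) by ring, Nat.add_mul_mod_self_left,
        Nat.mod_eq_of_lt (by omega)]
  have ho := odd_part (a + b) (3 * M) hab (by omega)
  unfold Lf Rf
  rw [fl2 (3 * M) a, fl2 (3 * M) b, fl2 (3 * M) (a + b), fl3 (3 * M) a, fl3 (3 * M) b,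
    fl3 (3 * M) (a + b), fl6 (3 * M) a, fl6 (3 * M) b, fl6 (3 * M) (a + b), x, y, z]
  have hdiv : (∃ w, w % 2 = 1 ∧ 2 * (a + b) - 1 = 3 * M * w) → (2 * a' + b') % 3 = 0 := by
    rintro ⟨w, -, hw⟩
    have e : M * (2 * a' + b') = M * (3 * w) := by
      have e1 : M * (2 * a' + b') = 2 * (M * a') + M * b' := by ring
      have e2 : M * (3 * w) = 3 * M * w := by ring
      rw [e1, e2, ← hw, ← ha']
      omega
    have := Nat.eq_of_mul_eq_mul_left (show 0 < M by omega) e
    omega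
  have arith : ∀ A B e δ : ℕ, B % 2 = 1 → (A % 3 = 0 ∧ B % 3 = 0 → e = 1) →
      (δ = 0 ∨ (δ = 1 ∧ (2 * A + B) % 3 = 0)) →
      δ + (2 * A + B) / 2 + 2 * A / 2 + 2 * A / 3 + 2 * A / 6 + B / 2 + B / 3 + B / 6 + 1 ≤
      2 * A + B + (2 * A + B) / 6 + (2 * A + B) / 3 + e := by
    intro A B e δ h1 h2 h3
    obtain ⟨u, r, hr, rfl⟩ : ∃ u r, r < 3 ∧ A = 3 * u + r := ⟨A / 3, A % 3, by omega, by omega⟩
    obtain ⟨v, s, hs, rfl⟩ : ∃ v s, s < 6 ∧ B = 6 * v + s := ⟨B / 6, B % 6, by omega, by omega⟩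
    interval_cases r <;> interval_cases s <;> omega
  by_cases hB : bad a b (3 * M)
  · rw [if_pos hB]
    rcases ho with ⟨ho, -⟩ | ⟨ho, hw⟩
    · have := arith a' b' 1 0 hodd (fun _ => rfl) (Or.inl rfl)
      rw [ho]; omega
    · have := arith a' b' 1 1 hodd (fun _ => rfl) (Or.inr ⟨rfl, hdiv hw⟩)
      rw [ho]; omega
  · rw [if_neg hB]
    have hnb : (a' % 3 = 0 ∧ b' % 3 = 0) → 0 = 1 := fun h => absurd (hbad h.1 h.2) hB
    rcases ho with ⟨ho, -⟩ | ⟨ho, hw⟩
    · have := arith a' b' 0 0 hodd hnb (Or.inl rfl)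
      rw [ho]; omega
    · have := arith a' b' 0 1 hodd hnb (Or.inr ⟨rfl, hdiv hw⟩)
      rw [ho]; omega

theorem Lf_comm (a b m : ℕ) : Lf a b m = Lf b a m := by
  unfold Lf; rw [add_comm b a]; ring

theorem Rf_comm (a b m : ℕ) : Rf a b m = Rf b a m := by
  unfold Rf; rw [add_comm b a]; ring

theorem bad_comm (a b m : ℕ) : bad a b m ↔ bad b a m := by
  unfold bad; tauto

theorem step (a b M : ℕ) (hab : 0 < a + b) (hM : M % 2 = 1) (h3 : 3 ≤ M) :
    Lf a b (3 * M) + (if bad a b M then 1 else 0) ≤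
      Rf a b (3 * M) + (if bad a b (3 * M) then 1 else 0) := by
  by_cases hB : bad a b M
  · rw [if_pos hB]
    rcases hB with ⟨h1, h2⟩ | ⟨h1, h2⟩
    · exact step_bad a b M hab hM h3 h1 h2
    · have := step_bad b a M (by omega) hM h3 h1 h2
      rw [Lf_comm, Rf_comm]
      simp only [bad_comm a b]
      exact this
  · rw [if_neg hB]
    have := floor_ineq a b (3 * M) hab (by omega) (by omega)
    split_ifs <;> omega

theorem sum3 (a b : ℕ) (hab : 0 < a + b) (N : ℕ) (hN : 1 ≤ N) :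
    ∑ i ∈ Ico 1 (N + 1), Lf a b (3 ^ i) ≤
      ∑ i ∈ Ico 1 (N + 1), Rf a b (3 ^ i) + (if bad a b (3 ^ N) then 1 else 0) := by
  induction N, hN using Nat.le_induction with
  | base =>
    simp only [Nat.Ico_succ_singleton, sum_singleton, pow_one]
    exact base3 a b hab
  | succ N hN ih =>
    rw [sum_Ico_succ_top (by omega) (fun i => Lf a b (3 ^ i)),
      sum_Ico_succ_top (by omega) (fun i => Rf a b (3 ^ i))]
    have hodd : 3 ^ N % 2 = 1 := by
      rw [Nat.pow_mod]; norm_num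
    have h3 : 3 ≤ 3 ^ N := by
      calc 3 = 3 ^ 1 := by norm_num
        _ ≤ 3 ^ N := Nat.pow_le_pow_right (by norm_num) hN
    have := step a b (3 ^ N) hab hodd h3
    rw [pow_succ, mul_comm (3 ^ N) 3]
    omega

theorem val_ineq (p a b : ℕ) (hp : p.Prime) (hp2 : p ≠ 2) (hab : 0 < a + b) :
    ∑ i ∈ Ico 1 (6 * (a + b) + 1), Lf a b (p ^ i) ≤
      ∑ i ∈ Ico 1 (6 * (a + b) + 1), Rf a b (p ^ i) := by
  have hodd : p % 2 = 1 := by
    rcases hp.eq_two_or_odd with h | h
    · exact absurd h hp2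
    · exact h
  rcases eq_or_ne p 3 with rfl | hp3
  · have h := sum3 a b hab (6 * (a + b)) (by omega)
    have hnb : ¬ bad a b (3 ^ (6 * (a + b))) := by
      have hlt : 6 * (a + b) < 3 ^ (6 * (a + b)) := Nat.lt_pow_self (by norm_num)
      unfold bad
      rintro (⟨-, h2⟩ | ⟨-, h2⟩)
      · rw [Nat.mod_eq_of_lt (by omega)] at h2; omega
      · rw [Nat.mod_eq_of_lt (by omega)] at h2; omega
    rw [if_neg hnb, add_zero] at h
    exact h
  · apply sum_le_sum
    intro i hi
    have hi1 := (mem_Ico.mp hi).1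
    apply floor_ineq a b _ hab
    · rw [Nat.pow_mod, hodd, one_pow]
      norm_num
    · have h2 := hp.two_le
      have h4 : p ≠ 4 := by rintro rfl; omega
      calc 5 ≤ p := by omega
        _ = p ^ 1 := (pow_one p).symm
        _ ≤ p ^ i := Nat.pow_le_pow_right (by omega) hi1

/-- the modulus `(2n-1) C(3n,n)` -/
def X (n : ℕ) : ℕ := (2 * n - 1) * (3 * n).choose n

theorem X_pos (n : ℕ) (hn : 0 < n) : 0 < X n := by
  unfold X
  exact Nat.mul_pos (by omega) (Nat.choose_pos (by omega))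

theorem val_term (p a b : ℕ) (hp : p.Prime) (hp2 : p ≠ 2) (hab : 0 < a + b) :
    padicValNat p (X (a + b)) ≤ padicValNat p (t a * t b) := by
  have : Fact p.Prime := ⟨hp⟩
  set B := 6 * (a + b) + 1 with hB
  have V : ∀ m ≤ 6 * (a + b), padicValNat p m.factorial = ∑ i ∈ Ico 1 B, m / p ^ i := by
    intro m hm
    apply padicValNat_factorial
    exact lt_of_le_of_lt (Nat.log_le_self _ _) (by omega)
  have hmain := val_ineq p a b hp hp2 hab
  unfold Lf Rf at hmain
  simp only [sum_add_distrib] at hmain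
  rw [← hB] at hmain
  rw [← V _ (by omega), ← V _ (by omega), ← V _ (by omega), ← V _ (by omega), ← V _ (by omega),
    ← V _ (by omega), ← V _ (by omega), ← V _ (by omega), ← V _ (by omega), ← V _ (by omega),
    ← V _ (by omega), ← V _ (by omega), ← V _ (by omega)] at hmain
  have f0 : ∀ m : ℕ, m.factorial ≠ 0 := Nat.factorial_ne_zero
  have ta := congrArg (padicValNat p) (t_fact a)
  have tb := congrArg (padicValNat p) (t_fact b)
  rw [padicValNat.mul (t_pos a).ne' (mul_ne_zero (mul_ne_zero (f0 _) (f0 _)) (f0 _)),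
    padicValNat.mul (mul_ne_zero (f0 _) (f0 _)) (f0 _), padicValNat.mul (f0 _) (f0 _)] at ta
  rw [padicValNat.mul (t_pos b).ne' (mul_ne_zero (mul_ne_zero (f0 _) (f0 _)) (f0 _)),
    padicValNat.mul (mul_ne_zero (f0 _) (f0 _)) (f0 _), padicValNat.mul (f0 _) (f0 _)] at tb
  have hc := Nat.choose_mul_factorial_mul_factorial (show a + b ≤ 3 * (a + b) by omega)
  have hcne : (3 * (a + b)).choose (a + b) ≠ 0 := (Nat.choose_pos (by omega)).ne'
  have hc2 := congrArg (padicValNat p) hc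
  rw [show 3 * (a + b) - (a + b) = 2 * (a + b) by omega,
    padicValNat.mul (mul_ne_zero hcne (f0 _)) (f0 _), padicValNat.mul hcne (f0 _)] at hc2
  have hf : (2 * (a + b) - 1).factorial = (2 * (a + b) - 1) * (2 * (a + b) - 2).factorial := by
    conv_lhs => rw [show 2 * (a + b) - 1 = (2 * (a + b) - 2) + 1 by omega]
    rw [Nat.factorial_succ, show 2 * (a + b) - 2 + 1 = 2 * (a + b) - 1 by omega]
  have hf2 := congrArg (padicValNat p) hf
  have h21 : 2 * (a + b) - 1 ≠ 0 := by omega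
  rw [padicValNat.mul h21 (f0 _)] at hf2
  unfold X
  rw [padicValNat.mul h21 hcne, padicValNat.mul (t_pos a).ne' (t_pos b).ne']
  omega

theorem val_S (p n : ℕ) (hp : p.Prime) (hp2 : p ≠ 2) (hn : 0 < n) :
    padicValNat p (X n) ≤ padicValNat p (S n) := by
  have : Fact p.Prime := ⟨hp⟩
  rw [← padicValNat_dvd_iff_le (S_pos n).ne']
  unfold S
  apply dvd_sum
  intro k hk
  have hk' : k ≤ n := by have := mem_range.mp hk; omega
  rw [padicValNat_dvd_iff_le (Nat.mul_pos (t_pos _) (t_pos _)).ne']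
  have := val_term p k (n - k) hp hp2 (by omega)
  rwa [show k + (n - k) = n by omega] at this

theorem val2_X (n : ℕ) (hn : 0 < n) : padicValNat 2 (X n) + s2 (3 * n) = 2 * s2 n := by
  have f0 : ∀ m : ℕ, m.factorial ≠ 0 := Nat.factorial_ne_zero
  have hc := Nat.choose_mul_factorial_mul_factorial (show n ≤ 3 * n by omega)
  have hcne : (3 * n).choose n ≠ 0 := (Nat.choose_pos (by omega)).ne'
  have hc2 := congrArg (padicValNat 2) hc
  rw [show 3 * n - n = 2 * n by omega,
    padicValNat.mul (mul_ne_zero hcne (f0 _)) (f0 _), padicValNat.mul hcne (f0 _)] at hc2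
  have e1 := val2_fact n
  have e2 := val2_fact (2 * n)
  have e3 := val2_fact (3 * n)
  rw [s2_two_mul] at e2
  unfold X
  rw [padicValNat.mul (by omega) hcne, padicValNat.eq_zero_of_not_dvd (by omega : ¬ 2 ∣ 2 * n - 1)]
  omega

theorem eight_mul_X_dvd (n : ℕ) (hn : 0 < n) : 8 * X n ∣ S n := by
  have hX := X_pos n hn
  have hS := S_pos n
  rw [← Nat.factorization_prime_le_iff_dvd (by positivity) hS.ne']
  intro p hp
  have : Fact p.Prime := ⟨hp⟩
  rw [Nat.factorization_def _ hp, Nat.factorization_def _ hp,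
    padicValNat.mul (by norm_num) hX.ne']
  rcases eq_or_ne p 2 with rfl | hp2
  · have e8 : padicValNat 2 8 = 3 := by
      rw [show (8 : ℕ) = 2 ^ 3 by norm_num, padicValNat.prime_pow]
    rw [e8, val2_S]
    have h1 := val2_X n hn
    have h2 := s2_pos n hn
    have h3 := s2_three n hn
    omega
  · have e8 : padicValNat p 8 = 0 := by
      apply padicValNat.eq_zero_of_not_dvd
      intro h
      have : p ∣ 2 := hp.dvd_of_dvd_pow (show p ∣ 2 ^ 3 by simpa using h)
      exact hp2 ((Nat.prime_dvd_prime_iff_eq hp Nat.prime_two).mp this)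
    rw [e8, zero_add]
    exact val_S p n hp hp2 hn

theorem odd_quot (n q : ℕ) (hn : 0 < n) (hq : S n = 8 * X n * q) :
    Odd q ↔ ∃ j, n = 2 ^ j := by
  have hX := X_pos n hn
  have hS := S_pos n
  have hq0 : q ≠ 0 := by rintro rfl; simp at hq; omega
  have h := congrArg (padicValNat 2) hq
  have e8 : padicValNat 2 8 = 3 := by
    rw [show (8 : ℕ) = 2 ^ 3 by norm_num, padicValNat.prime_pow]
  rw [padicValNat.mul (by positivity) hq0, padicValNat.mul (by norm_num) hX.ne', e8,
    val2_S] at h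
  have h1 := val2_X n hn
  have h2 := s2_pos n hn
  have h3 := s2_three n hn
  have hval : padicValNat 2 q + 3 = s2 n + s2 (3 * n) := by omega
  have hodd : Odd q ↔ padicValNat 2 q = 0 := by
    rw [padicValNat.eq_zero_iff]
    constructor
    · intro ho
      right; right
      rw [← even_iff_two_dvd, Nat.not_even_iff_odd]
      exact ho
    · rintro (h | h | h)
      · omega
      · exact absurd h hq0
      · rw [← Nat.not_even_iff_odd, even_iff_two_dvd]; exact h
  rw [hodd]
  constructor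
  · intro h0
    exact s2_eq_one n (by omega)
  · rintro ⟨j, hj⟩
    have e1 : s2 n = 1 := by rw [hj]; exact s2_pow j
    have e2 : s2 (3 * n) = 2 := by rw [hj]; exact s2_three_pow j
    omega

end Pool.Agent.V11308.SixThree
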