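import Pool.Agent.V11308.Blocks

/-!
A strong form of the Ljunggren–Jacobsthal congruence in `ℤ_[p]`.
-/

namespace Pool.Agent.V11308

open Finset

variable {p : ℕ} [hp : Fact p.Prime]

/-- `∏_{i < N, p ∤ i} (1 + x / i)` -/
noncomputable def F (p : ℕ) [Fact p.Prime] (x : ℤ_[p]) (N : ℕ) : ℤ_[p] :=
  ∏ i ∈ Finset.range N, (1 + x * t p i)

lemma choose_eq (m j : ℕ) :
    (((p * m + j).choose j : ℕ) : ℤ_[p]) =
      (((m + j / p).choose (j / p) : ℕ) : ℤ_[p]) * F p (p * m) (j + 1) := by
  have hp0 : 0 < p := hp.out.pos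
  induction j with
  | zero => simp [F, t_eq_zero]
  | succ j ih =>
    have hG := congrArg (Nat.cast : ℕ → ℤ_[p]) (Nat.add_one_mul_choose_eq (p * m + j) j)
    push_cast at hG
    have hF : F p (p * m) (j + 1 + 1) = F p (p * m) (j + 1) * (1 + p * m * t p (j + 1)) := by
      unfold F
      rw [Finset.prod_range_succ _ (j + 1)]
    rw [hF, ← add_assoc]
    by_cases hd : p ∣ j + 1
    · rw [t_eq_zero hd, mul_zero, add_zero, mul_one]
      obtain ⟨q, hq⟩ := hd
      have hq1 : 1 ≤ q := by
        rcases Nat.eq_zero_or_pos q with h0 | h0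
        · rw [h0] at hq; omega
        · exact h0
      have d1 : (j + 1) / p = q := by rw [hq]; exact Nat.mul_div_cancel_left _ hp0
      have d2 : j / p = q - 1 := by
        have : j = p * (q - 1) + (p - 1) := by
          have : p * q = p * (q - 1) + p := by
            conv_lhs => rw [show q = q - 1 + 1 by omega]
            ring
          omega
        rw [this, Nat.mul_add_div hp0, Nat.div_eq_of_lt (by omega), add_zero]
      rw [d2] at ih
      rw [d1]
      have hG2 := congrArg (Nat.cast : ℕ → ℤ_[p]) (Nat.add_one_mul_choose_eq (m + (q - 1)) (q - 1))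
      rw [show m + (q - 1) + 1 = m + q by omega, show q - 1 + 1 = q by omega] at hG2
      push_cast at hG2
      have hjc : (j : ℤ_[p]) + 1 = p * q := by
        have := congrArg (Nat.cast : ℕ → ℤ_[p]) hq
        push_cast at this
        exact this
      have hne : ((p : ℤ_[p]) * q) ≠ 0 := by
        apply mul_ne_zero
        · exact_mod_cast hp0.ne'
        · exact_mod_cast (by omega : q ≠ 0)
      apply mul_right_cancel₀ hne
      have hG3 : (((p * m + j + 1).choose (j + 1) : ℕ) : ℤ_[p]) * (p * q) =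
          (p * m + p * q) * ((p * m + j).choose j : ℕ) := by
        rw [← hjc]
        linear_combination -hG
      rw [hG3, ih]
      linear_combination p * F p (p * m) (j + 1) * hG2
    · have d1 : (j + 1) / p = j / p := by
        rw [Nat.succ_div, if_neg hd, add_zero]
      rw [d1]
      have ht := mul_t (p := p) hd
      push_cast at ht
      rw [← mul_assoc, ← ih]
      linear_combination (-t p (j + 1)) * hG + (((p * m + j).choose j : ℕ) -
        (((p * m + j + 1).choose (j + 1) : ℕ) : ℤ_[p])) * ht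

lemma F_mod (x : ℤ_[p]) (N : ℕ) : ∃ e : ℤ_[p], F p x N = 1 + x * e := by
  induction N with
  | zero => exact ⟨0, by simp [F]⟩
  | succ N ih =>
    obtain ⟨e, he⟩ := ih
    refine ⟨e + t p N + x * e * t p N, ?_⟩
    unfold F at he ⊢
    rw [Finset.prod_range_succ, he]
    ring

/-- second order expansion of a product -/
lemma prod_expand (y : ℤ_[p]) (u : ℕ → ℤ_[p]) (N : ℕ) :
    ∃ e : ℤ_[p], ∏ i ∈ Finset.range N, (1 + y * u i) =
      1 + y * ∑ i ∈ Finset.range N, u i + y ^ 2 * e := by
  induction N with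
  | zero => exact ⟨0, by simp⟩
  | succ N ih =>
    obtain ⟨e, he⟩ := ih
    rw [Finset.prod_range_succ, Finset.sum_range_succ, he]
    generalize ∑ i ∈ Finset.range N, u i = s
    exact ⟨e * (1 + y * u N) + s * u N, by ring⟩

lemma F_sq (x : ℤ_[p]) (k : ℕ) :
    F p x (p * k) ^ 2 = ∏ i ∈ Finset.range (p * k),
      (1 + x * (p * k + x) * (t p i * t p (p * k - i))) := by
  have hn : p ∣ p * k := dvd_mul_right _ _
  have h1 : F p x (p * k) = ∏ i ∈ Finset.range (p * k), (1 + x * t p (p * k - i)) := by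
    have h2 := Finset.prod_range_reflect (fun i => 1 + x * t p (i + 1)) (p * k)
    have h3 : ∏ j ∈ Finset.range (p * k), (1 + x * t p (p * k - 1 - j + 1)) =
        ∏ j ∈ Finset.range (p * k), (1 + x * t p (p * k - j)) := by
      apply Finset.prod_congr rfl
      intro j hj
      rw [Finset.mem_range] at hj
      rw [show p * k - 1 - j + 1 = p * k - j by omega]
    rw [← h3, h2]
    have h4 := Finset.prod_range_succ' (fun i => 1 + x * t p i) (p * k)
    rw [Finset.prod_range_succ] at h4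
    simp only [t_eq_zero hn, t_eq_zero (dvd_zero p), mul_zero, add_zero, mul_one] at h4
    unfold F
    exact h4
  rw [sq]
  conv_lhs => rw [h1]
  rw [← h1]
  conv_lhs =>
    arg 2
    rw [h1]
  unfold F
  rw [← Finset.prod_mul_distrib]
  apply Finset.prod_congr rfl
  intro i hi
  rw [Finset.mem_range] at hi
  by_cases hd : p ∣ i
  · have hd2 : p ∣ p * k - i := Nat.dvd_sub hn hd
    rw [t_eq_zero hd, t_eq_zero hd2]; ring
  · have hd2 : ¬ p ∣ p * k - i := by
      intro h3
      apply hd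
      have := Nat.dvd_sub hn h3
      rwa [Nat.sub_sub_self hi.le] at this
    have e1 := mul_t hd
    have e2 := mul_t hd2
    rw [Nat.cast_sub hi.le] at e2
    push_cast at e2
    generalize t p (p * k - i) = v at *
    generalize t p i = u at *
    linear_combination -x * u * e2 - x * v * e1

lemma t_refl (n j : ℕ) (hn : p ∣ n) (hj : j ≤ n) :
    ∃ e : ℤ_[p], t p j * t p (n - j) = - t p j ^ 2 + n * e := by
  by_cases h : p ∣ j
  · have h2 : p ∣ n - j := Nat.dvd_sub hn h
    exact ⟨0, by rw [t_eq_zero h, t_eq_zero h2]; ring⟩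
  · have h2 : ¬ p ∣ n - j := by
      intro h3
      apply h
      have := Nat.dvd_sub hn h3
      rwa [Nat.sub_sub_self hj] at this
    have e1 := mul_t h
    have e2 := mul_t h2
    rw [Nat.cast_sub hj] at e2
    refine ⟨t p j ^ 2 * t p (n - j), ?_⟩
    generalize t p (n - j) = T at *
    generalize t p j = u at *
    linear_combination (-u ^ 2) * e2 - u * T * e1

lemma jac (m k c : ℕ) (hm : p ^ c ∣ m) (hk : p ^ c ∣ k) (hp5 : 5 ≤ p) :
    (p : ℤ_[p]) ^ (3 + 3 * c) ∣ F p (p * m) (p * k) - 1 := by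
  obtain ⟨m', rfl⟩ := hm
  obtain ⟨k', rfl⟩ := hk
  have hsq := F_sq (p := p) (p * ((p ^ c * m' : ℕ) : ℤ_[p])) (p ^ c * k')
  set y : ℤ_[p] := p * ((p ^ c * m' : ℕ) : ℤ_[p]) *
    (p * ((p ^ c * k' : ℕ) : ℤ_[p]) + p * ((p ^ c * m' : ℕ) : ℤ_[p])) with hy
  have hy' : y = p ^ (2 + 2 * c) * (m' * (k' + m')) := by
    rw [hy]
    push_cast
    rw [pow_add, pow_mul' (p : ℤ_[p]) 2 c]
    ring
  obtain ⟨e, he⟩ := prod_expand (p := p) y
    (fun i => t p i * t p (p * (p ^ c * k') - i)) (p * (p ^ c * k'))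
  rw [he] at hsq
  have hdvd : (p : ℤ_[p]) ^ (c + 1) ∣
      ∑ i ∈ Finset.range (p * (p ^ c * k')), t p i * t p (p * (p ^ c * k') - i) := by
    have h1 : ∀ i ∈ Finset.range (p * (p ^ c * k')), ∃ g : ℤ_[p],
        t p i * t p (p * (p ^ c * k') - i) = - t p i ^ 2 + (p * (p ^ c * k') : ℕ) * g := by
      intro i hi
      rw [Finset.mem_range] at hi
      exact t_refl _ i (dvd_mul_right _ _) hi.le
    choose! g hg using h1
    rw [Finset.sum_congr rfl hg, Finset.sum_add_distrib, ← Finset.mul_sum, Finset.sum_neg_distrib]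
    apply dvd_add
    · rw [dvd_neg]
      obtain ⟨f, hf⟩ := S_mul (p := p) 2 (p ^ (c + 1)) k' (dvd_pow_self p (by omega))
      have h2 : p * (p ^ c * k') = p ^ (c + 1) * k' := by ring
      rw [h2]
      change _ ∣ S p 2 (p ^ (c + 1) * k')
      rw [hf]
      apply dvd_add
      · exact Dvd.dvd.mul_left (dvd_S_two (c + 1) (by omega) hp5) _
      · push_cast
        exact dvd_mul_right _ _
    · apply Dvd.dvd.mul_right
      exact ⟨k', by push_cast; ring⟩
  obtain ⟨s, hs⟩ := hdvd
  rw [hs] at hsq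
  obtain ⟨g, hg⟩ := F_mod (p := p) (p * ((p ^ c * m' : ℕ) : ℤ_[p])) (p * (p ^ c * k'))
  set f := F p (p * ((p ^ c * m' : ℕ) : ℤ_[p])) (p * (p ^ c * k')) with hf
  have h2 : (p : ℤ_[p]) ^ (3 + 3 * c) ∣ (f - 1) * (f + 1) := by
    have h3 : (f - 1) * (f + 1) = y * (p ^ (c + 1) * s) + y ^ 2 * e := by
      linear_combination hsq
    rw [h3, hy']
    apply dvd_add
    · refine ⟨m' * (k' + m') * s, ?_⟩
      rw [show 3 + 3 * c = (2 + 2 * c) + (c + 1) by ring, pow_add (p : ℤ_[p]) (2 + 2 * c) (c + 1)]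
      ring
    · rw [mul_pow, ← pow_mul]
      apply Dvd.dvd.mul_right
      apply Dvd.dvd.mul_right
      exact pow_dvd_pow _ (by omega)
  have h3 : IsUnit (f + 1) := by
    rw [PadicInt.isUnit_iff]
    have h4 : ‖(f + 1)‖ ≤ 1 := PadicInt.norm_le_one _
    rcases h4.lt_or_eq with h5 | h5
    · exfalso
      have h6 : PadicInt.toZMod (f + 1) = 0 := by
        rw [← RingHom.mem_ker, PadicInt.ker_toZMod, IsLocalRing.mem_maximalIdeal, mem_nonunits_iff,
          PadicInt.isUnit_iff]
        exact ne_of_lt h5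
      rw [hg] at h6
      simp only [map_add, map_mul, map_one, map_natCast, CharP.cast_eq_zero, zero_mul,
        add_zero] at h6
      have h7 : (((2 : ℕ)) : ZMod p) = 0 := by
        push_cast
        linear_combination h6
      rw [ZMod.natCast_eq_zero_iff] at h7
      have := Nat.le_of_dvd (by norm_num) h7
      omega
    · exact h5
  exact (h3.dvd_mul_right).1 h2


/-- Wolstenholme: `C(2p,p) ≡ 2 mod p^3`. -/
lemma wolstenholme (hp5 : 5 ≤ p) : (p : ℤ_[p]) ^ 3 ∣ (((2 * p).choose p : ℕ) : ℤ_[p]) - 2 := by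
  have h1 := choose_eq (p := p) 1 p
  rw [mul_one, Nat.div_self hp.out.pos, show p + p = 2 * p by ring] at h1
  have hF : F p (p * ((1 : ℕ) : ℤ_[p])) (p + 1) = F p (p * ((1 : ℕ) : ℤ_[p])) (p * 1) := by
    unfold F
    rw [mul_one p, Finset.prod_range_succ, t_eq_zero (dvd_refl p), mul_zero, add_zero, mul_one]
  rw [hF] at h1
  have h2 := jac (p := p) 1 1 0 (by simp) (by simp) hp5
  obtain ⟨e, he⟩ := h2
  rw [h1]
  refine ⟨2 * e, ?_⟩
  have h3 : (((1 + 1 : ℕ).choose 1 : ℕ) : ℤ_[p]) = 2 := by norm_num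
  rw [h3]
  linear_combination 2 * he

end Pool.Agent.V11308
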