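import Mathlib
import Pool.Agent.V11308.Leg3

/-!
Weighted sums of squares of `R_n = ∑ C(n+k,2k) C(2k,k)/(2k-1)` and
`W_n = ∑ C(n+k,2k) C(2k,k) 3/(2k-3)`.
-/

namespace Pool.Agent.V11308.RW

open Finset Leg

/-- `F σ m = ∑_k C(m+k,2k) σ_k` -/
def F (σ : ℕ → ℚ) (m : ℕ) : ℚ := ∑ k ∈ range (m + 1), ((m + k).choose (2 * k) : ℚ) * σ k

lemma F_ext (σ : ℕ → ℚ) (m M : ℕ) (h : m + 1 ≤ M) :
    F σ m = ∑ k ∈ range M, ((m + k).choose (2 * k) : ℚ) * σ k := by
  unfold F
  apply sum_subset (range_subset_range.mpr h)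
  intro k _ hk
  have hk' : m + 1 ≤ k := by simpa using hk
  rw [Nat.choose_eq_zero_of_lt (by omega)]
  simp

lemma ch_down (N K : ℕ) (h : K ≤ N + 1) : (N.choose K : ℚ) * ((N : ℚ) + 1) =
    ((N + 1).choose K : ℚ) * ((N : ℚ) + 1 - K) := by
  have h1 := Nat.choose_mul_succ_eq N K
  have h2 := congrArg (Nat.cast : ℕ → ℚ) h1
  rw [Nat.cast_mul, Nat.cast_mul, Nat.cast_sub h] at h2
  push_cast at h2
  exact h2

lemma rec_gen (σ : ℕ → ℚ) (c : ℚ)
    (hσ : ∀ k : ℕ, ((k : ℚ) + 1) * (2 * k + 2 - c) * σ (k + 1) = 2 * (2 * k + 1) * (2 * k - c) * σ k)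
    (n : ℕ) (α β γ δ κ : ℚ)
    (hpoly : ∀ k : ℚ, α * ((n + k + 3) * (n + k + 2) * (n + k + 1)) -
      β * ((n + k + 2) * (n + k + 1) * (n + 3 - k)) + γ * ((n + k + 1) * (n + 3 - k) * (n + 2 - k)) -
      δ * ((n + 3 - k) * (n + 2 - k) * (n + 1 - k)) =
      -4 * κ * (2 * k - c) * ((n + k + 1) * (n + 3 - k) - k ^ 2)) :
    α * F σ (n + 3) - β * F σ (n + 2) + γ * F σ (n + 1) - δ * F σ n = 0 := by
  set G : ℕ → ℚ := fun k => -4 * κ * (k : ℚ) ^ 2 * (2 * k - c) /
    ((n + k + 1) * (n + k + 2) * (n + k + 3)) * (((n + 3 + k).choose (2 * k) : ℚ) * σ k) with hG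
  have key : ∀ k ∈ range (n + 4), α * (((n + 3 + k).choose (2 * k) : ℚ) * σ k) -
      β * (((n + 2 + k).choose (2 * k) : ℚ) * σ k) + γ * (((n + 1 + k).choose (2 * k) : ℚ) * σ k) -
      δ * (((n + k).choose (2 * k) : ℚ) * σ k) = G (k + 1) - G k := by
    intro k hk
    have hk' : k ≤ n + 3 := by have := mem_range.mp hk; omega
    have p1 : ((n : ℚ) + k + 1) ≠ 0 := by positivity
    have p2 : ((n : ℚ) + k + 2) ≠ 0 := by positivity
    have p3 : ((n : ℚ) + k + 3) ≠ 0 := by positivity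
    have p4 : ((n : ℚ) + k + 4) ≠ 0 := by positivity
    have q1 : ((k : ℚ) + 1) ≠ 0 := by positivity
    have q2 : (2 * (k : ℚ) + 1) ≠ 0 := by positivity
    -- A1
    have a1 : ((n + 2 + k).choose (2 * k) : ℚ) =
        ((n + 3 + k).choose (2 * k) : ℚ) * (n + 3 - k) / (n + k + 3) := by
      rw [eq_div_iff p3]
      have := ch_down (n + 2 + k) (2 * k) (by omega)
      rw [show n + 2 + k + 1 = n + 3 + k by ring] at this
      push_cast at this
      linear_combination this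
    have a2 : ((n + 1 + k).choose (2 * k) : ℚ) =
        ((n + 2 + k).choose (2 * k) : ℚ) * (n + 2 - k) / (n + k + 2) := by
      rw [eq_div_iff p2]
      rcases Nat.lt_or_ge (n + 1 + k + 1) (2 * k) with h | h
      · rw [Nat.choose_eq_zero_of_lt (show n + 1 + k < 2 * k by omega),
          Nat.choose_eq_zero_of_lt (show n + 2 + k < 2 * k by omega)]; simp
      · have := ch_down (n + 1 + k) (2 * k) h
        rw [show n + 1 + k + 1 = n + 2 + k by ring] at this
        push_cast at this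
        linear_combination this
    have a3 : ((n + k).choose (2 * k) : ℚ) =
        ((n + 1 + k).choose (2 * k) : ℚ) * (n + 1 - k) / (n + k + 1) := by
      rw [eq_div_iff p1]
      rcases Nat.lt_or_ge (n + k + 1) (2 * k) with h | h
      · rw [Nat.choose_eq_zero_of_lt (show n + k < 2 * k by omega),
          Nat.choose_eq_zero_of_lt (show n + 1 + k < 2 * k by omega)]; simp
      · have := ch_down (n + k) (2 * k) h
        rw [show n + k + 1 = n + 1 + k by ring] at this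
        push_cast at this
        linear_combination this
    -- next
    have b1 : ((n + 3 + (k + 1)).choose (2 * (k + 1)) : ℚ) * ((2 * k + 2) * (2 * k + 1)) =
        ((n + 3 + k).choose (2 * k) : ℚ) * ((n + k + 4) * (n + 3 - k)) := by
      have e1 := congrArg (Nat.cast : ℕ → ℚ) (Nat.add_one_mul_choose_eq (n + 3 + k) (2 * k + 1))
      have e2 := congrArg (Nat.cast : ℕ → ℚ) (Nat.choose_succ_right_eq (n + 3 + k) (2 * k))
      rw [Nat.cast_mul, Nat.cast_mul, Nat.cast_sub (by omega)] at e2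
      rw [show n + 3 + (k + 1) = n + 3 + k + 1 by ring, show 2 * (k + 1) = 2 * k + 1 + 1 by ring]
      push_cast at e1 e2 ⊢
      linear_combination (-(2 * (k : ℚ) + 1)) * e1 + ((n : ℚ) + 3 + k + 1) * e2
    have hG1 : G (k + 1) = -4 * κ * (n + 3 - k) * (2 * k - c) /
        ((n + k + 2) * (n + k + 3)) * (((n + 3 + k).choose (2 * k) : ℚ) * σ k) := by
      have hs := hσ k
      have b1' : ((n + 3 + (k + 1)).choose (2 * (k + 1)) : ℚ) =
          ((n + 3 + k).choose (2 * k) : ℚ) * ((n + k + 4) * (n + 3 - k)) /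
            ((2 * k + 2) * (2 * k + 1)) := by
        rw [eq_div_iff (by positivity), b1]
      rw [hG]
      simp only
      rw [b1']
      push_cast
      have hs' : (2 * ((k : ℚ) + 1) - c) * σ (k + 1) = 2 * (2 * k + 1) * (2 * k - c) * σ k / (k + 1) := by
        rw [eq_div_iff q1]; linear_combination hs
      have : -4 * κ * ((k : ℚ) + 1) ^ 2 * (2 * (k + 1) - c) / ((n + (k + 1) + 1) * (n + (k + 1) + 2) *
          (n + (k + 1) + 3)) * (((n + 3 + k).choose (2 * k) : ℚ) * ((n + k + 4) * (n + 3 - k)) /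
            ((2 * k + 2) * (2 * k + 1)) * σ (k + 1)) =
          -4 * κ * ((k : ℚ) + 1) ^ 2 / ((n + (k + 1) + 1) * (n + (k + 1) + 2) *
          (n + (k + 1) + 3)) * (((n + 3 + k).choose (2 * k) : ℚ) * ((n + k + 4) * (n + 3 - k)) /
            ((2 * k + 2) * (2 * k + 1))) * ((2 * ((k : ℚ) + 1) - c) * σ (k + 1)) := by ring
      rw [this, hs']
      have r1 : ((n : ℚ) + (k + 1) + 1) ≠ 0 := by positivity
      have r2 : ((n : ℚ) + (k + 1) + 2) ≠ 0 := by positivity
      have r3 : ((n : ℚ) + (k + 1) + 3) ≠ 0 := by positivity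
      have r4 : (2 * (k : ℚ) + 2) ≠ 0 := by positivity
      have r5 : ((n : ℚ) + (k + 1) + 1) = n + k + 2 := by ring
      have r6 : ((n : ℚ) + (k + 1) + 2) = n + k + 3 := by ring
      have r7 : ((n : ℚ) + (k + 1) + 3) = n + k + 4 := by ring
      rw [r5, r6, r7]
      field_simp
    rw [hG1, a3, a2, a1, hG]
    simp only
    have hp := hpoly k
    field_simp
    linear_combination ((n + 3 + k).choose (2 * k) : ℚ) * σ k * hp
  have h0 : G 0 = 0 := by rw [hG]; simp
  have h1 : G (n + 4) = 0 := by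
    rw [hG]
    simp only
    rw [Nat.choose_eq_zero_of_lt (by omega)]
    simp
  have tel : ∑ k ∈ range (n + 4), (G (k + 1) - G k) = 0 := by
    rw [sum_range_sub, h0, h1, sub_zero]
  rw [F_ext σ (n + 3) (n + 4) (by omega), F_ext σ (n + 2) (n + 4) (by omega),
    F_ext σ (n + 1) (n + 4) (by omega), F_ext σ n (n + 4) (by omega), ← tel,
    ← sum_congr rfl key]
  simp only [sum_add_distrib, sum_sub_distrib, mul_sum]

/-! ### The 2-adic part -/

lemma choose_pow_sum {R : Type*} [CommRing R] (k l : ℕ) (hl : l ≤ k) (y : R) :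
    ∑ i ∈ range (k + 1), ((k.choose i : R) * (i.choose l : R)) * y ^ i =
    (k.choose l : R) * (y ^ l * (y + 1) ^ (k - l)) := by
  obtain ⟨a, rfl⟩ := Nat.exists_eq_add_of_le hl
  rw [show l + a + 1 = l + (a + 1) by ring, sum_range_add, sum_eq_zero (s := range l), zero_add,
    show l + a - l = a by omega, add_pow, mul_sum, mul_sum]
  · refine sum_congr rfl (fun i hi => ?_)
    have h1 := Nat.choose_mul (n := l + a) (k := l + i) (s := l) (by omega)
    rw [show l + a - l = a by omega, show l + i - l = i by omega] at h1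
    have h1' : ((l + a).choose (l + i) : R) * ((l + i).choose l : R) =
      ((l + a).choose l : R) * (a.choose i : R) := by exact_mod_cast congrArg (Nat.cast : ℕ → R) h1
    rw [h1', pow_add, one_pow]
    ring
  · intro i hi
    rw [Nat.choose_eq_zero_of_lt (mem_range.mp hi)]
    simp

open Polynomial in
lemma coeff_dvd (m N k : ℕ) : (2 : ℤ) ^ (N - k) ∣
    (((X + 1 : ℤ[X]) ^ m * (X + C 2) ^ N)).coeff k := by
  rw [coeff_mul]
  apply dvd_sum
  rintro ⟨e, f⟩ hef
  have hef' : e + f = k := by simpa using hef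
  apply Dvd.dvd.mul_left
  rw [coeff_X_add_C_pow]
  apply Dvd.dvd.mul_right
  exact pow_dvd_pow 2 (by omega)

open Polynomial in
lemma X_dvd (k l l' : ℕ) (hl : l ≤ k) (hl' : l' ≤ k) :
    (2 : ℤ) ^ (k - (l + l')) ∣ ∑ i ∈ range (k + 1), ∑ j ∈ range (k + 1),
      cf i j k * ((i.choose l : ℤ) * (j.choose l' : ℤ)) := by
  have h : ∑ i ∈ range (k + 1), ∑ j ∈ range (k + 1),
      cf i j k * ((i.choose l : ℤ) * (j.choose l' : ℤ)) =
      (k.choose l : ℤ) * (k.choose l' : ℤ) *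
        (((X + 1 : ℤ[X]) ^ (l + l') * (X + C 2) ^ ((k - l) + (k - l')))).coeff k := by
    have e1 := choose_pow_sum k l hl (X + 1 : ℤ[X])
    have e2 := choose_pow_sum k l' hl' (X + 1 : ℤ[X])
    have h11 : (X + 1 + 1 : ℤ[X]) = X + C 2 := by
      have : (C 2 : ℤ[X]) = 2 := rfl
      rw [this]; ring
    rw [h11] at e1 e2
    have e3 := congrArg₂ (fun a b : ℤ[X] => (a * b).coeff k) e1 e2
    rw [sum_mul_sum, finsetSum_coeff] at e3
    simp only [finsetSum_coeff] at e3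
    have e4 : ∀ i ∈ range (k + 1), ∀ j ∈ range (k + 1),
        (((k.choose i : ℤ[X]) * (i.choose l : ℤ[X]) * (X + 1) ^ i) *
          ((k.choose j : ℤ[X]) * (j.choose l' : ℤ[X]) * (X + 1) ^ j)).coeff k =
        cf i j k * ((i.choose l : ℤ) * (j.choose l' : ℤ)) := by
      intro i _ j _
      have : (((k.choose i : ℤ[X]) * (i.choose l : ℤ[X]) * (X + 1) ^ i) *
          ((k.choose j : ℤ[X]) * (j.choose l' : ℤ[X]) * (X + 1) ^ j)) =
          C ((k.choose i : ℤ) * (i.choose l : ℤ) * ((k.choose j : ℤ) * (j.choose l' : ℤ))) *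
            (X + 1) ^ (i + j) := by
        simp only [C_mul, map_natCast, pow_add]
        ring
      rw [this, coeff_C_mul, coeff_X_add_one_pow]
      unfold cf
      ring
    rw [sum_congr rfl (fun i hi => sum_congr rfl (fun j hj => e4 i hi j hj))] at e3
    rw [e3]
    have : ((k.choose l : ℤ[X]) * ((X + 1) ^ l * (X + C 2) ^ (k - l)) *
        ((k.choose l' : ℤ[X]) * ((X + 1) ^ l' * (X + C 2) ^ (k - l')))) =
        C ((k.choose l : ℤ) * (k.choose l' : ℤ)) * ((X + 1) ^ (l + l') *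
          (X + C 2) ^ ((k - l) + (k - l'))) := by
      simp only [C_mul, map_natCast, pow_add]
      ring
    rw [this, coeff_C_mul]
  rw [h]
  apply Dvd.dvd.mul_left
  refine dvd_trans ?_ (coeff_dvd _ _ _)
  exact pow_dvd_pow 2 (by omega)

section ring
variable {R : Type*} [CommRing R]

/-- the coefficients of the square -/
def rho (r : ℕ → R) (k : ℕ) : R := ∑ i ∈ range (k + 1), ∑ j ∈ range (k + 1),
  (cf i j k : R) * (r i * r j)

lemma rho_dvd (r : ℕ → R) (d : ℕ → R)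
    (hr : ∀ k i, i ≤ k → r i = ∑ l ∈ range (k + 1), (i.choose l : R) * d l)
    (hd : ∀ l, (2 : R) ^ l ∣ d l) (k : ℕ) : (2 : R) ^ k ∣ rho r k := by
  have h : rho r k = ∑ l ∈ range (k + 1), ∑ l' ∈ range (k + 1), (d l * d l') *
      ((∑ i ∈ range (k + 1), ∑ j ∈ range (k + 1),
      cf i j k * ((i.choose l : ℤ) * (j.choose l' : ℤ)) : ℤ) : R) := by
    unfold rho
    have e1 : ∀ i ∈ range (k + 1), ∀ j ∈ range (k + 1), (cf i j k : R) * (r i * r j) =
        ∑ l ∈ range (k + 1), ∑ l' ∈ range (k + 1), (d l * d l') *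
          ((cf i j k : R) * ((i.choose l : R) * (j.choose l' : R))) := by
      intro i hi j hj
      rw [hr k i (by have := mem_range.mp hi; omega), hr k j (by have := mem_range.mp hj; omega),
        sum_mul_sum, mul_sum]
      refine sum_congr rfl (fun l _ => ?_)
      rw [mul_sum]
      exact sum_congr rfl (fun l' _ => by ring)
    rw [sum_congr rfl (fun i hi => sum_congr rfl (fun j hj => e1 i hi j hj))]
    have e2 : ∀ i ∈ range (k + 1), ∑ j ∈ range (k + 1), ∑ l ∈ range (k + 1),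
        ∑ l' ∈ range (k + 1), (d l * d l') *
          ((cf i j k : R) * ((i.choose l : R) * (j.choose l' : R))) =
        ∑ l ∈ range (k + 1), ∑ l' ∈ range (k + 1), ∑ j ∈ range (k + 1), (d l * d l') *
          ((cf i j k : R) * ((i.choose l : R) * (j.choose l' : R))) := by
      intro i _
      rw [sum_comm]
      exact sum_congr rfl (fun l _ => sum_comm)
    rw [sum_congr rfl e2, sum_comm]
    refine sum_congr rfl (fun l _ => ?_)
    rw [sum_comm]
    refine sum_congr rfl (fun l' _ => ?_)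
    push_cast
    rw [mul_sum]
    refine sum_congr rfl (fun i _ => ?_)
    rw [mul_sum]
  rw [h]
  apply dvd_sum
  intro l hl
  apply dvd_sum
  intro l' hl'
  have hx := X_dvd k l l' (by have := mem_range.mp hl; omega) (by have := mem_range.mp hl'; omega)
  have hx' : (2 : R) ^ (k - (l + l')) ∣ ((∑ i ∈ range (k + 1), ∑ j ∈ range (k + 1),
      cf i j k * ((i.choose l : ℤ) * (j.choose l' : ℤ)) : ℤ) : R) := by
    obtain ⟨w, hw⟩ := hx
    exact ⟨(w : R), by rw [hw]; push_cast; ring⟩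
  have h3 := mul_dvd_mul (mul_dvd_mul (hd l) (hd l')) hx'
  refine dvd_trans ?_ h3
  rw [← pow_add, ← pow_add]
  exact pow_dvd_pow 2 (by omega)

/-- iterated differences of `1/(2i-c)` -/
lemma diff_formula (c : R) (e : ℕ → R) (he : ∀ i : ℕ, (2 * (i : R) - c) * e i = 1) (l i : ℕ) :
    ((fwdDiff (1 : ℕ))^[l] e) i =
      (-2) ^ l * (l.factorial : R) * ∏ t ∈ range (l + 1), e (i + t) := by
  induction l generalizing i with
  | zero => simp
  | succ l ih =>
    rw [Function.iterate_succ_apply', fwdDiff, ih, ih]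
    rw [prod_range_succ (fun t => e (i + 1 + t)) l, prod_range_succ (fun t => e (i + t)) (l + 1),
      prod_range_succ' (fun t => e (i + t)) l]
    have e1 : ∏ t ∈ range l, e (i + 1 + t) = ∏ t ∈ range l, e (i + (t + 1)) :=
      prod_congr rfl (fun t _ => by rw [show i + 1 + t = i + (t + 1) by ring])
    rw [e1, show i + 1 + l = i + (l + 1) by ring, add_zero]
    generalize ∏ t ∈ range l, e (i + (t + 1)) = Q
    have h1 := he i
    have h2 := he (i + (l + 1))
    push_cast at h2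
    have h3 : e (i + (l + 1)) - e i = -2 * ((l : R) + 1) * (e i * e (i + (l + 1))) := by
      linear_combination (-e (i + (l + 1))) * h1 + e i * h2
    rw [pow_succ, Nat.factorial_succ]
    push_cast
    linear_combination (-2) ^ l * (l.factorial : R) * Q * h3

lemma rho_dvd_two (c u : R) (e : ℕ → R) (he : ∀ i : ℕ, (2 * (i : R) - c) * e i = 1) (k : ℕ) :
    (2 : R) ^ k ∣ rho (fun i => u * e i) k := by
  apply rho_dvd _ (fun l => u * ((fwdDiff (1 : ℕ))^[l] e) 0)
  · intro k i hi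
    have h := shift_eq_sum_fwdDiff_iter (1 : ℕ) e i 0
    simp only [smul_eq_mul, mul_one, zero_add, nsmul_eq_mul] at h
    rw [h]
    have : ∑ l ∈ range (i + 1), (i.choose l : R) * ((fwdDiff (1 : ℕ))^[l] e) 0 =
        ∑ l ∈ range (k + 1), (i.choose l : R) * ((fwdDiff (1 : ℕ))^[l] e) 0 := by
      apply sum_subset (range_subset_range.mpr (by omega))
      intro l _ hl
      rw [Nat.choose_eq_zero_of_lt (show i < l by simpa using hl)]
      simp
    rw [this, mul_sum]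
    exact sum_congr rfl (fun l _ => by ring)
  · intro l
    rw [diff_formula c e he]
    refine ⟨u * ((-1) ^ l * (l.factorial : R) * ∏ t ∈ range (l + 1), e (0 + t)), ?_⟩
    have : (-2 : R) ^ l = (-1) ^ l * 2 ^ l := by rw [← mul_pow]; norm_num
    rw [this]; ring

lemma sum_sq (r : ℕ → R) (n : ℕ) :
    ∑ m ∈ range n, (2 * (m : R) + 1) * (∑ i ∈ range (m + 1), (P i m : R) * r i) ^ 2 =
    n * ∑ k ∈ range n, ((n.choose (k + 1) : R) * ((n + k).choose k : R)) * rho r k := by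
  rw [← sum_swap]
  refine sum_congr rfl (fun m _ => ?_)
  rw [sq, conv]
  rfl

lemma coef_eq (n k : ℕ) (hk : k < n) :
    n.choose (k + 1) * (n + k).choose k = (n + k).choose (2 * k + 1) * (2 * k + 1).choose k := by
  have h := Nat.choose_mul (n := n + k) (k := 2 * k + 1) (s := k) (by omega)
  rw [show n + k - k = n by omega, show 2 * k + 1 - k = k + 1 by omega] at h
  rw [h]; ring

end ring

/-! ### The closed forms -/

/-- `S_n = ∑_{k<n} (2k+1) f_k^2` -/
def SS (f : ℕ → ℚ) (n : ℕ) : ℚ := ∑ k ∈ range n, (2 * (k : ℚ) + 1) * f k ^ 2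

/-- `s_k = C(2k,k)/(2k-1)` -/
def sR : ℕ → ℤ
  | 0 => -1
  | k + 1 => 2 * (catalan k : ℤ)

/-- `w_k = 3 C(2k,k)/(2k-3)` -/
def sW : ℕ → ℤ
  | 0 => -1
  | 1 => -6
  | k + 2 => 2 * (catalan (k + 1) : ℤ) + 16 * (catalan k : ℤ)

lemma cat_eq (k : ℕ) : ((k : ℤ) + 1) * (catalan k : ℤ) = ((2 * k).choose k : ℤ) := by
  have := succ_mul_catalan_eq_centralBinom k
  rw [Nat.centralBinom_eq_two_mul_choose] at this
  exact_mod_cast this

lemma cb_succ (k : ℕ) : ((k : ℤ) + 1) * ((2 * (k + 1)).choose (k + 1) : ℤ) =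
    2 * (2 * k + 1) * ((2 * k).choose k : ℤ) := by
  have := Nat.succ_mul_centralBinom_succ k
  rw [Nat.centralBinom_eq_two_mul_choose, Nat.centralBinom_eq_two_mul_choose] at this
  exact_mod_cast this

lemma sR_eq (k : ℕ) : (2 * (k : ℤ) - 1) * sR k = ((2 * k).choose k : ℤ) := by
  cases k with
  | zero => simp [sR]
  | succ k =>
    have h1 := cat_eq k
    have h2 := cb_succ k
    have h0 : ((k : ℤ) + 1) ≠ 0 := by positivity
    apply mul_left_cancel₀ h0
    unfold sR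
    push_cast
    linear_combination 2 * (2 * (k : ℤ) + 1) * h1 - h2

lemma sW_eq (k : ℕ) : (2 * (k : ℤ) - 3) * sW k = 3 * ((2 * k).choose k : ℤ) := by
  match k with
  | 0 => simp [sW]
  | 1 => simp [sW]
  | k + 2 =>
    have h1 := cat_eq k
    have h2 := cb_succ k
    have h3 := cat_eq (k + 1)
    have h4 := cb_succ (k + 1)
    have h0 : ((k : ℤ) + 1) ≠ 0 := by positivity
    have h0' : ((k : ℤ) + 2) ≠ 0 := by positivity
    apply mul_left_cancel₀ h0
    apply mul_left_cancel₀ h0'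
    unfold sW
    push_cast at h3 h4 ⊢
    rw [show k + 1 + 1 = k + 2 by ring] at h4
    linear_combination 2 * ((k : ℤ) + 1) * (2 * k + 1) * h3 - 3 * ((k : ℤ) + 1) * h4 +
      16 * ((k : ℤ) + 2) * (2 * k + 1) * h1 - (6 * (2 * ((k : ℤ) + 1) + 1) - 2 * (2 * k + 1)) * h2

/-- integer versions of `R_n` and `W_n` -/
def RI (n : ℕ) : ℤ := ∑ k ∈ range (n + 1), ((n + k).choose (2 * k) : ℤ) * sR k

def WI (n : ℕ) : ℤ := ∑ k ∈ range (n + 1), ((n + k).choose (2 * k) : ℤ) * sW k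

lemma RI_cast (n : ℕ) : (RI n : ℚ) = F (fun k => (sR k : ℚ)) n := by
  unfold RI F; push_cast; rfl

lemma WI_cast (n : ℕ) : (WI n : ℚ) = F (fun k => (sW k : ℚ)) n := by
  unfold WI F; push_cast; rfl

lemma cbq (k : ℕ) : ((k : ℚ) + 1) * ((2 * (k + 1)).choose (k + 1) : ℚ) =
    2 * (2 * k + 1) * ((2 * k).choose k : ℚ) := by exact_mod_cast cb_succ k

lemma R_rec (n : ℕ) : ((n : ℚ) + 3) * RI (n + 3) = (7 * n + 13) * RI (n + 2) -
    (7 * n + 15) * RI (n + 1) + (n + 1) * RI n := by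
  have h := rec_gen (fun k => (sR k : ℚ)) 1 (fun k => by
    have h1 : (2 * (k : ℚ) - 1) * sR k = ((2 * k).choose k : ℚ) := by exact_mod_cast sR_eq k
    have h2 : (2 * ((k : ℚ) + 1) - 1) * sR (k + 1) = ((2 * (k + 1)).choose (k + 1) : ℚ) := by
      exact_mod_cast sR_eq (k + 1)
    have h3 := cbq k
    linear_combination ((k : ℚ) + 1) * h2 + h3 - 2 * (2 * (k : ℚ) + 1) * h1) n
    ((n : ℚ) + 3) (7 * n + 13) (7 * n + 15) (n + 1) (n + 2) (fun k => by ring)
  rw [← RI_cast, ← RI_cast, ← RI_cast, ← RI_cast] at h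
  linear_combination h

lemma W_rec (n : ℕ) : ((n : ℚ) + 3) * (2 * n + 3) ^ 2 * WI (n + 3) =
    (28 * ((n : ℚ) + 2) ^ 3 - 24 * (n + 2) ^ 2 - 5 * (n + 2) + 7) * WI (n + 2) -
    (28 * ((n : ℚ) + 2) ^ 3 + 24 * (n + 2) ^ 2 - 5 * (n + 2) - 7) * WI (n + 1) +
    (n + 1) * (2 * n + 5) ^ 2 * WI n := by
  have h := rec_gen (fun k => (sW k : ℚ)) 3 (fun k => by
    have h1 : (2 * (k : ℚ) - 3) * sW k = 3 * ((2 * k).choose k : ℚ) := by exact_mod_cast sW_eq k
    have h2 : (2 * ((k : ℚ) + 1) - 3) * sW (k + 1) = 3 * ((2 * (k + 1)).choose (k + 1) : ℚ) := by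
      exact_mod_cast sW_eq (k + 1)
    have h3 := cbq k
    linear_combination ((k : ℚ) + 1) * h2 + 3 * h3 - 2 * (2 * (k : ℚ) + 1) * h1) n
    (((n : ℚ) + 3) * (2 * n + 3) ^ 2)
    (28 * ((n : ℚ) + 2) ^ 3 - 24 * (n + 2) ^ 2 - 5 * (n + 2) + 7)
    (28 * ((n : ℚ) + 2) ^ 3 + 24 * (n + 2) ^ 2 - 5 * (n + 2) - 7)
    ((n + 1) * (2 * n + 5) ^ 2)
    (((n : ℚ) + 2) * (4 * (n + 2) ^ 2 - 1)) (fun k => by ring)
  rw [← WI_cast, ← WI_cast, ← WI_cast, ← WI_cast] at h
  linear_combination h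

lemma R_closed (m : ℕ) : 8 * SS (fun k => (RI k : ℚ)) (m + 2) =
    ((m : ℚ) + 2) * ((7 * m + 15) * (RI (m + 1) : ℚ) ^ 2 - (m + 1) *
      ((RI (m + 2) : ℚ) * RI (m + 1) + (RI (m + 2) : ℚ) * RI m + (RI (m + 1) : ℚ) * RI m)) := by
  induction m with
  | zero =>
    have h0 : RI 0 = -1 := by simp [RI, sR]
    have h1 : RI 1 = 1 := by simp [RI, sR, sum_range_succ]
    have h2 : RI 2 = 7 := by simp [RI, sR, sum_range_succ, Nat.choose]
    unfold SS
    simp only [sum_range_succ, range_zero, sum_empty, zero_add]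
    rw [h0, h1, h2]
    norm_num
  | succ m ih =>
    have hr := R_rec m
    unfold SS at ih ⊢
    rw [show m + 1 + 2 = (m + 2) + 1 by ring, sum_range_succ, mul_add, ih]
    rw [show m + 2 + 1 = m + 3 by ring, show m + 1 + 1 = m + 2 by ring]
    push_cast
    linear_combination ((m : ℚ) + 2) * ((RI (m + 2) : ℚ) + RI (m + 1)) * hr

/-- the quadratic form in the closed form for `W` -/
def QW (n a b c : ℚ) : ℚ := 2 * n * (n - 1) ^ 4 * a * a +
  (7 - 35 * n + 68 * n ^ 2 - 68 * n ^ 3 + 36 * n ^ 4 - 8 * n ^ 5) * a * b +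
  (7 - 21 * n - 12 * n ^ 2 + 66 * n ^ 3 - 8 * n ^ 4 - 40 * n ^ 5) * b * b +
  (-1 + 9 * n - 36 * n ^ 2 + 68 * n ^ 3 - 60 * n ^ 4 + 20 * n ^ 5) * a * c +
  (-1 + n + 4 * n ^ 2 - 8 * n ^ 3 + 12 * n ^ 4 - 8 * n ^ 5) * b * c +
  2 * n ^ 3 * (n - 1) ^ 2 * c * c

lemma W_closed (m : ℕ) : 8 * (2 * (m : ℚ) + 3) ^ 4 * SS (fun k => (WI k : ℚ)) (m + 2) =
    -((m : ℚ) + 2) * QW (m + 2) (WI (m + 2)) (WI (m + 1)) (WI m) := by
  induction m with
  | zero =>
    have h0 : WI 0 = -1 := by simp [WI, sW]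
    have h1 : WI 1 = -7 := by simp [WI, sW, sum_range_succ]
    have h2 : WI 2 = -1 := by simp [WI, sW, sum_range_succ, Nat.choose]
    unfold SS QW
    simp only [sum_range_succ, range_zero, sum_empty, zero_add]
    rw [h0, h1, h2]
    norm_num
  | succ m ih =>
    have hr := W_rec m
    unfold SS at ih ⊢
    rw [show m + 1 + 2 = (m + 2) + 1 by ring, sum_range_succ]
    rw [show m + 2 + 1 = m + 3 by ring, show m + 1 + 1 = m + 2 by ring]
    have d1 : ((m : ℚ) + 3) * (2 * m + 3) ^ 2 ≠ 0 := by positivity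
    have e1 : (WI (m + 3) : ℚ) = ((28 * ((m : ℚ) + 2) ^ 3 - 24 * (m + 2) ^ 2 - 5 * (m + 2) + 7) * WI (m + 2) -
      (28 * ((m : ℚ) + 2) ^ 3 + 24 * (m + 2) ^ 2 - 5 * (m + 2) - 7) * WI (m + 1) +
      (m + 1) * (2 * m + 5) ^ 2 * WI m) / (((m : ℚ) + 3) * (2 * m + 3) ^ 2) := by
      rw [eq_div_iff d1, ← hr]; ring
    have d2 : 8 * (2 * (m : ℚ) + 3) ^ 4 ≠ 0 := by positivity
    have e2 : ∑ k ∈ range (m + 2), (2 * (k : ℚ) + 1) * (fun k => (WI k : ℚ)) k ^ 2 =
        -((m : ℚ) + 2) * QW (m + 2) (WI (m + 2)) (WI (m + 1)) (WI m) / (8 * (2 * (m : ℚ) + 3) ^ 4) := by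
      rw [eq_div_iff d2, ← ih]; ring
    rw [e2, e1]
    unfold QW
    push_cast
    have d3 : ((m : ℚ) + 3) ≠ 0 := by positivity
    have d4 : (2 * (m : ℚ) + 3) ≠ 0 := by positivity
    field_simp
    ring

end Pool.Agent.V11308.RW
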