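import Mathlib
import Pool.Agent.V11308.RW

namespace Pool.Agent.V11308.RW

open Finset Leg

lemma exists_inv (c : ℤ) (hc : Odd c) (i : ℕ) : ∃ e : ℤ_[2], (2 * (i : ℤ_[2]) - (c : ℤ_[2])) * e = 1 := by
  have hu : IsUnit ((2 * (i : ℤ) - c : ℤ) : ℤ_[2]) := by
    rw [PadicInt.isUnit_iff]
    by_contra hne
    have h := lt_of_le_of_ne (PadicInt.norm_le_one _) hne
    rw [PadicInt.norm_int_lt_one_iff_dvd] at h
    obtain ⟨a, ha⟩ := hc
    obtain ⟨b, hb⟩ := h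
    push_cast at hb
    omega
  obtain ⟨u, hu⟩ := hu
  refine ⟨(↑u⁻¹ : ℤ_[2]), ?_⟩
  have : (2 * (i : ℤ_[2]) - (c : ℤ_[2])) = (u : ℤ_[2]) := by rw [hu]; push_cast; ring
  rw [this]; exact u.mul_inv

/-- generic statement: `∑_{m<n} (2m+1) F_m^2 = n^2 + d n z` -/
lemma two_adic (r : ℕ → ℤ_[2]) (d : ℤ_[2]) (h0 : rho r 0 = 1)
    (hk : ∀ k, 1 ≤ k → d ∣ ((2 * k + 1).choose k : ℤ_[2]) * rho r k) (n : ℕ) (hn : 0 < n) :
    ∃ z : ℤ_[2], ∑ m ∈ range n, (2 * (m : ℤ_[2]) + 1) *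
      (∑ i ∈ range (m + 1), (P i m : ℤ_[2]) * r i) ^ 2 = (n : ℤ_[2]) ^ 2 + d * n * z := by
  rw [sum_sq]
  have hd : d ∣ ∑ k ∈ range n, ((n.choose (k + 1) : ℤ_[2]) * ((n + k).choose k : ℤ_[2])) * rho r k -
      (n : ℤ_[2]) := by
    obtain ⟨m, rfl⟩ := Nat.exists_eq_add_of_le' hn
    rw [sum_range_succ']
    have : ((((m + 1).choose (0 + 1) : ℕ) : ℤ_[2]) * (((m + 1 + 0).choose 0 : ℕ) : ℤ_[2])) * rho r 0 =
        ((m + 1 : ℕ) : ℤ_[2]) := by rw [h0]; simp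
    rw [this, add_sub_cancel_right]
    apply dvd_sum
    intro k hk'
    have hk2 : k < m := mem_range.mp hk'
    have hc := coef_eq (m + 1) (k + 1) (by omega)
    have hc' : (((m + 1).choose (k + 1 + 1) : ℤ_[2]) * ((m + 1 + (k + 1)).choose (k + 1) : ℤ_[2])) =
      ((m + 1 + (k + 1)).choose (2 * (k + 1) + 1) : ℤ_[2]) * ((2 * (k + 1) + 1).choose (k + 1) : ℤ_[2]) := by
      exact_mod_cast congrArg (Nat.cast : ℕ → ℤ_[2]) hc
    rw [hc', mul_assoc]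
    exact Dvd.dvd.mul_left (hk (k + 1) (by omega)) _
  obtain ⟨z, hz⟩ := hd
  refine ⟨z, ?_⟩
  have : ∑ k ∈ range n, ((n.choose (k + 1) : ℤ_[2]) * ((n + k).choose k : ℤ_[2])) * rho r k =
      (n : ℤ_[2]) + d * z := by rw [← hz]; ring
  rw [this]; ring

lemma rho_one {R : Type*} [CommRing R] (r : ℕ → R) : rho r 1 = 2 * r 0 * r 1 + 2 * r 1 ^ 2 := by
  have hc : cf 0 0 1 = 0 ∧ cf 0 1 1 = 1 ∧ cf 1 0 1 = 1 ∧ cf 1 1 1 = 2 := by decide
  obtain ⟨h1, h2, h3, h4⟩ := hc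
  unfold rho
  simp only [sum_range_succ, range_zero, sum_empty, zero_add, h1, h2, h3, h4]
  push_cast
  ring

lemma rho_two {R : Type*} [CommRing R] (r : ℕ → R) : rho r 2 = 2 * r 0 * r 2 + 4 * r 1 ^ 2 +
    12 * r 1 * r 2 + 6 * r 2 ^ 2 := by
  have hc : cf 0 0 2 = 0 ∧ cf 0 1 2 = 0 ∧ cf 1 0 2 = 0 ∧ cf 1 1 2 = 4 ∧ cf 0 2 2 = 1 ∧ cf 2 0 2 = 1 ∧
    cf 1 2 2 = 6 ∧ cf 2 1 2 = 6 ∧ cf 2 2 2 = 6 := by decide
  obtain ⟨h1, h2, h3, h4, h5, h6, h7, h8, h9⟩ := hc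
  unfold rho
  simp only [sum_range_succ, range_zero, sum_empty, zero_add, h1, h2, h3, h4, h5, h6, h7, h8, h9]
  push_cast
  ring

lemma rho_three {R : Type*} [CommRing R] (r : ℕ → R) : rho r 3 = 2 * r 0 * r 3 + 18 * r 1 * r 2 +
    24 * r 1 * r 3 + 36 * r 2 ^ 2 + 60 * r 2 * r 3 + 20 * r 3 ^ 2 := by
  have hc : cf 0 0 3 = 0 ∧ cf 0 1 3 = 0 ∧ cf 1 0 3 = 0 ∧ cf 1 1 3 = 0 ∧ cf 0 2 3 = 0 ∧ cf 2 0 3 = 0 ∧
    cf 1 2 3 = 9 ∧ cf 2 1 3 = 9 ∧ cf 2 2 3 = 36 ∧ cf 0 3 3 = 1 ∧ cf 3 0 3 = 1 ∧ cf 1 3 3 = 12 ∧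
    cf 3 1 3 = 12 ∧ cf 2 3 3 = 30 ∧ cf 3 2 3 = 30 ∧ cf 3 3 3 = 20 := by decide
  obtain ⟨h1, h2, h3, h4, h5, h6, h7, h8, h9, h10, h11, h12, h13, h14, h15, h16⟩ := hc
  unfold rho
  simp only [sum_range_succ, range_zero, sum_empty, zero_add, h1, h2, h3, h4, h5, h6, h7, h8, h9,
    h10, h11, h12, h13, h14, h15, h16]
  push_cast
  ring

lemma R_two (n : ℕ) (hn : 0 < n) : ∃ z : ℤ_[2],
    ((∑ m ∈ range n, (2 * (m : ℤ) + 1) * RI m ^ 2 : ℤ) : ℤ_[2]) = (n : ℤ_[2]) ^ 2 + 16 * n * z := by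
  choose e he using (fun i => exists_inv 1 (by decide) i)
  have he' : ∀ i : ℕ, (2 * (i : ℤ_[2]) - 1) * e i = 1 := by
    intro i; have := he i; push_cast at this; exact this
  have h0 : e 0 = -1 := by have := he' 0; push_cast at this; linear_combination -this
  have h1 : e 1 = 1 := by have := he' 1; push_cast at this; linear_combination this
  have h2 : 3 * e 2 = 1 := by have := he' 2; push_cast at this; linear_combination this
  have h3 : 5 * e 3 = 1 := by have := he' 3; push_cast at this; linear_combination this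
  have hR : ∀ m, ((RI m : ℤ) : ℤ_[2]) = ∑ i ∈ range (m + 1), (P i m : ℤ_[2]) * e i := by
    intro m
    unfold RI
    push_cast
    refine sum_congr rfl (fun i _ => ?_)
    have a := congrArg (Int.cast : ℤ → ℤ_[2]) (sR_eq i)
    push_cast at a
    have b := congrArg (Nat.cast : ℕ → ℤ_[2]) (P_eq i m)
    push_cast at b
    rw [b]
    linear_combination (-((m + i).choose (2 * i) : ℤ_[2]) * sR i) * he' i +
      ((m + i).choose (2 * i) : ℤ_[2]) * e i * a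
  obtain ⟨z, hz⟩ := two_adic e 16 (by
      unfold rho cf; simp [h0]) (by
      intro k hk
      rcases Nat.lt_or_ge k 4 with h | h
      · interval_cases k
        · rw [rho_one, h0, h1]; exact ⟨0, by ring⟩
        · rw [rho_two, h0, h1]
          have : ((2 * 2 + 1).choose 2 : ℤ_[2]) = 10 := by norm_num [Nat.choose]
          rw [this]
          exact ⟨5, by linear_combination (20 * e 2 + 40) * h2⟩
        · rw [rho_three, h0, h1]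
          apply Dvd.dvd.mul_left
          refine ⟨6 * e 3, ?_⟩
          linear_combination (12 * e 2 + 10 + 20 * e 3) * h2 + (4 * e 3 - 10) * h3
      · apply Dvd.dvd.mul_left
        have := rho_dvd_two (1 : ℤ_[2]) 1 e he' k
        simp only [one_mul] at this
        refine dvd_trans ?_ this
        rw [show (16 : ℤ_[2]) = 2 ^ 4 by norm_num]
        exact pow_dvd_pow 2 h) n hn
  refine ⟨z, ?_⟩
  rw [← hz]
  push_cast
  refine sum_congr rfl (fun m _ => ?_)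
  rw [hR]

lemma W_two (n : ℕ) (hn : 0 < n) : ∃ z : ℤ_[2],
    ((∑ m ∈ range n, (2 * (m : ℤ) + 1) * WI m ^ 2 : ℤ) : ℤ_[2]) = (n : ℤ_[2]) ^ 2 + 8 * n * z := by
  choose e he using (fun i => exists_inv 3 (by decide) i)
  have he' : ∀ i : ℕ, (2 * (i : ℤ_[2]) - 3) * e i = 1 := by
    intro i; have := he i; push_cast at this; exact this
  have h0 : 3 * e 0 = -1 := by have := he' 0; push_cast at this; linear_combination -this
  have h1 : e 1 = -1 := by have := he' 1; push_cast at this; linear_combination -this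
  have h2 : e 2 = 1 := by have := he' 2; push_cast at this; linear_combination this
  have hW : ∀ m, ((WI m : ℤ) : ℤ_[2]) = ∑ i ∈ range (m + 1), (P i m : ℤ_[2]) * (3 * e i) := by
    intro m
    unfold WI
    push_cast
    refine sum_congr rfl (fun i _ => ?_)
    have a := congrArg (Int.cast : ℤ → ℤ_[2]) (sW_eq i)
    push_cast at a
    have b := congrArg (Nat.cast : ℕ → ℤ_[2]) (P_eq i m)
    push_cast at b
    rw [b]
    linear_combination (-((m + i).choose (2 * i) : ℤ_[2]) * sW i) * he' i +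
      ((m + i).choose (2 * i) : ℤ_[2]) * e i * a
  obtain ⟨z, hz⟩ := two_adic (fun i => 3 * e i) 8 (by
      unfold rho cf; simp [h0]) (by
      intro k hk
      rcases Nat.lt_or_ge k 3 with h | h
      · interval_cases k
        · rw [rho_one, h0, h1]; apply Dvd.dvd.mul_left; exact ⟨3, by ring⟩
        · rw [rho_two, h0, h1, h2]; apply Dvd.dvd.mul_left; exact ⟨-3, by ring⟩
      · apply Dvd.dvd.mul_left
        have := rho_dvd_two (3 : ℤ_[2]) 3 e he' k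
        refine dvd_trans ?_ this
        rw [show (8 : ℤ_[2]) = 2 ^ 3 by norm_num]
        exact pow_dvd_pow 2 h) n hn
  refine ⟨z, ?_⟩
  rw [← hz]
  push_cast
  refine sum_congr rfl (fun m _ => ?_)
  rw [hW]

/-- combining the 2-adic statement and divisibility at odd primes -/
lemma combine (n : ℕ) (hn : 0 < n) (S : ℤ) (a : ℕ) (hodd : ∀ q : ℕ, Odd q → q ∣ n → (q : ℤ) ∣ S)
    (h2 : ∃ z : ℤ_[2], (S : ℤ_[2]) = (n : ℤ_[2]) ^ 2 + 2 ^ a * n * z) :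
    (2 ^ a * (n : ℤ)) ∣ S - (n : ℤ) ^ 2 := by
  obtain ⟨k, m, hm, rfl⟩ := Nat.exists_eq_two_pow_mul_odd hn.ne'
  have h1 : (m : ℤ) ∣ S - ((2 ^ k * m : ℕ) : ℤ) ^ 2 := by
    apply dvd_sub (hodd m hm (Dvd.intro_left _ rfl))
    push_cast
    exact ⟨2 ^ k * 2 ^ k * m, by ring⟩
  have h3 : (2 : ℤ) ^ (a + k) ∣ S - ((2 ^ k * m : ℕ) : ℤ) ^ 2 := by
    have := (PadicInt.pow_p_dvd_int_iff (p := 2) (a + k) (S - ((2 ^ k * m : ℕ) : ℤ) ^ 2)).mp (by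
      obtain ⟨z, hz⟩ := h2
      refine ⟨m * z, ?_⟩
      push_cast at hz ⊢
      rw [hz]
      ring)
    exact_mod_cast this
  have hcop : IsCoprime ((2 : ℤ) ^ (a + k)) (m : ℤ) := by
    apply IsCoprime.pow_left
    rw [Int.isCoprime_iff_gcd_eq_one]
    have : Nat.Coprime 2 m := (Nat.coprime_two_left).mpr hm
    exact_mod_cast this
  have h4 := hcop.mul_dvd h3 h1
  refine dvd_trans ?_ h4
  push_cast
  exact ⟨1, by ring⟩

lemma odd_R (n q : ℕ) (hq : Odd q) (hqn : q ∣ n) (hn : 0 < n) :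
    (q : ℤ) ∣ ∑ m ∈ range n, (2 * (m : ℤ) + 1) * RI m ^ 2 := by
  rcases Nat.lt_or_ge n 2 with h | h
  · have : n = 1 := by omega
    subst this
    have : q = 1 := Nat.dvd_one.mp hqn
    subst this
    simp
  · obtain ⟨m, rfl⟩ := Nat.exists_eq_add_of_le' h
    have hc := R_closed m
    unfold SS at hc
    beta_reduce at hc
    have hc' : 8 * ∑ k ∈ range (m + 2), (2 * (k : ℤ) + 1) * RI k ^ 2 =
      ((m : ℤ) + 2) * ((7 * m + 15) * (RI (m + 1)) ^ 2 - (m + 1) *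
      ((RI (m + 2)) * RI (m + 1) + (RI (m + 2)) * RI m + (RI (m + 1)) * RI m)) := by
      exact_mod_cast hc
    have hcop : IsCoprime (q : ℤ) 8 := by
      rw [Int.isCoprime_iff_gcd_eq_one]
      have : Nat.Coprime q (2 ^ 3) := Nat.Coprime.pow_right 3 ((Nat.coprime_two_right).mpr hq)
      exact_mod_cast this
    apply hcop.dvd_of_dvd_mul_left
    rw [hc']
    apply Dvd.dvd.mul_right
    exact_mod_cast hqn

lemma odd_W (n q : ℕ) (hq : Odd q) (hqn : q ∣ n) (hn : 0 < n) :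
    (q : ℤ) ∣ ∑ m ∈ range n, (2 * (m : ℤ) + 1) * WI m ^ 2 := by
  rcases Nat.lt_or_ge n 2 with h | h
  · have : n = 1 := by omega
    subst this
    have : q = 1 := Nat.dvd_one.mp hqn
    subst this
    simp
  · obtain ⟨m, rfl⟩ := Nat.exists_eq_add_of_le' h
    have hc := W_closed m
    unfold SS QW at hc
    have hc' : 8 * (2 * (m : ℤ) + 3) ^ 4 * ∑ k ∈ range (m + 2), (2 * (k : ℤ) + 1) * WI k ^ 2 =
      ((m : ℤ) + 2) * (-(2 * ((m : ℤ) + 2) * (((m : ℤ) + 2) - 1) ^ 4 * WI (m + 2) * WI (m + 2) +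
  (7 - 35 * ((m : ℤ) + 2) + 68 * ((m : ℤ) + 2) ^ 2 - 68 * ((m : ℤ) + 2) ^ 3 + 36 * ((m : ℤ) + 2) ^ 4 - 8 * ((m : ℤ) + 2) ^ 5) * WI (m + 2) * WI (m + 1) +
  (7 - 21 * ((m : ℤ) + 2) - 12 * ((m : ℤ) + 2) ^ 2 + 66 * ((m : ℤ) + 2) ^ 3 - 8 * ((m : ℤ) + 2) ^ 4 - 40 * ((m : ℤ) + 2) ^ 5) * WI (m + 1) * WI (m + 1) +
  (-1 + 9 * ((m : ℤ) + 2) - 36 * ((m : ℤ) + 2) ^ 2 + 68 * ((m : ℤ) + 2) ^ 3 - 60 * ((m : ℤ) + 2) ^ 4 + 20 * ((m : ℤ) + 2) ^ 5) * WI (m + 2) * WI m +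
  (-1 + ((m : ℤ) + 2) + 4 * ((m : ℤ) + 2) ^ 2 - 8 * ((m : ℤ) + 2) ^ 3 + 12 * ((m : ℤ) + 2) ^ 4 - 8 * ((m : ℤ) + 2) ^ 5) * WI (m + 1) * WI m +
  2 * ((m : ℤ) + 2) ^ 3 * (((m : ℤ) + 2) - 1) ^ 2 * WI m * WI m)) := by
      have : (8 * (2 * (m : ℚ) + 3) ^ 4 * ∑ k ∈ range (m + 2), (2 * (k : ℚ) + 1) * (WI k : ℚ) ^ 2) =
        ((m : ℚ) + 2) * (-(2 * ((m : ℚ) + 2) * (((m : ℚ) + 2) - 1) ^ 4 * WI (m + 2) * WI (m + 2) +
  (7 - 35 * ((m : ℚ) + 2) + 68 * ((m : ℚ) + 2) ^ 2 - 68 * ((m : ℚ) + 2) ^ 3 + 36 * ((m : ℚ) + 2) ^ 4 - 8 * ((m : ℚ) + 2) ^ 5) * WI (m + 2) * WI (m + 1) +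
  (7 - 21 * ((m : ℚ) + 2) - 12 * ((m : ℚ) + 2) ^ 2 + 66 * ((m : ℚ) + 2) ^ 3 - 8 * ((m : ℚ) + 2) ^ 4 - 40 * ((m : ℚ) + 2) ^ 5) * WI (m + 1) * WI (m + 1) +
  (-1 + 9 * ((m : ℚ) + 2) - 36 * ((m : ℚ) + 2) ^ 2 + 68 * ((m : ℚ) + 2) ^ 3 - 60 * ((m : ℚ) + 2) ^ 4 + 20 * ((m : ℚ) + 2) ^ 5) * WI (m + 2) * WI m +
  (-1 + ((m : ℚ) + 2) + 4 * ((m : ℚ) + 2) ^ 2 - 8 * ((m : ℚ) + 2) ^ 3 + 12 * ((m : ℚ) + 2) ^ 4 - 8 * ((m : ℚ) + 2) ^ 5) * WI (m + 1) * WI m +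
  2 * ((m : ℚ) + 2) ^ 3 * (((m : ℚ) + 2) - 1) ^ 2 * WI m * WI m)) := by
        rw [hc]; ring
      exact_mod_cast this
    have hcop : IsCoprime (q : ℤ) (8 * (2 * (m : ℤ) + 3) ^ 4) := by
      apply IsCoprime.mul_right
      · rw [Int.isCoprime_iff_gcd_eq_one]
        have : Nat.Coprime q (2 ^ 3) := Nat.Coprime.pow_right 3 ((Nat.coprime_two_right).mpr hq)
        exact_mod_cast this
      · apply IsCoprime.pow_right
        obtain ⟨t, ht⟩ := hqn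
        have ht' : (m : ℤ) + 2 = q * t := by exact_mod_cast ht
        exact ⟨2 * t, -1, by linear_combination -2 * ht'⟩
    apply hcop.dvd_of_dvd_mul_left
    rw [hc']
    apply Dvd.dvd.mul_right
    exact_mod_cast hqn

theorem R_main (n : ℕ) (hn : 0 < n) :
    (16 * (n : ℤ)) ∣ ∑ m ∈ range n, (2 * (m : ℤ) + 1) * RI m ^ 2 - (n : ℤ) ^ 2 := by
  have := combine n hn (∑ m ∈ range n, (2 * (m : ℤ) + 1) * RI m ^ 2) 4
    (fun q hq hqn => odd_R n q hq hqn hn) (by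
      obtain ⟨z, hz⟩ := R_two n hn
      exact ⟨z, by rw [hz]; norm_num⟩)
  norm_num at this
  exact this

theorem W_main (n : ℕ) (hn : 0 < n) :
    (8 * (n : ℤ)) ∣ ∑ m ∈ range n, (2 * (m : ℤ) + 1) * WI m ^ 2 - (n : ℤ) ^ 2 := by
  have := combine n hn (∑ m ∈ range n, (2 * (m : ℤ) + 1) * WI m ^ 2) 3
    (fun q hq hqn => odd_W n q hq hqn hn) (by
      obtain ⟨z, hz⟩ := W_two n hn
      exact ⟨z, by rw [hz]; norm_num⟩)
  norm_num at this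
  exact this

end Pool.Agent.V11308.RW
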