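import Pool.Agent.V11308.PowerSums

/-!
The product `C(p-1,k) C(p-1+k,k)` in the `p`-adic integers modulo high powers of `p`.
-/

namespace Pool.Agent.V11308

open Finset

variable {p : ℕ} [hp : Fact p.Prime]

/-- `c k = C(p-1,k) C(p-1+k,k)`. -/
def cc (p k : ℕ) : ℕ := (p - 1).choose k * (p - 1 + k).choose k

lemma cc_succ (k : ℕ) (hk : k + 1 ≤ p) :
    ((cc p (k + 1) : ℕ) : ℤ_[p]) * ((k : ℤ_[p]) + 1) ^ 2 =
      (p - 1 - k) * (p + k) * (cc p k : ℕ) := by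
  have h1 := Nat.choose_succ_right_eq (p - 1) k
  have h2 := Nat.add_one_mul_choose_eq (p - 1 + k) k
  have h1' : (((p - 1).choose (k + 1) : ℕ) : ℤ_[p]) * ((k : ℤ_[p]) + 1) =
      ((p - 1).choose k : ℕ) * (p - 1 - k) := by
    have := congrArg (Nat.cast : ℕ → ℤ_[p]) h1
    push_cast at this
    rw [this, Nat.cast_sub (by omega), Nat.cast_sub (by omega)]
    push_cast; ring
  have h2' : (((p - 1 + (k + 1)).choose (k + 1) : ℕ) : ℤ_[p]) * ((k : ℤ_[p]) + 1) =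
      (p + k) * ((p - 1 + k).choose k : ℕ) := by
    have := congrArg (Nat.cast : ℕ → ℤ_[p]) h2
    push_cast at this
    rw [show p - 1 + (k + 1) = p - 1 + k + 1 by ring, ← this, Nat.cast_sub (by omega)]
    push_cast; ring
  unfold cc
  push_cast
  linear_combination (((p - 1 + (k + 1)).choose (k + 1) : ℕ) : ℤ_[p]) * ((k : ℤ_[p]) + 1) * h1' +
    ((p - 1).choose k : ℕ) * (p - 1 - k) * h2'

lemma cc_formula (k : ℕ) (hk : k ∈ Finset.Ico 1 p) :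
    ∃ e : ℤ_[p], ((cc p k : ℕ) : ℤ_[p]) * (k : ℤ_[p]) ^ 2 =
      p * (-1) ^ k * (k - p) * (1 + p ^ 2 * e) := by
  rw [Finset.mem_Ico] at hk
  obtain ⟨h1, h2⟩ := hk
  induction k, h1 using Nat.le_induction with
  | base =>
    refine ⟨0, ?_⟩
    have h := cc_succ (p := p) 0 (by omega)
    have h0 : cc p 0 = 1 := by simp [cc]
    rw [h0] at h
    push_cast at h ⊢
    linear_combination h
  | succ k hk ih =>
    obtain ⟨e, he⟩ := ih (by omega)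
    have hs := cc_succ (p := p) k (by omega)
    have ht : (k : ℤ_[p]) * t p k = 1 := mul_t (Nat.not_dvd_of_pos_of_lt (by omega) (by omega))
    refine ⟨e - t p k ^ 2 - p ^ 2 * t p k ^ 2 * e, ?_⟩
    have hu : IsUnit (k : ℤ_[p]) := isUnit_cast (Nat.not_dvd_of_pos_of_lt (by omega) (by omega))
    have hu2 : IsUnit ((k : ℤ_[p]) ^ 2) := hu.pow 2
    apply hu2.mul_left_cancel
    push_cast
    have e1 : (k : ℤ_[p]) ^ 2 * (((cc p (k + 1) : ℕ) : ℤ_[p]) * ((k : ℤ_[p]) + 1) ^ 2) =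
        (p - 1 - k) * (p + k) * (p * (-1) ^ k * (k - p) * (1 + p ^ 2 * e)) := by
      rw [hs, ← he]; ring
    rw [e1]
    have e2 : (k : ℤ_[p]) ^ 2 * (1 + p ^ 2 * (e - t p k ^ 2 - p ^ 2 * t p k ^ 2 * e)) =
        (k ^ 2 - p ^ 2) * (1 + p ^ 2 * e) := by
      linear_combination (-p ^ 2 - p ^ 4 * e) * (k * t p k + 1) * ht
    calc (p - 1 - k) * (p + k) * (p * (-1) ^ k * (k - p) * (1 + p ^ 2 * e))
        = p * (-1) ^ (k + 1) * (k + 1 - p) * ((k ^ 2 - p ^ 2) * (1 + p ^ 2 * e)) := by ring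
      _ = p * (-1) ^ (k + 1) * (k + 1 - p) *
          ((k : ℤ_[p]) ^ 2 * (1 + p ^ 2 * (e - t p k ^ 2 - p ^ 2 * t p k ^ 2 * e))) := by rw [e2]
      _ = _ := by ring

/-- `c_k^2 = p^2 (t^2 - 2 p t^3) + p^4 (...)`. -/
lemma cc_sq (k : ℕ) (hk : k ∈ Finset.Ico 1 p) :
    ∃ e : ℤ_[p], ((cc p k : ℕ) : ℤ_[p]) ^ 2 =
      p ^ 2 * (t p k ^ 2 - 2 * p * t p k ^ 3) + p ^ 4 * e := by
  obtain ⟨e, he⟩ := cc_formula k hk
  have ht : (k : ℤ_[p]) * t p k = 1 := mul_t (not_dvd_of_mem hk)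
  have h1 : ((cc p k : ℕ) : ℤ_[p]) = p * (-1) ^ k * (1 - p * t p k) * (1 + p ^ 2 * e) * t p k := by
    have : ((cc p k : ℕ) : ℤ_[p]) = ((cc p k : ℕ) : ℤ_[p]) * (k : ℤ_[p]) ^ 2 * t p k ^ 2 := by
      have : (k : ℤ_[p]) ^ 2 * t p k ^ 2 = 1 := by rw [← mul_pow, ht, one_pow]
      rw [mul_assoc, this, mul_one]
    rw [this, he]
    linear_combination (p * (-1) ^ k * (1 + p ^ 2 * e) * t p k) * ht
  have hs : ((-1 : ℤ_[p]) ^ k) ^ 2 = 1 := by rw [← pow_mul, mul_comm, pow_mul]; norm_num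
  refine ⟨t p k ^ 4 + (1 - p * t p k) ^ 2 * (2 * e + p ^ 2 * e ^ 2) * t p k ^ 2, ?_⟩
  rw [h1]
  calc (p * (-1) ^ k * (1 - p * t p k) * (1 + p ^ 2 * e) * t p k) ^ 2
      = ((-1 : ℤ_[p]) ^ k) ^ 2 * (p ^ 2 * (1 - p * t p k) ^ 2 * (1 + p ^ 2 * e) ^ 2 * t p k ^ 2) := by
        ring
    _ = _ := by rw [hs]; ring

end Pool.Agent.V11308
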