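import Pool.Agent.V11308.PowerSums

/-!
Power sums of inverses of units over intervals of length a multiple of `p^k`.
-/

namespace Pool.Agent.V11308

open Finset

variable {p : ℕ} [hp : Fact p.Prime]

lemma t_eq_zero {i : ℕ} (h : p ∣ i) : t p i = 0 := by
  apply Ring.inverse_non_unit
  intro hu
  rw [PadicInt.isUnit_iff] at hu
  have h1 : ‖(((i : ℤ)) : ℤ_[p])‖ < 1 := (PadicInt.norm_int_lt_one_iff_dvd (p := p) (i : ℤ)).2
    (by exact_mod_cast h)
  rw [Int.cast_natCast, hu] at h1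
  exact lt_irrefl _ h1

lemma t_mul {i : ℕ} (h : ¬ p ∣ i) : t p i * (i : ℤ_[p]) = 1 := by
  rw [mul_comm]; exact mul_t h

/-- `S p s N = ∑_{i < N, p ∤ i} i^{-s}` in `ℤ_[p]` (for `s ≥ 1`). -/
noncomputable def S (p : ℕ) [Fact p.Prime] (s N : ℕ) : ℤ_[p] := ∑ i ∈ Finset.range N, t p i ^ s

/-- expansion of the inverse of `i + q b`, where `p ∣ q`. -/
lemma t_shift (i q b : ℕ) (hq : p ∣ q) :
    ∃ e : ℤ_[p], t p (i + q * b) = t p i - q * b * t p i ^ 2 + (q : ℤ_[p]) ^ 2 * e := by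
  by_cases h : p ∣ i
  · have h2 : p ∣ i + q * b := dvd_add h (dvd_mul_of_dvd_left hq b)
    exact ⟨0, by rw [t_eq_zero h, t_eq_zero h2]; ring⟩
  · have h2 : ¬ p ∣ i + q * b := by
      intro h3
      exact h ((Nat.dvd_add_left (dvd_mul_of_dvd_left hq b)).1 h3)
    have e1 := mul_t h
    have e2 := mul_t h2
    refine ⟨b ^ 2 * t p i ^ 2 * t p (i + q * b), ?_⟩
    push_cast at e2
    have hu : IsUnit ((i : ℤ_[p])) := isUnit_cast h
    have hu2 : IsUnit ((i : ℤ_[p]) + q * b) := by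
      have := isUnit_cast (p := p) h2
      push_cast at this
      exact this
    apply hu2.mul_left_cancel
    generalize t p (i + q * b) = T at *
    generalize t p i = u at *
    linear_combination (1 - (q : ℤ_[p]) ^ 2 * b ^ 2 * u ^ 2) * e2 + (q * b * u - 1) * e1

lemma t_shift' (i q b : ℕ) (hq : p ∣ q) :
    ∃ e : ℤ_[p], t p (i + q * b) = t p i + (q : ℤ_[p]) * e := by
  obtain ⟨e, he⟩ := t_shift (p := p) i q b hq
  exact ⟨-b * t p i ^ 2 + q * e, by rw [he]; ring⟩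

lemma t_shift_pow (i q b s : ℕ) (hq : p ∣ q) :
    ∃ e : ℤ_[p], t p (i + q * b) ^ s = t p i ^ s + (q : ℤ_[p]) * e := by
  obtain ⟨e, he⟩ := t_shift' (p := p) i q b hq
  have h : (q : ℤ_[p]) ∣ t p (i + q * b) ^ s - t p i ^ s :=
    dvd_trans ⟨e, by rw [he]; ring⟩ (sub_dvd_pow_sub_pow _ _ s)
  obtain ⟨c, hc⟩ := h
  exact ⟨c, by linear_combination hc⟩

omit hp in
lemma sum_range_mul' {M : Type*} [AddCommMonoid M] (q c : ℕ) (f : ℕ → M) :
    ∑ i ∈ Finset.range (q * c), f i = ∑ b ∈ Finset.range c, ∑ i ∈ Finset.range q, f (i + q * b) := by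
  induction c with
  | zero => simp
  | succ c ih =>
    rw [mul_add, mul_one, Finset.sum_range_add, ih, Finset.sum_range_succ]
    congr 1
    apply Finset.sum_congr rfl
    intro i _
    rw [add_comm]

lemma S_mul (s q c : ℕ) (hq : p ∣ q) :
    ∃ e : ℤ_[p], S p s (q * c) = c * S p s q + (q : ℤ_[p]) * e := by
  unfold S
  have h : ∀ b i : ℕ, ∃ e : ℤ_[p], t p (i + q * b) ^ s = t p i ^ s + (q : ℤ_[p]) * e :=
    fun b i => t_shift_pow i q b s hq
  choose e he using h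
  refine ⟨∑ b ∈ Finset.range c, ∑ i ∈ Finset.range q, e b i, ?_⟩
  rw [sum_range_mul', Finset.mul_sum]
  simp only [he, Finset.sum_add_distrib, Finset.sum_const, Finset.card_range, nsmul_eq_mul,
    Finset.mul_sum]

/-- `p ∣ S_s(p^r)` for `r ≥ 2`. -/
lemma dvd_S_of_two_le (s r : ℕ) (hr : 2 ≤ r) : (p : ℤ_[p]) ∣ S p s (p ^ r) := by
  obtain ⟨r', rfl⟩ : ∃ r', r = r' + 2 := ⟨r - 2, by omega⟩
  obtain ⟨e, he⟩ := S_mul (p := p) s p (p ^ (r' + 1)) dvd_rfl
  rw [show p ^ (r' + 2) = p * p ^ (r' + 1) by ring, he]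
  push_cast
  exact ⟨(p : ℤ_[p]) ^ r' * S p s p + e, by ring⟩

/-- reduction modulo `p^k` of the inverse -/
lemma dvd_iff_toZModPow (k : ℕ) (x : ℤ_[p]) :
    (p : ℤ_[p]) ^ k ∣ x ↔ PadicInt.toZModPow k x = 0 := by
  rw [← RingHom.mem_ker, PadicInt.ker_toZModPow, Ideal.mem_span_singleton]

lemma toZModPow_t (k i : ℕ) (hk : k ≠ 0) :
    PadicInt.toZModPow k (t p i) = Ring.inverse ((i : ZMod (p ^ k))) := by
  by_cases h : p ∣ i
  · rw [t_eq_zero h, map_zero, Ring.inverse_non_unit]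
    intro hu
    have h1 : Nat.Coprime i (p ^ k) := (ZMod.isUnit_iff_coprime i (p ^ k)).1 hu
    have h2 : Nat.Coprime i p := Nat.Coprime.coprime_dvd_right (dvd_pow_self p hk) h1
    have h3 := Nat.eq_one_of_dvd_coprimes h2 h dvd_rfl
    exact hp.out.one_lt.ne' h3
  · have h1 := congrArg (PadicInt.toZModPow (p := p) k) (t_mul h)
    rw [map_mul, map_natCast, map_one] at h1
    have hu : IsUnit (i : ZMod (p ^ k)) := IsUnit.of_mul_eq_one_right _ h1
    exact (Ring.eq_mul_inverse_iff_mul_eq _ _ _ hu).2 h1 |>.trans (one_mul _)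

lemma sum_range_zmod (N : ℕ) [NeZero N] (f : ZMod N → ZMod N) :
    ∑ i ∈ Finset.range N, f (i : ZMod N) = ∑ x : ZMod N, f x := by
  symm
  apply Finset.sum_bij (fun (x : ZMod N) _ => x.val)
  · intro x _
    rw [Finset.mem_range]; exact ZMod.val_lt _
  · intro a _ b _ h
    exact ZMod.val_injective N h
  · intro k hk
    rw [Finset.mem_range] at hk
    exact ⟨(k : ZMod N), Finset.mem_univ _, by rw [ZMod.val_natCast, Nat.mod_eq_of_lt hk]⟩
  · intro x _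
    rw [ZMod.natCast_zmod_val]

/-- if `g` is an integer with `g` and `g^s - 1` prime to `p` then `p^k ∣ S_s(p^k)`. -/
lemma dvd_S_aux (s k : ℕ) (hk : k ≠ 0) (g : ℤ_[p]) (hg : IsUnit g) (hgs : IsUnit (g ^ s - 1)) :
    (p : ℤ_[p]) ^ k ∣ S p s (p ^ k) := by
  rw [dvd_iff_toZModPow, S, map_sum]
  haveI : NeZero (p ^ k) := ⟨pow_ne_zero _ hp.out.ne_zero⟩
  simp only [map_pow, toZModPow_t k _ hk]
  rw [sum_range_zmod (p ^ k) (fun x => Ring.inverse x ^ s)]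
  set G : ZMod (p ^ k) := PadicInt.toZModPow k g with hG
  have hGu : IsUnit G := hg.map _
  have hGs : IsUnit (G ^ s - 1) := by
    have := hgs.map (PadicInt.toZModPow k)
    simpa [hG] using this
  obtain ⟨u, hu⟩ := hGu
  have h1 : ∑ x : ZMod (p ^ k), Ring.inverse x ^ s = ∑ x : ZMod (p ^ k), Ring.inverse (u * x) ^ s := by
    exact (Equiv.sum_comp (Units.mulLeft u) (fun x : ZMod (p ^ k) => Ring.inverse x ^ s)).symm
  have h2 : ∀ x : ZMod (p ^ k), Ring.inverse ((u : ZMod (p ^ k)) * x) =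
      ((u⁻¹ : (ZMod (p ^ k))ˣ) : ZMod (p ^ k)) * Ring.inverse x := by
    intro x
    by_cases hx : IsUnit x
    · obtain ⟨v, rfl⟩ := hx
      rw [← Units.val_mul, Ring.inverse_unit, Ring.inverse_unit, mul_inv, Units.val_mul]
    · rw [Ring.inverse_non_unit _ hx, mul_zero, Ring.inverse_non_unit]
      intro h
      exact hx ((Units.isUnit_units_mul u x).1 h)
  simp only [h2, mul_pow] at h1
  rw [← Finset.mul_sum] at h1
  set Z := ∑ x : ZMod (p ^ k), Ring.inverse x ^ s with hZ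
  have h3 : (G ^ s - 1) * Z = 0 := by
    have h4 : G ^ s * ((u⁻¹ : (ZMod (p ^ k))ˣ) : ZMod (p ^ k)) ^ s = 1 := by
      rw [← hu, ← mul_pow, Units.mul_inv, one_pow]
    have h5 : G ^ s * Z = Z := by
      conv_lhs => rw [h1]
      rw [← mul_assoc, h4, one_mul]
    linear_combination h5
  exact (hGs.mul_right_eq_zero).1 h3

lemma isUnit_int {m : ℤ} (h : ¬ (p : ℤ) ∣ m) : IsUnit (m : ℤ_[p]) := by
  rw [PadicInt.isUnit_iff]
  have h1 : ‖(m : ℤ_[p])‖ ≤ 1 := PadicInt.norm_le_one _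
  rcases h1.lt_or_eq with h2 | h2
  · exact absurd ((PadicInt.norm_int_lt_one_iff_dvd (p := p) m).1 h2) h
  · exact h2

/-- for odd `s` and odd `p`, `p^k ∣ S_s(p^k)`. -/
lemma dvd_S_odd (s k : ℕ) (hk : k ≠ 0) (hs : Odd s) (hp2 : p ≠ 2) :
    (p : ℤ_[p]) ^ k ∣ S p s (p ^ k) := by
  have hn2 : ¬ (p : ℤ) ∣ -2 := by
    rw [dvd_neg]
    intro h
    have : p ∣ 2 := by exact_mod_cast h
    exact hp2 ((Nat.prime_dvd_prime_iff_eq hp.out Nat.prime_two).1 this)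
  have hu : IsUnit (((-2 : ℤ)) : ℤ_[p]) := isUnit_int hn2
  apply dvd_S_aux s k hk (-1) (isUnit_one.neg)
  rw [hs.neg_one_pow]
  have : (-1 - 1 : ℤ_[p]) = ((-2 : ℤ) : ℤ_[p]) := by push_cast; ring
  rw [this]; exact hu

/-- for `p ≥ 5`, `p^k ∣ S_2(p^k)`. -/
lemma dvd_S_two (k : ℕ) (hk : k ≠ 0) (hp5 : 5 ≤ p) :
    (p : ℤ_[p]) ^ k ∣ S p 2 (p ^ k) := by
  have h2 : IsUnit ((2 : ℕ) : ℤ_[p]) := isUnit_cast (by
    intro h; have := Nat.le_of_dvd (by norm_num) h; omega)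
  have h3 : IsUnit ((3 : ℕ) : ℤ_[p]) := isUnit_cast (by
    intro h; have := Nat.le_of_dvd (by norm_num) h; omega)
  apply dvd_S_aux 2 k hk (2 : ℕ) h2
  have : (((2 : ℕ) : ℤ_[p]) ^ 2 - 1) = ((3 : ℕ) : ℤ_[p]) := by push_cast; norm_num
  rw [this]; exact h3

end Pool.Agent.V11308
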