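import Pool.Agent.V11308.Leg3

/-!
Closed forms for the normalized sums `s(n)` and `t(n)`; the alternating binomial transform `(*)`.
-/

namespace Pool.Agent.V11308.DC

open Finset Pool.Agent.V11308.Leg

/-- `s(n)` -/
noncomputable def s (n : ℕ) : ℚ := 1 / (n : ℚ) ^ 2 * ∑ m ∈ range n, (2 * (m : ℚ) + 1) * (-1) ^ m * A m (1 / 4)

/-- `t(n)` -/
noncomputable def t (n : ℕ) : ℚ := 1 / (n : ℚ) ^ 2 * ∑ m ∈ range n, (2 * (m : ℚ) + 1) * (-1) ^ m * D m (-1 / 4) ^ 3

lemma choose_abs (n k : ℕ) (hn : 0 < n) : (n.choose (k + 1) : ℚ) * ((k : ℚ) + 1) =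
    n * ((n - 1).choose k : ℚ) := by
  have := Nat.add_one_mul_choose_eq (n - 1) k
  rw [show n - 1 + 1 = n by omega] at this
  have h := congrArg (Nat.cast : ℕ → ℚ) this
  push_cast at h
  exact h.symm

lemma s_eq (n : ℕ) (hn : 0 < n) : s n = ∑ k ∈ range n, ((n - 1).choose k : ℚ) *
    ((n + k).choose k : ℚ) * ((-1) ^ k * (Gam k : ℚ) / 4 ^ k) := by
  have hn' : (n : ℚ) ≠ 0 := by exact_mod_cast hn.ne'
  unfold s
  rw [sum_A]
  unfold H
  rw [← mul_assoc, mul_sum]
  refine sum_congr rfl (fun k _ => ?_)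
  obtain ⟨w, hw⟩ := g_mod k (1 / 4 : ℚ)
  rw [show (4 * (1 / 4 : ℚ) - 1) = 0 by norm_num, zero_mul, add_zero] at hw
  have h4 : (4 : ℚ) ^ k ≠ 0 := by positivity
  have hg : g k (1 / 4 : ℚ) = ((k : ℚ) + 1) * (Gam k : ℚ) / 4 ^ k := by
    rw [eq_div_iff h4, mul_comm, hw]
  rw [hg]
  have h := choose_abs n k hn
  field_simp
  linear_combination ((n + k).choose k : ℚ) * (Gam k : ℚ) * h

lemma t_eq (n : ℕ) (hn : 0 < n) : t n = ∑ k ∈ range n, ((n - 1).choose k : ℚ) *
    ((n + k).choose k : ℚ) * ((-3) ^ k * (om k : ℚ) / 64 ^ k) := by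
  have hn' : (n : ℚ) ≠ 0 := by exact_mod_cast hn.ne'
  unfold t
  rw [sum_D]
  unfold K
  rw [← mul_assoc, mul_sum]
  refine sum_congr rfl (fun k _ => ?_)
  obtain ⟨w, hw⟩ := L_mod k (-1 / 4 : ℚ)
  rw [show (4 * (-1 / 4 : ℚ) + 1) = 0 by norm_num, zero_mul, add_zero] at hw
  have h4 : (64 : ℚ) ^ k ≠ 0 := by positivity
  have h64 : (4 : ℚ) ^ (3 * k) = 64 ^ k := by rw [pow_mul]; norm_num
  rw [h64] at hw
  have hg : L k (-1 / 4 : ℚ) = ((k : ℚ) + 1) * ((-3) ^ k * (om k : ℚ)) / 64 ^ k := by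
    rw [eq_div_iff h4, mul_comm, hw]
  rw [hg]
  have h := choose_abs n k hn
  field_simp
  linear_combination ((n + k).choose k : ℚ) * (om k : ℚ) * h

lemma trA (n j : ℕ) (hj : j < n) : ∑ k ∈ range n, (-1 : ℤ) ^ k * ((n - 1).choose k : ℤ) *
    ((n + k).choose k : ℤ) * (k.choose j : ℤ) ^ 2 =
    (-1) ^ (n - 1) * (((n - 1).choose j : ℤ) * ((n + j).choose j : ℤ) * ((n + j).choose (2 * j + 1) : ℤ)) := by
  obtain ⟨M, rfl⟩ := Nat.exists_eq_add_of_le' (show j + 1 ≤ n from hj)
  rw [show M + (j + 1) = j + (M + 1) by ring, sum_range_add]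
  rw [sum_eq_zero (s := range j), zero_add]
  · have h := alt_sum M (j + (M + 1) + j) (2 * j + 1)
    have e : ∀ i ∈ range (M + 1), (-1 : ℤ) ^ (j + i) * ((j + (M + 1) - 1).choose (j + i) : ℤ) *
        ((j + (M + 1) + (j + i)).choose (j + i) : ℤ) * ((j + i).choose j : ℤ) ^ 2 =
        (-1) ^ j * (((j + (M + 1) - 1).choose j : ℤ) * ((j + (M + 1) + j).choose j : ℤ)) *
        ((-1) ^ i * (M.choose i : ℤ) * ((j + (M + 1) + j + i).choose (2 * j + 1 + M) : ℤ)) := by
      intro i _
      have h1 := Nat.choose_mul (n := M + j) (k := j + i) (s := j) (by omega)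
      rw [show M + j - j = M by omega, show j + i - j = i by omega] at h1
      have h2 : (j + (M + 1) + (j + i)).choose (j + i) * (j + i).choose j =
          (j + (M + 1) + j).choose j * (j + (M + 1) + j + i).choose i := by
        have e1 := Nat.choose_mul (n := j + (M + 1) + (j + i)) (k := j + i) (s := i) (by omega)
        rw [Nat.choose_symm_of_eq_add (show j + i = i + j by ring) ] at e1
        rw [show j + (M + 1) + (j + i) - i = j + (M + 1) + j by omega, show j + i - i = j by omega] at e1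
        rw [e1, show j + (M + 1) + (j + i) = j + (M + 1) + j + i by ring]
        ring
      rw [← Nat.choose_symm_of_eq_add (show j + (M + 1) + j + i = 2 * j + 1 + M + i by ring)] at h2
      have h1' : ((M + j).choose (j + i) : ℤ) * ((j + i).choose j : ℤ) =
        ((M + j).choose j : ℤ) * (M.choose i : ℤ) := by exact_mod_cast h1
      have h2' : ((j + (M + 1) + (j + i)).choose (j + i) : ℤ) * ((j + i).choose j : ℤ) =
          ((j + (M + 1) + j).choose j : ℤ) * ((j + (M + 1) + j + i).choose (2 * j + 1 + M) : ℤ) := by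
        exact_mod_cast h2
      rw [show j + (M + 1) - 1 = M + j by omega, pow_add]
      calc _ = (-1 : ℤ) ^ j * (-1) ^ i * (((M + j).choose (j + i) : ℤ) * ((j + i).choose j : ℤ)) *
          (((j + (M + 1) + (j + i)).choose (j + i) : ℤ) * ((j + i).choose j : ℤ)) := by ring
        _ = _ := by rw [h1', h2']; ring
    rw [sum_congr rfl e, ← mul_sum, h, show j + (M + 1) - 1 = j + M by omega, pow_add]
    ring
  · intro k hk
    rw [Nat.choose_eq_zero_of_lt (mem_range.mp hk)]
    simp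

lemma trB (n j : ℕ) (hj : j < n) : ∑ k ∈ range n, (-1 : ℤ) ^ k * ((n - 1).choose k : ℤ) *
    ((n + k).choose k : ℤ) * ((k.choose j : ℤ) * (k.choose (j + 1) : ℤ)) =
    (-1) ^ (n - 1) * (((n - 1).choose j : ℤ) * ((n + j + 1).choose (j + 1) : ℤ) *
      ((n + j).choose (2 * j + 2) : ℤ)) := by
  obtain ⟨M, rfl⟩ := Nat.exists_eq_add_of_le' (show j + 1 ≤ n from hj)
  rw [show M + (j + 1) = j + (M + 1) by ring, sum_range_add]
  rw [sum_eq_zero (s := range j), zero_add]
  · have h := alt_sum M (j + (M + 1) + j) (2 * j + 2)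
    have e : ∀ i ∈ range (M + 1), (-1 : ℤ) ^ (j + i) * ((j + (M + 1) - 1).choose (j + i) : ℤ) *
        ((j + (M + 1) + (j + i)).choose (j + i) : ℤ) * (((j + i).choose j : ℤ) * ((j + i).choose (j + 1) : ℤ)) =
        (-1) ^ j * (((j + (M + 1) - 1).choose j : ℤ) * ((j + (M + 1) + j + 1).choose (j + 1) : ℤ)) *
        ((-1) ^ i * (M.choose i : ℤ) * ((j + (M + 1) + j + i).choose (2 * j + 2 + M) : ℤ)) := by
      intro i _
      have h1 := Nat.choose_mul (n := M + j) (k := j + i) (s := j) (by omega)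
      rw [show M + j - j = M by omega, show j + i - j = i by omega] at h1
      have h2 : (j + (M + 1) + (j + i)).choose (j + i) * (j + i).choose (j + 1) =
          (j + (M + 1) + j + 1).choose (j + 1) * (j + (M + 1) + j + i).choose (2 * j + 2 + M) := by
        rcases Nat.eq_zero_or_pos i with rfl | hi
        · rw [Nat.choose_eq_zero_of_lt (show j + 0 < j + 1 by omega),
            Nat.choose_eq_zero_of_lt (show j + (M + 1) + j + 0 < 2 * j + 2 + M by omega)]
          simp
        · have e1 := Nat.choose_mul (n := j + (M + 1) + (j + i)) (k := j + i) (s := i - 1) (by omega)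
          rw [Nat.choose_symm_of_eq_add (show j + i = (i - 1) + (j + 1) by omega)] at e1
          rw [show j + (M + 1) + (j + i) - (i - 1) = j + (M + 1) + j + 1 by omega,
            show j + i - (i - 1) = j + 1 by omega] at e1
          rw [e1, show j + (M + 1) + (j + i) = j + (M + 1) + j + i by ring]
          rw [Nat.choose_symm_of_eq_add (show j + (M + 1) + j + i = (i - 1) + (2 * j + 2 + M) by omega)]
          ring
      have h1' : ((M + j).choose (j + i) : ℤ) * ((j + i).choose j : ℤ) =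
        ((M + j).choose j : ℤ) * (M.choose i : ℤ) := by exact_mod_cast h1
      have h2' : ((j + (M + 1) + (j + i)).choose (j + i) : ℤ) * ((j + i).choose (j + 1) : ℤ) =
          ((j + (M + 1) + j + 1).choose (j + 1) : ℤ) * ((j + (M + 1) + j + i).choose (2 * j + 2 + M) : ℤ) := by
        exact_mod_cast h2
      rw [show j + (M + 1) - 1 = M + j by omega, pow_add]
      calc _ = (-1 : ℤ) ^ j * (-1) ^ i * (((M + j).choose (j + i) : ℤ) * ((j + i).choose j : ℤ)) *
          (((j + (M + 1) + (j + i)).choose (j + i) : ℤ) * ((j + i).choose (j + 1) : ℤ)) := by ring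
        _ = _ := by rw [h1', h2']; ring
    rw [sum_congr rfl e, ← mul_sum, h, show j + (M + 1) - 1 = j + M by omega, pow_add]
    ring
  · intro k hk
    rw [Nat.choose_eq_zero_of_lt (mem_range.mp hk)]
    simp

/-- the bracket -/
def br (n j : ℕ) : ℤ := ((n + j).choose j : ℤ) * ((n + j).choose (2 * j + 1) : ℤ) -
  ((n + j + 1).choose (j + 1) : ℤ) * ((n + j).choose (2 * j + 2) : ℤ)

/-- `(*)` -/
lemma star (n : ℕ) (hn : 0 < n) : 4 ^ (n - 1) * s n = (((-1) ^ (n - 1) * ∑ j ∈ range n,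
    4 ^ (n - 1 - j) * (((2 * j + 1).choose j : ℤ) * ((n - 1).choose j : ℤ) * br n j) : ℤ) : ℚ) := by
  have hI : ∑ k ∈ range n, ((n - 1).choose k : ℤ) *
    ((n + k).choose k : ℤ) * ((-1) ^ k * Gam k * 4 ^ (n - 1 - k)) = ((-1) ^ (n - 1) * ∑ j ∈ range n,
    4 ^ (n - 1 - j) * (((2 * j + 1).choose j : ℤ) * ((n - 1).choose j : ℤ) * br n j) : ℤ) := by
    have e1 : ∀ k ∈ range n, ((n - 1).choose k : ℤ) *
        ((n + k).choose k : ℤ) * ((-1) ^ k * Gam k * 4 ^ (n - 1 - k)) =
        ∑ j ∈ range n, (4 ^ (n - 1 - j) * ((2 * j + 1).choose j : ℤ)) *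
          ((-1 : ℤ) ^ k * ((n - 1).choose k : ℤ) * ((n + k).choose k : ℤ) * (k.choose j : ℤ) ^ 2 -
          (-1 : ℤ) ^ k * ((n - 1).choose k : ℤ) * ((n + k).choose k : ℤ) *
            ((k.choose j : ℤ) * (k.choose (j + 1) : ℤ))) := by
      intro k hk
      have hk' : k < n := mem_range.mp hk
      have : ∑ j ∈ range n, (4 ^ (n - 1 - j) * ((2 * j + 1).choose j : ℤ)) *
          ((-1 : ℤ) ^ k * ((n - 1).choose k : ℤ) * ((n + k).choose k : ℤ) * (k.choose j : ℤ) ^ 2 -
          (-1 : ℤ) ^ k * ((n - 1).choose k : ℤ) * ((n + k).choose k : ℤ) *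
            ((k.choose j : ℤ) * (k.choose (j + 1) : ℤ))) =
          ∑ j ∈ range (k + 1), (4 ^ (n - 1 - j) * ((2 * j + 1).choose j : ℤ)) *
          ((-1 : ℤ) ^ k * ((n - 1).choose k : ℤ) * ((n + k).choose k : ℤ) * (k.choose j : ℤ) ^ 2 -
          (-1 : ℤ) ^ k * ((n - 1).choose k : ℤ) * ((n + k).choose k : ℤ) *
            ((k.choose j : ℤ) * (k.choose (j + 1) : ℤ))) := by
        symm
        apply sum_subset (range_subset_range.mpr (by omega))
        intro j _ hj
        rw [Nat.choose_eq_zero_of_lt (show k < j by simpa using hj)]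
        simp
      rw [this]
      unfold Gam
      rw [mul_sum, sum_mul, mul_sum]
      refine sum_congr rfl (fun j hj => ?_)
      have hj' : j ≤ k := by have := mem_range.mp hj; omega
      have h4 : (4 : ℤ) ^ (n - 1 - j) = 4 ^ (k - j) * 4 ^ (n - 1 - k) := by
        rw [← pow_add]; congr 1; omega
      rw [h4]
      ring
    rw [sum_congr rfl e1, sum_comm, mul_sum]
    refine sum_congr rfl (fun j hj => ?_)
    rw [← mul_sum, sum_sub_distrib, trA n j (mem_range.mp hj), trB n j (mem_range.mp hj)]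
    unfold br
    ring
  rw [← hI, s_eq n hn]
  push_cast
  rw [mul_sum]
  refine sum_congr rfl (fun k hk => ?_)
  have hk' : k < n := mem_range.mp hk
  have h4 : (4 : ℚ) ^ (n - 1) = 4 ^ (n - 1 - k) * 4 ^ k := by
    rw [← pow_add]; congr 1; omega
  rw [h4]
  field_simp

lemma br_eq (n j : ℕ) (hj : j < n) : 2 * ((j : ℤ) + 1) ^ 2 * br n j =
    (3 * ((j : ℤ) + 1) ^ 2 - n ^ 2) * (((n + j).choose j : ℤ) * ((n + j).choose (2 * j + 1) : ℤ)) := by
  unfold br
  have h1 : ((j : ℤ) + 1) * ((n + j + 1).choose (j + 1) : ℤ) = (n + j + 1) * ((n + j).choose j : ℤ) := by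
    have := Nat.add_one_mul_choose_eq (n + j) j
    have h := congrArg (Nat.cast : ℕ → ℤ) this
    push_cast at h
    linear_combination -h
  have h2 : (2 * (j : ℤ) + 2) * ((n + j).choose (2 * j + 2) : ℤ) = (n - j - 1) * ((n + j).choose (2 * j + 1) : ℤ) := by
    have := Nat.choose_succ_right_eq (n + j) (2 * j + 1)
    have h := congrArg (Nat.cast : ℕ → ℤ) this
    rw [Nat.cast_mul, Nat.cast_mul, Nat.cast_sub (by omega)] at h
    push_cast at h
    linear_combination h
  linear_combination (-(2 * (j : ℤ) + 2)) * ((n + j).choose (2 * j + 2) : ℤ) * h1 -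
    (n + j + 1) * ((n + j).choose j : ℤ) * h2

end Pool.Agent.V11308.DC
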