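import Pool.Agent.V11308.DC1

/-!
`s(p^a)` modulo `p` and `s(3^a)` modulo `9`.
-/

namespace Pool.Agent.V11308.DC

open Finset Pool.Agent.V11308.Leg

/-- `r ≡ c (mod N)` for a rational `r` with denominator prime to `N` -/
def CongQ (r : ℚ) (c N : ℤ) : Prop := IsCoprime (r.den : ℤ) N ∧ N ∣ r.num - c * r.den

lemma congQ_of (r : ℚ) (c N u v : ℤ) (hu : IsCoprime u N) (h : (u : ℚ) * r = v) (hd : N ∣ v - c * u) :
    CongQ r c N := by
  have hden : (r.den : ℚ) ≠ 0 := by exact_mod_cast r.den_nz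
  have h1 : (u : ℚ) * r.num = v * r.den := by
    rw [← h]
    nth_rewrite 2 [← Rat.num_div_den r]
    field_simp
  have h1' : u * r.num = v * r.den := by exact_mod_cast h1
  have hdu : (r.den : ℤ) ∣ u := by
    have : (r.den : ℤ) ∣ u * r.num := ⟨v, by rw [h1']; ring⟩
    have hc : IsCoprime (r.den : ℤ) r.num := by
      rw [Int.isCoprime_iff_gcd_eq_one]
      have := r.reduced
      rw [Int.gcd_comm]
      simpa [Int.gcd, Nat.Coprime] using this
    exact hc.dvd_of_dvd_mul_right this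
  refine ⟨?_, ?_⟩
  · obtain ⟨w, hw⟩ := hdu
    rw [hw] at hu
    exact hu.of_mul_left_left
  · have : N ∣ (r.num - c * r.den) * u := by
      obtain ⟨w, hw⟩ := hd
      exact ⟨r.den * w, by linear_combination h1' + (r.den : ℤ) * hw⟩
    exact (hu.symm).dvd_of_dvd_mul_right this

section modp
variable (p a : ℕ) [hp : Fact p.Prime]

lemma choose_q_add (i j : ℕ) (hj : j < p ^ a) : (((p ^ a + i).choose j : ℕ) : ZMod p) = (i.choose j : ℕ) := by
  have h : ((1 + Polynomial.X : Polynomial (ZMod p)) ^ (p ^ a + i)).coeff j =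
      ((1 + Polynomial.X : Polynomial (ZMod p)) ^ i).coeff j := by
    rw [pow_add, add_pow_char_pow, one_pow, add_mul, one_mul, Polynomial.coeff_add,
      Polynomial.coeff_X_pow_mul', if_neg (by omega), add_zero]
  rw [Polynomial.coeff_one_add_X_pow, Polynomial.coeff_one_add_X_pow] at h
  exact h

lemma choose_q_dvd (j : ℕ) (h0 : 0 < j) (hj : j < p ^ a) : (p : ℤ) ∣ ((p ^ a).choose j : ℤ) := by
  have h := choose_q_add p a 0 j hj
  rw [add_zero, Nat.choose_eq_zero_of_lt h0, Nat.cast_zero] at h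
  have := (ZMod.natCast_eq_zero_iff _ _).mp h
  exact_mod_cast this

/-- central part: vanishing of `C(2j+1,j)` -/
lemma cent_dvd (j : ℕ) (hj : j + 1 < p ^ a) (h : p ^ a ≤ 2 * j + 1) : (p : ℤ) ∣ ((2 * j + 1).choose j : ℤ) := by
  obtain ⟨i, hi⟩ := Nat.exists_eq_add_of_le h
  have h2 := choose_q_add p a i j (by omega)
  rw [← hi, Nat.choose_eq_zero_of_lt (show i < j by omega), Nat.cast_zero] at h2
  have := (ZMod.natCast_eq_zero_iff _ _).mp h2
  exact_mod_cast this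

lemma side_dvd (j : ℕ) (h : 2 * j + 1 < p ^ a) : (p : ℤ) ∣ ((p ^ a + j).choose (2 * j + 1) : ℤ) := by
  have h2 := choose_q_add p a j (2 * j + 1) h
  rw [Nat.choose_eq_zero_of_lt (show j < 2 * j + 1 by omega), Nat.cast_zero] at h2
  have := (ZMod.natCast_eq_zero_iff _ _).mp h2
  exact_mod_cast this

lemma side_dvd' (j : ℕ) (h : 2 * j + 2 < p ^ a) : (p : ℤ) ∣ ((p ^ a + j).choose (2 * j + 2) : ℤ) := by
  have h2 := choose_q_add p a j (2 * j + 2) h
  rw [Nat.choose_eq_zero_of_lt (show j < 2 * j + 2 by omega), Nat.cast_zero] at h2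
  have := (ZMod.natCast_eq_zero_iff _ _).mp h2
  exact_mod_cast this

lemma term_dvd (hodd : Odd p) (j : ℕ) (hj : j + 1 < p ^ a) :
    (p : ℤ) ∣ ((2 * j + 1).choose j : ℤ) * br (p ^ a) j := by
  rcases Nat.lt_or_ge (2 * j + 1) (p ^ a) with h | h
  · apply Dvd.dvd.mul_left
    have hq : Odd (p ^ a) := hodd.pow
    have h2 : 2 * j + 2 < p ^ a := by
      rcases hq with ⟨k, hk⟩; omega
    exact dvd_sub (Dvd.dvd.mul_left (side_dvd p a j h) _) (Dvd.dvd.mul_left (side_dvd' p a j h2) _)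
  · exact Dvd.dvd.mul_right (cent_dvd p a j hj h) _

lemma cent_one : (((2 * p ^ a - 1).choose (p ^ a - 1) : ℕ) : ZMod p) = 1 := by
  have hq : 0 < p ^ a := pow_pos hp.out.pos _
  have h := choose_q_add p a (p ^ a - 1) (p ^ a - 1) (by omega)
  rw [show p ^ a + (p ^ a - 1) = 2 * p ^ a - 1 by omega, Nat.choose_self] at h
  rw [h]; simp

end modp

lemma br_last (q : ℕ) (hq : 0 < q) : br q (q - 1) = ((2 * q - 1).choose (q - 1) : ℤ) := by
  unfold br
  rw [show q + (q - 1) = 2 * q - 1 by omega, show 2 * (q - 1) + 1 = 2 * q - 1 by omega, Nat.choose_self,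
    Nat.choose_eq_zero_of_lt (show 2 * q - 1 < 2 * (q - 1) + 2 by omega)]
  simp

lemma star_odd (q : ℕ) (hq : Odd q) (N : ℤ) (hN : ∀ j, j + 1 < q → N ∣ ((2 * j + 1).choose j : ℤ) * br q j) :
    ∃ v : ℤ, ((4 ^ (q - 1) : ℤ) : ℚ) * s q = v ∧ N ∣ v - ((2 * q - 1).choose (q - 1) : ℤ) ^ 2 := by
  have hq0 : 0 < q := hq.pos
  refine ⟨_, by push_cast; rw [star q hq0], ?_⟩
  have he : Even (q - 1) := by rcases hq with ⟨k, hk⟩; exact ⟨k, by omega⟩
  obtain ⟨m, hm⟩ : ∃ m, q = m + 1 := ⟨q - 1, by omega⟩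
  subst hm
  rw [he.neg_one_pow, one_mul, sum_range_succ]
  have hb := br_last (m + 1) (by omega)
  rw [show m + 1 - 1 = m by omega] at hb
  rw [show m + 1 - 1 = m by omega, show m - m = 0 by omega, hb, Nat.choose_self,
    show 2 * m + 1 = 2 * (m + 1) - 1 by omega]
  have h1 : N ∣ ∑ j ∈ range m, 4 ^ (m - j) * (((2 * j + 1).choose j : ℤ) * (m.choose j : ℤ) * br (m + 1) j) := by
    apply dvd_sum
    intro j hj
    have := hN j (by have := mem_range.mp hj; omega)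
    rw [show 4 ^ (m - j) * (((2 * j + 1).choose j : ℤ) * (m.choose j : ℤ) * br (m + 1) j) =
      4 ^ (m - j) * (m.choose j : ℤ) * (((2 * j + 1).choose j : ℤ) * br (m + 1) j) by ring]
    exact Dvd.dvd.mul_left this _
  obtain ⟨w, hw⟩ := h1
  exact ⟨w, by push_cast; linear_combination hw⟩

lemma s_modp (p a : ℕ) (hp : p.Prime) (h2 : p ≠ 2) : CongQ (s (p ^ a)) 1 p := by
  have : Fact p.Prime := ⟨hp⟩
  have hodd : Odd p := hp.odd_of_ne_two h2
  have hq : Odd (p ^ a) := hodd.pow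
  have hq0 : 0 < p ^ a := hq.pos
  obtain ⟨v, hv, hd⟩ := star_odd (p ^ a) hq p (fun j hj => term_dvd p a hodd j hj)
  have hc4 : IsCoprime (4 ^ (p ^ a - 1) : ℤ) (p : ℤ) := by
    apply IsCoprime.pow_left
    rw [show (4 : ℤ) = ((4 : ℕ) : ℤ) by norm_num, Nat.isCoprime_iff_coprime]
    rw [show 4 = 2 ^ 2 by norm_num]
    exact (Nat.Coprime.pow_left 2 ((Nat.coprime_primes Nat.prime_two hp).mpr h2.symm))
  refine congQ_of _ 1 p _ v hc4 hv ?_
  have h4 : (p : ℤ) ∣ 4 ^ (p ^ a - 1) - 1 := by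
    have h4' : ((4 : ZMod p)) ^ (p ^ a) = 4 := ZMod.pow_card_pow 4
    have h4ne : (4 : ZMod p) ≠ 0 := by
      intro h0
      have : ((4 : ℕ) : ZMod p) = 0 := by exact_mod_cast h0
      have := (ZMod.natCast_eq_zero_iff _ _).mp this
      have h22 : p ∣ 2 ^ 2 := by simpa using this
      exact h2 ((Nat.prime_dvd_prime_iff_eq hp Nat.prime_two).mp (hp.dvd_of_dvd_pow h22))
    rw [← ZMod.intCast_zmod_eq_zero_iff_dvd]
    push_cast
    have : (4 : ZMod p) ^ (p ^ a) = 4 ^ (p ^ a - 1) * 4 := by rw [← pow_succ]; congr 1; omega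
    rw [this] at h4'
    have : (4 : ZMod p) ^ (p ^ a - 1) = 1 := by
      apply mul_right_cancel₀ h4ne
      rw [h4', one_mul]
    rw [this, sub_self]
  have h5 : (p : ℤ) ∣ ((2 * p ^ a - 1).choose (p ^ a - 1) : ℤ) - 1 := by
    rw [← ZMod.intCast_zmod_eq_zero_iff_dvd]
    push_cast
    rw [cent_one p a, sub_self]
  obtain ⟨x, hx⟩ := hd
  obtain ⟨y, hy⟩ := h4
  obtain ⟨z, hz⟩ := h5
  refine ⟨x - y + (((2 * p ^ a - 1).choose (p ^ a - 1) : ℤ) + 1) * z, ?_⟩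
  linear_combination hx - hy + (((2 * p ^ a - 1).choose (p ^ a - 1) : ℤ) + 1) * hz

/-- 3-adic refinement of the bracket -/
lemma br3 (a j : ℕ) (ha : 0 < a) (hj : j + 1 < 3 ^ a) :
    ∃ U w : ℤ, ¬ (3 : ℤ) ∣ U ∧ U * br (3 ^ a) j = 3 * w *
      (((3 ^ a + j).choose j : ℤ) * ((3 ^ a + j).choose (2 * j + 1) : ℤ)) := by
  obtain ⟨v, u, hu, hvu⟩ := Nat.exists_eq_pow_mul_and_not_dvd (Nat.succ_ne_zero j) 3 (by norm_num)
  have hva : v < a := by
    by_contra hc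
    have : 3 ^ a ∣ 3 ^ v := pow_dvd_pow 3 (by omega)
    have h2 : 3 ^ a ∣ j + 1 := by rw [show j + 1 = j.succ from rfl, hvu]; exact Dvd.dvd.mul_right this _
    have := Nat.le_of_dvd (by omega) h2
    omega
  obtain ⟨w, rfl⟩ := Nat.exists_eq_add_of_le' (show v + 1 ≤ a from hva)
  have h := br_eq (3 ^ (w + (v + 1))) j (by omega)
  have hj1 : ((j : ℤ) + 1) = 3 ^ v * u := by exact_mod_cast hvu
  refine ⟨2 * (u : ℤ) ^ 2, (u : ℤ) ^ 2 - 3 * (3 ^ w) ^ 2, ?_, ?_⟩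
  · intro hd
    have hp : Prime (3 : ℤ) := Int.prime_three
    rcases hp.dvd_or_dvd hd with h1 | h1
    · norm_num at h1
    · have := hp.dvd_of_dvd_pow h1
      apply hu
      exact_mod_cast this
  · rw [hj1] at h
    have h3 : ((3 : ℤ) ^ v) ^ 2 ≠ 0 := by positivity
    apply mul_left_cancel₀ h3
    have e : (((3 ^ (w + (v + 1)) : ℕ) : ℤ)) = 3 ^ v * (3 * 3 ^ w) := by push_cast; ring
    rw [e] at h
    linear_combination h

lemma term_dvd9 (a j : ℕ) (ha : 0 < a) (hj : j + 1 < 3 ^ a) :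
    (9 : ℤ) ∣ ((2 * j + 1).choose j : ℤ) * br (3 ^ a) j := by
  have : Fact (Nat.Prime 3) := ⟨Nat.prime_three⟩
  obtain ⟨U, w, hU, hb⟩ := br3 a j ha hj
  have hp : Prime (3 : ℤ) := Int.prime_three
  have hcop : IsCoprime (3 : ℤ) U := (Prime.coprime_iff_not_dvd hp).mpr hU
  rcases Nat.lt_or_ge (2 * j + 1) (3 ^ a) with h | h
  · apply Dvd.dvd.mul_left
    obtain ⟨x, hx⟩ := side_dvd 3 a j h
    have : (9 : ℤ) ∣ U * br (3 ^ a) j := by
      rw [hb, hx]; exact ⟨w * ((3 ^ a + j).choose j : ℤ) * x, by push_cast; ring⟩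
    have hc9 : IsCoprime (9 : ℤ) U := by
      have := IsCoprime.pow_left (m := 2) hcop
      norm_num at this
      exact this
    exact hc9.dvd_of_dvd_mul_left this
  · obtain ⟨x, hx⟩ := cent_dvd 3 a j hj h
    have : (3 : ℤ) ∣ br (3 ^ a) j := by
      have : (3 : ℤ) ∣ U * br (3 ^ a) j := by
        rw [hb]; exact ⟨w * (((3 ^ a + j).choose j : ℤ) * ((3 ^ a + j).choose (2 * j + 1) : ℤ)), by ring⟩
      exact hcop.dvd_of_dvd_mul_left this
    obtain ⟨y, hy⟩ := this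
    rw [hx, hy]
    exact ⟨x * y, by push_cast; ring⟩

lemma cent9 (a : ℕ) (ha : 0 < a) : (9 : ℤ) ∣ ((2 * 3 ^ a - 1).choose (3 ^ a - 1) : ℤ) - 1 := by
  have : Fact (Nat.Prime 3) := ⟨Nat.prime_three⟩
  have hq : 3 ≤ 3 ^ a := by
    calc 3 = 3 ^ 1 := by norm_num
      _ ≤ 3 ^ a := Nat.pow_le_pow_right (by norm_num) ha
  set q := 3 ^ a with hqd
  have h1 : (2 * q).choose q = 2 * (2 * q - 1).choose (q - 1) := by
    have := Nat.add_one_mul_choose_eq (2 * q - 1) (q - 1)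
    rw [show 2 * q - 1 + 1 = 2 * q by omega, show q - 1 + 1 = q by omega] at this
    have h : q * (2 * (2 * q - 1).choose (q - 1)) = q * (2 * q).choose q := by linarith
    exact (Nat.eq_of_mul_eq_mul_left (by omega) h).symm
  have h2 := Nat.sum_range_choose_sq q
  have h3 : (9 : ℤ) ∣ ((2 * q).choose q : ℤ) - 2 := by
    rw [← h2]
    push_cast
    rw [sum_range_succ]
    obtain ⟨m, hm⟩ : ∃ m, q = m + 1 := ⟨q - 1, by omega⟩
    have : range q = range (m + 1) := by rw [hm]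
    rw [this, sum_range_succ']
    have h4 : (9 : ℤ) ∣ ∑ k ∈ range m, (q.choose (k + 1) : ℤ) ^ 2 := by
      apply dvd_sum
      intro k hk
      obtain ⟨x, hx⟩ := choose_q_dvd 3 a (k + 1) (by omega) (by have := mem_range.mp hk; omega)
      rw [← hqd] at hx
      rw [hx]
      exact ⟨x ^ 2, by push_cast; ring⟩
    obtain ⟨x, hx⟩ := h4
    exact ⟨x, by rw [hx, Nat.choose_zero_right, Nat.choose_self]; push_cast; ring⟩
  rw [h1] at h3
  push_cast at h3
  omega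

lemma s_mod9 (a : ℕ) (ha : 0 < a) : CongQ (s (3 ^ a)) 4 9 := by
  have hq : Odd (3 ^ a) := Odd.pow (by decide)
  obtain ⟨v, hv, hd⟩ := star_odd (3 ^ a) hq 9 (fun j hj => term_dvd9 a j ha hj)
  have hc4 : IsCoprime (4 ^ (3 ^ a - 1) : ℤ) 9 := by
    apply IsCoprime.pow_left
    exact ⟨-2, 1, by norm_num⟩
  refine congQ_of _ 4 9 _ v hc4 hv ?_
  have h5 := cent9 a ha
  have h4 : (9 : ℤ) ∣ 4 ^ (3 ^ a - 1) - 7 := by
    obtain ⟨b, rfl⟩ := Nat.exists_eq_add_of_le' (show 1 ≤ a from ha)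
    have hb0 : 0 < 3 ^ b := by positivity
    obtain ⟨c, hc⟩ : ∃ c, 3 ^ b = c + 1 := ⟨3 ^ b - 1, by omega⟩
    rw [show 3 ^ (b + 1) - 1 = 3 * c + 2 by rw [pow_succ, hc]; omega, pow_add, pow_mul]
    have : (9 : ℤ) ∣ (4 ^ 3) ^ c - 1 ^ c := dvd_trans (by norm_num) (sub_dvd_pow_sub_pow _ _ _)
    rw [one_pow] at this
    omega
  obtain ⟨x, hx⟩ := hd
  obtain ⟨y, hy⟩ := h4
  obtain ⟨z, hz⟩ := h5
  refine ⟨x - 4 * y - 3 + (((2 * 3 ^ a - 1).choose (3 ^ a - 1) : ℤ) + 1) * z, ?_⟩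
  linear_combination hx - 4 * hy + (((2 * 3 ^ a - 1).choose (3 ^ a - 1) : ℤ) + 1) * hz

end Pool.Agent.V11308.DC
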