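import Pool.Agent.V11308.DC4

/-!
2-adic part.
-/

namespace Pool.Agent.V11308.DC

open Finset Pool.Agent.V11308.Leg

instance : Fact (Nat.Prime 2) := ⟨Nat.prime_two⟩

/-- `ν₂(n!)` -/
noncomputable def e (n : ℕ) : ℕ := padicValNat 2 n.factorial

lemma e_zero : e 0 = 0 := by simp [e]

lemma e_succ (n : ℕ) : e (n + 1) = e n + padicValNat 2 (n + 1) := by
  unfold e
  rw [Nat.factorial_succ, padicValNat.mul (by omega) (Nat.factorial_ne_zero n), add_comm]

lemma e_two_mul (n : ℕ) : e (2 * n) = e n + n := padicValNat_factorial_mul (p := 2) n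

lemma e_choose (n k : ℕ) (h : k ≤ n) : e n = padicValNat 2 (n.choose k) + e k + e (n - k) := by
  unfold e
  rw [← Nat.choose_mul_factorial_mul_factorial h, padicValNat.mul, padicValNat.mul]
  · exact (Nat.choose_pos h).ne'
  · exact Nat.factorial_ne_zero _
  · exact mul_ne_zero (Nat.choose_pos h).ne' (Nat.factorial_ne_zero _)
  · exact Nat.factorial_ne_zero _

lemma e_mono {m n : ℕ} (h : m ≤ n) : e m ≤ e n := by
  have := e_choose n m h
  omega

lemma e_le (n : ℕ) (hn : 0 < n) : e n ≤ n - 1 := by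
  have := padicValNat_factorial_lt_of_ne_zero 2 (n := n) hn.ne'
  unfold e
  omega

lemma P_pos {j m : ℕ} (h : j ≤ m) : 0 < P j m := by
  unfold P
  exact Nat.mul_pos (Nat.choose_pos h) (Nat.choose_pos (by omega))

lemma valP (j m : ℕ) (h : j ≤ m) : padicValNat 2 (P j m) + e m =
    j + e (m - j) + padicValNat 2 ((m + j).choose (m - j)) + padicValNat 2 (m.choose j) := by
  have h1 := e_choose (m + j) (2 * j) (by omega)
  have h2 := e_choose (2 * j) j (by omega)
  have h3 := e_choose m j h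
  have h4 := e_choose (m + j) (m - j) (by omega)
  rw [show m + j - 2 * j = m - j by omega] at h1
  rw [show 2 * j - j = j by omega, e_two_mul] at h2
  rw [show m + j - (m - j) = 2 * j by omega, e_two_mul] at h4
  rw [e_two_mul] at h1
  rw [P_eq, padicValNat.mul (Nat.choose_pos (by omega)).ne' (Nat.choose_pos (by omega)).ne']
  omega

/-- `c_j(m) = P_j(m) 2^{e_m} / 2^j` -/
noncomputable def c (j m : ℕ) : ℕ := P j m * 2 ^ e m / 2 ^ j

lemma val_num (j m : ℕ) (h : j ≤ m) : padicValNat 2 (P j m * 2 ^ e m) =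
    j + (e (m - j) + padicValNat 2 ((m + j).choose (m - j)) + padicValNat 2 (m.choose j)) := by
  rw [padicValNat.mul (P_pos h).ne' (by positivity), padicValNat.prime_pow, valP j m h]
  ring

lemma c_eq (j m : ℕ) (h : j ≤ m) : c j m * 2 ^ j = P j m * 2 ^ e m := by
  unfold c
  apply Nat.div_mul_cancel
  apply (padicValNat_dvd_iff_le (p := 2) (by have := P_pos h; positivity)).mpr
  rw [val_num j m h]
  omega

lemma c_pos (j m : ℕ) (h : j ≤ m) : 0 < c j m := by
  have := c_eq j m h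
  have h2 : 0 < P j m * 2 ^ e m := by have := P_pos h; positivity
  rw [← this] at h2
  exact Nat.pos_of_mul_pos_right h2

lemma val_c (j m : ℕ) (h : j ≤ m) : padicValNat 2 (c j m) =
    e (m - j) + padicValNat 2 ((m + j).choose (m - j)) + padicValNat 2 (m.choose j) := by
  have h1 := val_num j m h
  rw [← c_eq j m h, padicValNat.mul (c_pos j m h).ne' (by positivity), padicValNat.prime_pow] at h1
  omega

lemma odd_iff_val (n : ℕ) (hn : 0 < n) : Odd n ↔ padicValNat 2 n = 0 := by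
  rw [padicValNat.eq_zero_iff]
  rw [← Nat.not_even_iff_odd, even_iff_two_dvd]
  constructor
  · intro h; right; right; exact h
  · rintro (h | h | h)
    · omega
    · omega
    · exact h

lemma c_self_odd (m : ℕ) : Odd (c m m) := by
  rw [odd_iff_val _ (c_pos m m le_rfl), val_c m m le_rfl]
  simp [e_zero]

lemma c_pred (m : ℕ) : Odd (c m (m + 1)) ↔ Odd (m + 1) := by
  rw [odd_iff_val _ (c_pos m (m + 1) (by omega)), val_c m (m + 1) (by omega), odd_iff_val (m + 1) (by omega)]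
  rw [show m + 1 - m = 0 + 1 by omega, e_succ, e_zero]
  rw [Nat.choose_one_right, Nat.choose_succ_self_right]
  have : padicValNat 2 (m + 1 + m) = 0 := by
    rw [← odd_iff_val _ (by omega)]
    exact ⟨m, by ring⟩
  rw [this]
  simp

lemma c_even (j m : ℕ) (h : j + 2 ≤ m) : Even (c j m) := by
  rw [← Nat.not_odd_iff_even, odd_iff_val _ (c_pos j m (by omega)), val_c j m (by omega)]
  have h2 : 1 ≤ e (m - j) := by
    have h3 : e 2 ≤ e (m - j) := e_mono (by omega)
    have h4 : e 2 = 1 := by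
      have := e_two_mul 1
      have h5 : e 1 = 0 := by simp [e]
      rw [h5] at this
      simpa using this
    omega
  omega

/-- `B_m` -/
noncomputable def B (m : ℕ) : ℤ := ∑ j ∈ range (m + 1), (c j m : ℤ) ^ 2

lemma sq_odd_mod {x : ℕ} (h : Odd x) : (4 : ℤ) ∣ (x : ℤ) ^ 2 - 1 := by
  obtain ⟨k, rfl⟩ := h
  exact ⟨k ^ 2 + k, by push_cast; ring⟩

lemma sq_even_mod {x : ℕ} (h : Even x) : (4 : ℤ) ∣ (x : ℤ) ^ 2 := by
  obtain ⟨k, rfl⟩ := h
  exact ⟨k ^ 2, by push_cast; ring⟩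

lemma B_mod (m : ℕ) : (4 : ℤ) ∣ B m - (if Even m then 1 else 2) := by
  rcases m with _ | m
  · simp [B, c, P, e_zero]
  · unfold B
    rw [sum_range_succ, sum_range_succ]
    have h1 : (4 : ℤ) ∣ ∑ j ∈ range m, (c j (m + 1) : ℤ) ^ 2 := by
      apply dvd_sum
      intro j hj
      exact sq_even_mod (c_even j (m + 1) (by have := mem_range.mp hj; omega))
    have h2 := sq_odd_mod (c_self_odd (m + 1))
    rcases Nat.even_or_odd (m + 1) with he | ho
    · rw [if_pos he]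
      have h3 : (4 : ℤ) ∣ (c m (m + 1) : ℤ) ^ 2 := by
        apply sq_even_mod
        rw [← Nat.not_odd_iff_even, c_pred, Nat.not_odd_iff_even]
        exact he
      obtain ⟨x, hx⟩ := h1
      obtain ⟨y, hy⟩ := h2
      obtain ⟨z, hz⟩ := h3
      exact ⟨x + y + z, by linear_combination hx + hy + hz⟩
    · rw [if_neg (Nat.not_even_iff_odd.mpr ho)]
      have h3 := sq_odd_mod ((c_pred m).mpr ho)
      obtain ⟨x, hx⟩ := h1
      obtain ⟨y, hy⟩ := h2
      obtain ⟨z, hz⟩ := h3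
      exact ⟨x + y + z, by linear_combination hx + hy + hz⟩

lemma c_cast (j m : ℕ) (h : j ≤ m) : (c j m : ℚ) = (P j m : ℚ) * 2 ^ e m / 2 ^ j := by
  rw [eq_div_iff (by positivity)]
  exact_mod_cast c_eq j m h

lemma B_eq (m : ℕ) : (B m : ℚ) = 4 ^ e m * A m (1 / 4 : ℚ) := by
  unfold B A
  push_cast
  rw [mul_sum]
  refine sum_congr rfl (fun j hj => ?_)
  rw [c_cast j m (by have := mem_range.mp hj; omega)]
  unfold P
  push_cast
  rw [div_pow, div_pow, mul_pow, mul_pow, ← pow_mul, ← pow_mul, show (4 : ℚ) = 2 ^ 2 by norm_num,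
    ← pow_mul, ← pow_mul, one_pow]
  rw [mul_comm 2 (e m), mul_comm 2 j]
  ring

/-- `F_m` -/
noncomputable def F (m : ℕ) : ℤ := ∑ j ∈ range (m + 1), (-1) ^ j * (c j m : ℤ) * 2 ^ (m - j)

lemma F_odd (m : ℕ) : Odd (F m) := by
  unfold F
  rw [sum_range_succ, Nat.sub_self, pow_zero, mul_one]
  apply Even.add_odd
  · rw [even_iff_two_dvd]
    apply dvd_sum
    intro j hj
    apply Dvd.dvd.mul_left
    exact dvd_pow_self 2 (by have := mem_range.mp hj; omega)
  · have h1 : Odd ((-1 : ℤ) ^ m) := Odd.pow (by decide)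
    have h2 : Odd ((c m m : ℕ) : ℤ) := by exact_mod_cast c_self_odd m
    exact h1.mul h2

lemma F_eq (m : ℕ) : (F m : ℚ) = 2 ^ (m + e m) * D m (-1 / 4 : ℚ) := by
  unfold F
  rw [D_eq]
  push_cast
  rw [mul_sum]
  refine sum_congr rfl (fun j hj => ?_)
  have hj' : j ≤ m := by have := mem_range.mp hj; omega
  rw [c_cast j m hj', div_pow, show (4 : ℚ) = 2 ^ 2 by norm_num, ← pow_mul]
  have h2 : (2 : ℚ) ^ m = 2 ^ (m - j) * 2 ^ j := by rw [← pow_add]; congr 1; omega
  have h3 : (2 : ℚ) ^ (2 * j) = 2 ^ j * 2 ^ j := by rw [← pow_add]; congr 1; omega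
  rw [pow_add, h2, h3]
  field_simp

lemma sumN (n : ℕ) : ∃ N : ℤ, (N : ℚ) = 4 ^ e n * ∑ m ∈ range (n + 1), (2 * (m : ℚ) + 1) * (-1) ^ m * A m (1 / 4) ∧
    (4 : ℤ) ∣ N - (if Even n then 1 else 3) := by
  induction n with
  | zero =>
    refine ⟨1, ?_, by norm_num⟩
    simp [e_zero, A]
  | succ n ih =>
    obtain ⟨N, hN, hd⟩ := ih
    refine ⟨4 ^ padicValNat 2 (n + 1) * N + (2 * ((n : ℤ) + 1) + 1) * (-1) ^ (n + 1) * B (n + 1), ?_, ?_⟩
    · rw [sum_range_succ, mul_add, e_succ]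
      push_cast
      rw [hN, B_eq, e_succ]
      ring
    · have hB := B_mod (n + 1)
      rcases Nat.even_or_odd n with he | ho
      · have ho1 : Odd (n + 1) := he.add_one
        rw [if_pos he] at hd
        rw [if_neg (Nat.not_even_iff_odd.mpr ho1)] at hB ⊢
        rw [(odd_iff_val (n + 1) (by omega)).mp ho1, ho1.neg_one_pow]
        obtain ⟨k, hk⟩ := he
        obtain ⟨x, hx⟩ := hd
        obtain ⟨y, hy⟩ := hB
        have hB' : B (n + 1) = 2 + 4 * y := by linear_combination hy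
        have hN' : N = 1 + 4 * x := by linear_combination hx
        rw [hB', hN', hk]
        refine ⟨x - (4 * k + 3) * y - 2 * k - 2, ?_⟩
        push_cast
        ring
      · have he1 : Even (n + 1) := ho.add_one
        rw [if_neg (Nat.not_even_iff_odd.mpr ho)] at hd
        rw [if_pos he1] at hB ⊢
        rw [he1.neg_one_pow]
        have hv : padicValNat 2 (n + 1) ≠ 0 := by
          intro h0
          have := (odd_iff_val (n + 1) (by omega)).mpr h0
          exact (Nat.not_even_iff_odd.mpr this) he1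
        obtain ⟨v, hv'⟩ := Nat.exists_eq_succ_of_ne_zero hv
        rw [hv', pow_succ]
        obtain ⟨k, hk⟩ := ho
        obtain ⟨y, hy⟩ := hB
        have hB' : B (n + 1) = 1 + 4 * y := by linear_combination hy
        rw [hB', hk]
        refine ⟨4 ^ v * N + (4 * k + 5) * y + k + 1, ?_⟩
        push_cast
        ring

lemma sumN' (n : ℕ) : ∃ N : ℤ, (N : ℚ) = 2 ^ (3 * (n + e n)) *
    ∑ m ∈ range (n + 1), (2 * (m : ℚ) + 1) * (-1) ^ m * D m (-1 / 4) ^ 3 ∧ Odd N := by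
  induction n with
  | zero =>
    refine ⟨1, ?_, by norm_num⟩
    simp [e_zero, D]
  | succ n ih =>
    obtain ⟨N, hN, hd⟩ := ih
    refine ⟨2 ^ (3 * (1 + padicValNat 2 (n + 1))) * N + (2 * ((n : ℤ) + 1) + 1) * (-1) ^ (n + 1) * F (n + 1) ^ 3, ?_, ?_⟩
    · rw [sum_range_succ, mul_add, e_succ]
      push_cast
      rw [hN, F_eq, e_succ]
      ring
    · apply Even.add_odd
      · apply Even.mul_right
        rw [even_iff_two_dvd]
        exact dvd_pow_self 2 (by omega)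
      · apply Odd.mul
        · apply Odd.mul
          · exact ⟨n + 1, by ring⟩
          · exact Odd.pow (by decide)
        · exact (F_odd (n + 1)).pow

/-- extracting the reduced form -/
lemma reduced (r : ℚ) (o : ℕ) (E K : ℕ) (N v : ℤ) (ho : Odd o) (hN : Odd N)
    (h1 : (N : ℚ) = r * o * 2 ^ E) (h2 : 2 ^ K * r = (v : ℚ)) :
    r.den = 2 ^ E ∧ r.num * o = N ∧ 2 ^ K * r.num = v * 2 ^ E := by
  have hcop : IsCoprime (2 : ℤ) (o : ℤ) := by
    rw [Int.isCoprime_iff_gcd_eq_one]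
    have := Nat.coprime_two_left.mpr ho
    simpa [Int.gcd, Nat.Coprime] using this
  have e1 : v * o * 2 ^ E = 2 ^ K * N := by
    have : (v : ℚ) * o * 2 ^ E = 2 ^ K * N := by rw [h1, ← h2]; ring
    exact_mod_cast this
  have hd : (o : ℤ) ∣ N := by
    have : (o : ℤ) ∣ 2 ^ K * N := ⟨v * 2 ^ E, by rw [← e1]; ring⟩
    exact (hcop.symm.pow_right).dvd_of_dvd_mul_left this
  obtain ⟨M, hM⟩ := hd
  have ho0 : (o : ℚ) ≠ 0 := by
    have := ho.pos
    exact_mod_cast this.ne'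
  have hr : r = ((M : ℤ) : ℚ) / ((2 ^ E : ℤ) : ℚ) := by
    rw [eq_div_iff (by positivity)]
    apply mul_right_cancel₀ ho0
    push_cast
    rw [hM] at h1
    push_cast at h1
    linear_combination -h1
  have hMo : Odd M := by
    rw [hM] at hN
    exact (Int.odd_mul.mp hN).2
  have hc : Nat.Coprime M.natAbs ((2 : ℤ) ^ E).natAbs := by
    rw [Int.natAbs_pow]
    apply Nat.Coprime.pow_right
    have : Odd M.natAbs := by exact Int.natAbs_odd.mpr hMo
    exact Nat.coprime_two_right.mpr this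
  have hden := Rat.den_div_eq_of_coprime (a := M) (b := 2 ^ E) (by positivity) hc
  have hnum := Rat.num_div_eq_of_coprime (a := M) (b := 2 ^ E) (by positivity) hc
  rw [← hr] at hden hnum
  refine ⟨by exact_mod_cast hden, by rw [hnum, hM]; ring, ?_⟩
  rw [hnum]
  have : (2 : ℚ) ^ K * M = v * 2 ^ E := by
    rw [← h2, hr]
    push_cast
    field_simp
  exact_mod_cast this

lemma n_split (n : ℕ) (hn : 0 < n) : ∃ o : ℕ, Odd o ∧ n = 2 ^ padicValNat 2 n * o := by
  obtain ⟨o, ho⟩ := pow_padicValNat_dvd (p := 2) (n := n)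
  refine ⟨o, ?_, ho⟩
  have ho0 : 0 < o := by
    rcases Nat.eq_zero_or_pos o with h | h
    · rw [h, mul_zero] at ho; omega
    · exact h
  rw [odd_iff_val o ho0]
  have h1 := congrArg (padicValNat 2) ho
  rw [padicValNat.mul (by positivity) ho0.ne', padicValNat.prime_pow] at h1
  omega

lemma odd_sq_mod {o : ℕ} (h : Odd o) : (4 : ℤ) ∣ (o : ℤ) ^ 2 - 1 := sq_odd_mod h

/-- items 1, 2 for `s` -/
lemma s_main (n : ℕ) (hn : 0 < n) : (s n).den = 2 ^ (2 * padicValNat 2 n.factorial) ∧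
    (4 : ℤ) ∣ (s n).num - (if Odd n then 1 else 3) ∧ (3 : ℤ) ∣ (s n).num - 1 := by
  obtain ⟨m, rfl⟩ := Nat.exists_eq_add_of_le' (show 1 ≤ n from hn)
  obtain ⟨N, hN, hd⟩ := sumN m
  obtain ⟨v, hv, hv3⟩ := s_mod3 (m + 1) (by omega)
  obtain ⟨o, ho, hno⟩ := n_split (m + 1) hn
  have hes := e_succ m
  have hn0 : ((m + 1 : ℕ) : ℚ) ≠ 0 := by exact_mod_cast (by omega : m + 1 ≠ 0)
  have h1 : (N : ℚ) = s (m + 1) * ((o ^ 2 : ℕ) : ℚ) * 2 ^ (2 * e (m + 1)) := by
    have hs : ∑ k ∈ range (m + 1), (2 * (k : ℚ) + 1) * (-1) ^ k * A k (1 / 4) =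
        s (m + 1) * ((m + 1 : ℕ) : ℚ) ^ 2 := by
      unfold s
      field_simp
    rw [hN, hs]
    have h2 : ((m + 1 : ℕ) : ℚ) = 2 ^ padicValNat 2 (m + 1) * o := by exact_mod_cast hno
    rw [h2, hes, show (4 : ℚ) = 2 ^ 2 by norm_num, ← pow_mul]
    push_cast
    ring
  have h2 : (2 : ℚ) ^ (2 * m) * s (m + 1) = (v : ℚ) := by
    rw [pow_mul, show (2 : ℚ) ^ 2 = 4 by norm_num]
    exact hv
  have hodd : Odd N := by
    obtain ⟨x, hx⟩ := hd
    split_ifs at hx
    · exact ⟨2 * x, by linear_combination hx⟩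
    · exact ⟨2 * x + 1, by linear_combination hx⟩
  obtain ⟨r1, r2, r3⟩ := reduced (s (m + 1)) (o ^ 2) (2 * e (m + 1)) (2 * m) N v ho.pow hodd h1 h2
  refine ⟨r1, ?_, ?_⟩
  · have h4 := odd_sq_mod ho
    have e1 : (if Odd (m + 1) then (1 : ℤ) else 3) = if Even m then 1 else 3 := by
      rcases Nat.even_or_odd m with h | h
      · rw [if_pos h, if_pos h.add_one]
      · rw [if_neg (Nat.not_even_iff_odd.mpr h), if_neg (Nat.not_odd_iff_even.mpr h.add_one)]
    rw [e1]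
    obtain ⟨x, hx⟩ := hd
    obtain ⟨y, hy⟩ := h4
    push_cast at r2
    exact ⟨x - (s (m + 1)).num * y, by linear_combination hx - (s (m + 1)).num * hy + r2⟩
  · have f1 : (3 : ℤ) ∣ 4 ^ m - 1 ^ m := dvd_trans (by norm_num) (sub_dvd_pow_sub_pow _ _ _)
    have f2 : (3 : ℤ) ∣ 4 ^ (e (m + 1)) - 1 ^ (e (m + 1)) := dvd_trans (by norm_num) (sub_dvd_pow_sub_pow _ _ _)
    rw [one_pow] at f1 f2
    rw [pow_mul, pow_mul, show (2 : ℤ) ^ 2 = 4 by norm_num] at r3
    obtain ⟨x, hx⟩ := hv3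
    obtain ⟨y, hy⟩ := f1
    obtain ⟨z, hz⟩ := f2
    refine ⟨v * z + x - (s (m + 1)).num * y, ?_⟩
    linear_combination r3 + v * hz + hx - (s (m + 1)).num * hy

/-- integrality of `64^(n-1) t(n)` -/
lemma t_int (n : ℕ) (hn : 0 < n) : 64 ^ (n - 1) * t n = ((∑ k ∈ range n, ((n - 1).choose k : ℤ) *
    ((n + k).choose k : ℤ) * ((-3) ^ k * om k * 64 ^ (n - 1 - k)) : ℤ) : ℚ) := by
  rw [t_eq n hn]
  push_cast
  rw [mul_sum]
  refine sum_congr rfl (fun k hk => ?_)
  have hk' : k < n := mem_range.mp hk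
  have h4 : (64 : ℚ) ^ (n - 1) = 64 ^ (n - 1 - k) * 64 ^ k := by
    rw [← pow_add]; congr 1; omega
  rw [h4]
  field_simp

/-- item 1 for `t` -/
lemma t_main (n : ℕ) (hn : 0 < n) :
    (t n).den = 2 ^ (3 * (n - 1 + padicValNat 2 n.factorial) - padicValNat 2 n) := by
  obtain ⟨m, rfl⟩ := Nat.exists_eq_add_of_le' (show 1 ≤ n from hn)
  obtain ⟨N, hN, hodd⟩ := sumN' m
  have hv := t_int (m + 1) (by omega)
  obtain ⟨o, ho, hno⟩ := n_split (m + 1) hn
  have hes := e_succ m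
  have hn0 : ((m + 1 : ℕ) : ℚ) ≠ 0 := by exact_mod_cast (by omega : m + 1 ≠ 0)
  have hE : 3 * (m + 1 - 1 + padicValNat 2 (m + 1).factorial) - padicValNat 2 (m + 1) =
      3 * (m + e m) + 2 * padicValNat 2 (m + 1) := by
    have : padicValNat 2 (m + 1).factorial = e (m + 1) := rfl
    rw [this, hes]
    omega
  rw [hE]
  have h1 : (N : ℚ) = t (m + 1) * ((o ^ 2 : ℕ) : ℚ) * 2 ^ (3 * (m + e m) + 2 * padicValNat 2 (m + 1)) := by
    have hs : ∑ k ∈ range (m + 1), (2 * (k : ℚ) + 1) * (-1) ^ k * D k (-1 / 4) ^ 3 =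
        t (m + 1) * ((m + 1 : ℕ) : ℚ) ^ 2 := by
      unfold t
      field_simp
    rw [hN, hs]
    have h2 : ((m + 1 : ℕ) : ℚ) = 2 ^ padicValNat 2 (m + 1) * o := by exact_mod_cast hno
    rw [h2]
    push_cast
    ring
  obtain ⟨v, hvd⟩ : ∃ v : ℤ, (2 : ℚ) ^ (6 * m) * t (m + 1) = (v : ℚ) :=
    ⟨_, by rw [pow_mul, show (2 : ℚ) ^ 6 = 64 by norm_num]; exact hv⟩
  exact (reduced (t (m + 1)) (o ^ 2) _ (6 * m) N v ho.pow hodd h1 hvd).1

end Pool.Agent.V11308.DC
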