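import Pool.Agent.V11308.DC2

/-!
`3 ∣ Γ_k` for `k ≥ 1` and `4^(n-1) s(n) ≡ 1 (mod 3)`.
-/

namespace Pool.Agent.V11308.DC

open Finset Pool.Agent.V11308.Leg

lemma luc (N e J r : ℕ) (he : e < 3) (hr : r < 3) :
    (((3 * N + e).choose (3 * J + r) : ℕ) : ZMod 3) = (N.choose J : ZMod 3) * (e.choose r : ZMod 3) := by
  have : Fact (Nat.Prime 3) := ⟨Nat.prime_three⟩
  have h := Choose.choose_modEq_choose_mod_mul_choose_div_nat (n := 3 * N + e) (k := 3 * J + r) (p := 3)
  rw [show (3 * N + e) % 3 = e by omega, show (3 * J + r) % 3 = r by omega,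
    show (3 * N + e) / 3 = N by omega, show (3 * J + r) / 3 = J by omega] at h
  have h2 := (ZMod.natCast_eq_natCast_iff _ _ _).mpr h
  rw [h2]
  push_cast
  ring

lemma sum3 (f : ℕ → ZMod 3) (n : ℕ) : ∑ j ∈ range (3 * n), f j =
    ∑ J ∈ range n, (f (3 * J) + f (3 * J + 1) + f (3 * J + 2)) := by
  induction n with
  | zero => simp
  | succ n ih =>
    rw [show 3 * (n + 1) = 3 * n + 1 + 1 + 1 by ring, sum_range_succ, sum_range_succ, sum_range_succ, ih,
      sum_range_succ]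
    ring

/-- `g_k(1)` mod 3 -/
def G3 (k : ℕ) : ZMod 3 := ∑ j ∈ range (k + 1), (k.choose j : ZMod 3) ^ 2 * ((2 * j).choose j : ZMod 3)

/-- `Γ_k` mod 3 -/
def Ga3 (k : ℕ) : ZMod 3 := ∑ j ∈ range (k + 1), ((2 * j + 1).choose j : ZMod 3) *
  ((k.choose j : ZMod 3) * ((k.choose j : ZMod 3) - (k.choose (j + 1) : ZMod 3)))

lemma G3_ext (k n : ℕ) (h : k < n) : G3 k = ∑ j ∈ range n, (k.choose j : ZMod 3) ^ 2 *
    ((2 * j).choose j : ZMod 3) := by
  unfold G3
  apply sum_subset (range_subset_range.mpr (by omega))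
  intro j _ hj
  rw [Nat.choose_eq_zero_of_lt (show k < j by simpa using hj)]
  simp

lemma Ga3_ext (k n : ℕ) (h : k < n) : Ga3 k = ∑ j ∈ range n, ((2 * j + 1).choose j : ZMod 3) *
  ((k.choose j : ZMod 3) * ((k.choose j : ZMod 3) - (k.choose (j + 1) : ZMod 3))) := by
  unfold Ga3
  apply sum_subset (range_subset_range.mpr (by omega))
  intro j _ hj
  rw [Nat.choose_eq_zero_of_lt (show k < j by simpa using hj)]
  simp

lemma G3_lucas (K e : ℕ) (he : e < 3) : G3 (3 * K + e) = G3 K * G3 e := by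
  rw [G3_ext (3 * K + e) (3 * (K + 1)) (by omega), sum3, G3, sum_mul]
  refine sum_congr rfl (fun J _ => ?_)
  have a0 := luc K e J 0 he (by omega)
  have a1 := luc K e J 1 he (by omega)
  have a2 := luc K e J 2 he (by omega)
  have b0 := luc (2 * J) 0 J 0 (by omega) (by omega)
  have b1 := luc (2 * J) 2 J 1 (by omega) (by omega)
  have b2 := luc (2 * J + 1) 1 J 2 (by omega) (by omega)
  rw [add_zero] at a0
  rw [show 3 * (2 * J) + 0 = 2 * (3 * J) by ring, add_zero] at b0
  rw [show 3 * (2 * J) + 2 = 2 * (3 * J + 1) by ring] at b1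
  rw [show 3 * (2 * J + 1) + 1 = 2 * (3 * J + 2) by ring] at b2
  rw [a0, a1, a2, b0, b1, b2]
  have hG : G3 e = 1 + (e.choose 1 : ZMod 3) ^ 2 * 2 := by
    interval_cases e <;> decide
  rw [hG]
  simp
  ring

lemma G3_zero (k : ℕ) (hk : 0 < k) : G3 k = 0 := by
  induction k using Nat.strong_induction_on with
  | _ k ih =>
    have h := G3_lucas (k / 3) (k % 3) (Nat.mod_lt _ (by norm_num))
    rw [show 3 * (k / 3) + k % 3 = k by omega] at h
    rw [h]
    rcases Nat.eq_zero_or_pos (k / 3) with h0 | h0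
    · have : k % 3 = 1 ∨ k % 3 = 2 := by omega
      rcases this with h1 | h1 <;> rw [h1]
      · rw [show G3 1 = 0 by decide, mul_zero]
      · rw [show G3 2 = 0 by decide, mul_zero]
    · rw [ih (k / 3) (by omega) h0, zero_mul]

lemma Ga3_lucas (K e : ℕ) (he : e < 3) : Ga3 (3 * K + e) =
    if e = 0 then G3 K else if e = 1 then 0 else Ga3 K - G3 K := by
  rw [Ga3_ext (3 * K + e) (3 * (K + 1)) (by omega), sum3]
  have key : ∀ J, ((2 * (3 * J) + 1).choose (3 * J) : ZMod 3) * (((3 * K + e).choose (3 * J) : ZMod 3) *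
      (((3 * K + e).choose (3 * J) : ZMod 3) - ((3 * K + e).choose (3 * J + 1) : ZMod 3))) +
      ((2 * (3 * J + 1) + 1).choose (3 * J + 1) : ZMod 3) * (((3 * K + e).choose (3 * J + 1) : ZMod 3) *
      (((3 * K + e).choose (3 * J + 1) : ZMod 3) - ((3 * K + e).choose (3 * J + 1 + 1) : ZMod 3))) +
      ((2 * (3 * J + 2) + 1).choose (3 * J + 2) : ZMod 3) * (((3 * K + e).choose (3 * J + 2) : ZMod 3) *
      (((3 * K + e).choose (3 * J + 2) : ZMod 3) - ((3 * K + e).choose (3 * J + 2 + 1) : ZMod 3))) =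
      if e = 0 then (K.choose J : ZMod 3) ^ 2 * ((2 * J).choose J : ZMod 3) else if e = 1 then 0 else
      ((2 * J + 1).choose J : ZMod 3) *
        ((K.choose J : ZMod 3) * ((K.choose J : ZMod 3) - (K.choose (J + 1) : ZMod 3))) -
        (K.choose J : ZMod 3) ^ 2 * ((2 * J).choose J : ZMod 3) := by
    intro J
    have a0 := luc K e J 0 he (by omega)
    have a1 := luc K e J 1 he (by omega)
    have a2 := luc K e J 2 he (by omega)
    have a3 := luc K e (J + 1) 0 he (by omega)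
    have b0 := luc (2 * J) 1 J 0 (by omega) (by omega)
    have b1 := luc (2 * J + 1) 0 J 1 (by omega) (by omega)
    have b2 := luc (2 * J + 1) 2 J 2 (by omega) (by omega)
    rw [add_zero] at a0 b0 a3
    rw [show 3 * (2 * J) + 1 = 2 * (3 * J) + 1 by ring] at b0
    rw [show 3 * (2 * J + 1) + 0 = 2 * (3 * J + 1) + 1 by ring] at b1
    rw [show 3 * (2 * J + 1) + 2 = 2 * (3 * J + 2) + 1 by ring] at b2
    rw [show 3 * (J + 1) = 3 * J + 2 + 1 by ring] at a3
    rw [show 3 * J + 1 + 1 = 3 * J + 2 by ring, a0, a1, a2, a3, b0, b1, b2]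
    interval_cases e
    · simp
      ring
    · simp
    · have h1 : (((2 : ℕ).choose 1 : ℕ) : ZMod 3) = -1 := by decide
      simp only [h1]
      have h3 : (3 : ZMod 3) = 0 := by decide
      simp
      linear_combination (K.choose J : ZMod 3) ^ 2 * ((2 * J).choose J : ZMod 3) * h3
  rw [sum_congr rfl (fun J _ => key J)]
  interval_cases e
  · rfl
  · simp
  · rw [if_neg (by norm_num), if_neg (by norm_num)]
    have : ∀ J, (if (2 : ℕ) = 0 then (K.choose J : ZMod 3) ^ 2 * ((2 * J).choose J : ZMod 3) else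
        if (2 : ℕ) = 1 then 0 else
        ((2 * J + 1).choose J : ZMod 3) *
        ((K.choose J : ZMod 3) * ((K.choose J : ZMod 3) - (K.choose (J + 1) : ZMod 3))) -
        (K.choose J : ZMod 3) ^ 2 * ((2 * J).choose J : ZMod 3)) =
        ((2 * J + 1).choose J : ZMod 3) *
        ((K.choose J : ZMod 3) * ((K.choose J : ZMod 3) - (K.choose (J + 1) : ZMod 3))) -
        (K.choose J : ZMod 3) ^ 2 * ((2 * J).choose J : ZMod 3) := by
      intro J
      rw [if_neg (by norm_num), if_neg (by norm_num)]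
    rw [sum_congr rfl (fun J _ => this J), sum_sub_distrib]
    rfl

lemma Ga3_zero (k : ℕ) (hk : 0 < k) : Ga3 k = 0 := by
  induction k using Nat.strong_induction_on with
  | _ k ih =>
    have h := Ga3_lucas (k / 3) (k % 3) (Nat.mod_lt _ (by norm_num))
    rw [show 3 * (k / 3) + k % 3 = k by omega] at h
    rw [h]
    split_ifs with h0 h1
    · exact G3_zero _ (by omega)
    · rfl
    · rcases Nat.eq_zero_or_pos (k / 3) with h2 | h2
      · rw [h2]; decide
      · rw [ih (k / 3) (by omega) h2, G3_zero _ h2, sub_zero]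

lemma three_dvd_Gam (k : ℕ) (hk : 0 < k) : (3 : ℤ) ∣ Gam k := by
  have h := Ga3_zero k hk
  have : ((Gam k : ℤ) : ZMod 3) = Ga3 k := by
    unfold Gam Ga3
    push_cast
    refine sum_congr rfl (fun j _ => ?_)
    rw [show (4 : ZMod 3) = 1 by decide, one_pow]
    ring
  rw [h] at this
  exact (ZMod.intCast_zmod_eq_zero_iff_dvd _ _).mp this

lemma s_mod3 (n : ℕ) (hn : 0 < n) : ∃ v : ℤ, 4 ^ (n - 1) * s n = v ∧ (3 : ℤ) ∣ v - 1 := by
  refine ⟨∑ k ∈ range n, ((n - 1).choose k : ℤ) *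
    ((n + k).choose k : ℤ) * ((-1) ^ k * Gam k * 4 ^ (n - 1 - k)), ?_, ?_⟩
  · rw [s_eq n hn]
    push_cast
    rw [mul_sum]
    refine sum_congr rfl (fun k hk => ?_)
    have hk' : k < n := mem_range.mp hk
    have h4 : (4 : ℚ) ^ (n - 1) = 4 ^ (n - 1 - k) * 4 ^ k := by
      rw [← pow_add]; congr 1; omega
    rw [h4]
    field_simp
  · obtain ⟨m, rfl⟩ := Nat.exists_eq_add_of_le' (show 1 ≤ n from hn)
    rw [sum_range_succ']
    have h1 : (3 : ℤ) ∣ ∑ k ∈ range m, ((m + 1 - 1).choose (k + 1) : ℤ) *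
        ((m + 1 + (k + 1)).choose (k + 1) : ℤ) * ((-1) ^ (k + 1) * Gam (k + 1) * 4 ^ (m + 1 - 1 - (k + 1))) := by
      apply dvd_sum
      intro k _
      apply Dvd.dvd.mul_left
      apply Dvd.dvd.mul_right
      exact Dvd.dvd.mul_left (three_dvd_Gam _ (by omega)) _
    have h2 : (3 : ℤ) ∣ 4 ^ m - 1 ^ m := dvd_trans (by norm_num) (sub_dvd_pow_sub_pow _ _ _)
    obtain ⟨x, hx⟩ := h1
    obtain ⟨y, hy⟩ := h2
    refine ⟨x + y, ?_⟩
    rw [hx]
    have : Gam 0 = 1 := by decide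
    rw [this]
    rw [one_pow] at hy
    simp
    linear_combination hy

end Pool.Agent.V11308.DC
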