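import Pool.Agent.V11308.DC3

/-!
`t(3^a)` modulo `243` and `t(p^a)` modulo `p`.
-/

namespace Pool.Agent.V11308.DC

open Finset Pool.Agent.V11308.Leg

lemma om_vals : om 0 = 1 ∧ om 1 = 6 ∧ om 2 = 60 ∧ om 3 = 732 ∧ om 4 = 9972 := by
  refine ⟨?_, ?_, ?_, ?_, ?_⟩ <;>
  · simp [om, sum_range_succ, catalan_eq_centralBinom_div, Nat.centralBinom, Nat.choose]

lemma cc1 (q : ℕ) (hq : 4 < q) : ((q - 1).choose 1 : ℤ) * ((q + 1).choose 1 : ℤ) = (q : ℤ) ^ 2 - 1 := by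
  obtain ⟨m, rfl⟩ := Nat.exists_eq_add_of_lt hq
  simp
  ring

lemma ch2 (m : ℕ) : 2 * ((m + 2).choose 2 : ℤ) = (m + 2) * (m + 1) := by
  have h := Nat.add_one_mul_choose_eq (m + 1) 1
  rw [Nat.choose_one_right] at h
  have h2 := congrArg (Nat.cast : ℕ → ℤ) h
  push_cast at h2
  linear_combination -h2

lemma ch3 (m : ℕ) : 6 * ((m + 3).choose 3 : ℤ) = (m + 3) * (m + 2) * (m + 1) := by
  have h := Nat.add_one_mul_choose_eq (m + 2) 2
  have h1 := ch2 m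
  have h2 := congrArg (Nat.cast : ℕ → ℤ) h
  push_cast at h2
  linear_combination (-2) * h2 + ((m : ℤ) + 3) * h1

lemma cc2 (q : ℕ) (hq : 4 < q) : 4 * (((q - 1).choose 2 : ℤ) * ((q + 2).choose 2 : ℤ)) =
    ((q : ℤ) ^ 2 - 1) * ((q : ℤ) ^ 2 - 4) := by
  obtain ⟨m, hm⟩ : ∃ m, q = m + 3 := ⟨q - 3, by omega⟩
  subst hm
  have h1 := ch2 m
  have h2 := ch2 (m + 3)
  rw [show m + 3 - 1 = m + 2 by omega]
  push_cast at h1 h2 ⊢
  calc 4 * (((m + 2).choose 2 : ℤ) * ((m + 3 + 2).choose 2 : ℤ)) =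
      (2 * ((m + 2).choose 2 : ℤ)) * (2 * ((m + 3 + 2).choose 2 : ℤ)) := by ring
    _ = _ := by rw [h1, h2]; ring

lemma cc3 (q : ℕ) (hq : 4 < q) : 36 * (((q - 1).choose 3 : ℤ) * ((q + 3).choose 3 : ℤ)) =
    ((q : ℤ) ^ 2 - 1) * ((q : ℤ) ^ 2 - 4) * ((q : ℤ) ^ 2 - 9) := by
  obtain ⟨m, hm⟩ : ∃ m, q = m + 4 := ⟨q - 4, by omega⟩
  subst hm
  have h1 := ch3 m
  have h2 := ch3 (m + 4)
  rw [show m + 4 - 1 = m + 3 by omega]
  push_cast at h1 h2 ⊢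
  calc 36 * (((m + 3).choose 3 : ℤ) * ((m + 4 + 3).choose 3 : ℤ)) =
      (6 * ((m + 3).choose 3 : ℤ)) * (6 * ((m + 4 + 3).choose 3 : ℤ)) := by ring
    _ = _ := by rw [h1, h2]; ring

/-- `64^(n-1) t(n)` -/
def V (n : ℕ) : ℤ := ∑ k ∈ range n, ((n - 1).choose k : ℤ) *
    ((n + k).choose k : ℤ) * ((-3) ^ k * om k * 64 ^ (n - 1 - k))

lemma t_V (n : ℕ) (hn : 0 < n) : ((64 ^ (n - 1) : ℤ) : ℚ) * t n = (V n : ℚ) := by
  have := t_int n hn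
  unfold V
  rw [← this]
  push_cast
  rfl

lemma t_mod243 (a : ℕ) (ha : 0 < a) : CongQ (t (3 ^ a)) (-8) 243 := by
  have hc : IsCoprime (64 ^ (3 ^ a - 1) : ℤ) 243 := by
    apply IsCoprime.pow_left
    exact ⟨19, -5, by norm_num⟩
  obtain ⟨o0, o1, o2, o3, o4⟩ := om_vals
  refine congQ_of _ (-8) 243 _ _ hc (t_V (3 ^ a) (by positivity)) ?_
  unfold V
  rcases Nat.lt_or_ge a 2 with h | h
  · have : a = 1 := by omega
    subst this
    norm_num [sum_range_succ, o0, o1, o2, Nat.choose]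
  · obtain ⟨b, rfl⟩ := Nat.exists_eq_add_of_le' h
    set q := 3 ^ (b + 2) with hqd
    have hq9 : q = 9 * 3 ^ b := by rw [hqd, pow_add]; ring
    have hb : 0 < 3 ^ b := by positivity
    have hq4 : 4 < q := by omega
    have c1 := cc1 q hq4
    have c2 := cc2 q hq4
    have c3 := cc3 q hq4
    obtain ⟨m, hm⟩ : ∃ m, q = m + 1 + 1 + 1 + 1 + 1 := ⟨q - 5, by omega⟩
    have hr : range q = range (m + 1 + 1 + 1 + 1 + 1) := by rw [hm]
    rw [hr, sum_range_succ', sum_range_succ', sum_range_succ', sum_range_succ', sum_range_succ']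
    simp only [zero_add, Nat.reduceAdd]
    rw [o0, o1, o2, o3, o4]
    have hdd : (243 : ℤ) ∣ ∑ k ∈ range m, ((q - 1).choose (k + 1 + 1 + 1 + 1 + 1) : ℤ) *
      ((q + (k + 1 + 1 + 1 + 1 + 1)).choose (k + 1 + 1 + 1 + 1 + 1) : ℤ) *
      ((-3) ^ (k + 1 + 1 + 1 + 1 + 1) * om (k + 1 + 1 + 1 + 1 + 1) * 64 ^ (q - 1 - (k + 1 + 1 + 1 + 1 + 1))) := by
      apply dvd_sum
      intro k _
      apply Dvd.dvd.mul_left
      apply Dvd.dvd.mul_right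
      apply Dvd.dvd.mul_right
      rw [show k + 1 + 1 + 1 + 1 + 1 = 5 + k by ring, pow_add]
      exact Dvd.dvd.mul_right (by norm_num) _
    obtain ⟨w, hw⟩ := hdd
    rw [hw]
    have e0 : (64 : ℤ) ^ (q - 1) = 64 ^ 3 * 64 ^ (q - 4) := by rw [← pow_add]; congr 1; omega
    have e1 : (64 : ℤ) ^ (q - 1 - 1) = 64 ^ 2 * 64 ^ (q - 4) := by rw [← pow_add]; congr 1; omega
    have e2 : (64 : ℤ) ^ (q - 1 - 2) = 64 * 64 ^ (q - 4) := by rw [← pow_succ']; congr 1; omega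
    have e3 : (64 : ℤ) ^ (q - 1 - 3) = 64 ^ (q - 4) := by congr 1
    rw [Nat.sub_zero, e0, e1, e2, e3]
    generalize (64 : ℤ) ^ (q - 4) = z
    have hq2 : (q : ℤ) ^ 2 = 81 * ((3 ^ b : ℕ) : ℤ) ^ 2 := by rw [hq9]; push_cast; ring
    rw [hq2] at c1 c2 c3
    generalize ((3 ^ b : ℕ) : ℤ) ^ 2 = y at c1 c2 c3
    generalize ((q - 1).choose 1 : ℤ) * ((q + 1).choose 1 : ℤ) = x1 at c1 ⊢
    generalize ((q - 1).choose 2 : ℤ) * ((q + 2).choose 2 : ℤ) = x2 at c2 ⊢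
    generalize ((q - 1).choose 3 : ℤ) * ((q + 3).choose 3 : ℤ) = x3 at c3 ⊢
    have d2 : ∃ k, x2 = 1 + 81 * k := by
      have : (81 : ℤ) ∣ 4 * (x2 - 1) := ⟨81 * y ^ 2 - 5 * y, by linear_combination c2⟩
      have h2 : (81 : ℤ) ∣ x2 - 1 := by omega
      obtain ⟨k, hk⟩ := h2
      exact ⟨k, by linear_combination hk⟩
    have d3 : ∃ k, x3 = -1 + 9 * k := by
      have e4 : 4 * x3 = (81 * y - 1) * (81 * y - 4) * (9 * y - 1) := by
        have : 9 * (4 * x3) = 9 * ((81 * y - 1) * (81 * y - 4) * (9 * y - 1)) := by linear_combination c3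
        linarith
      have : (9 : ℤ) ∣ 4 * (x3 + 1) := ⟨6561 * y ^ 3 - 1134 * y ^ 2 + 49 * y, by linear_combination e4⟩
      have h2 : (9 : ℤ) ∣ x3 + 1 := by omega
      obtain ⟨k, hk⟩ := h2
      exact ⟨k, by linear_combination hk⟩
    obtain ⟨k2, hk2⟩ := d2
    obtain ⟨k3, hk3⟩ := d3
    rw [c1, hk2, hk3]
    generalize ((q - 1).choose 4 : ℤ) * ((q + 4).choose 4 : ℤ) = x4
    generalize (64 : ℤ) ^ (q - 1 - 4) = z4
    refine ⟨w + 3324 * x4 * z4 + z * (10236 - 24576 * y + 11520 * k2 - 732 * k3), ?_⟩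
    simp only [Nat.choose_zero_right, pow_zero, pow_one]
    push_cast
    ring

end Pool.Agent.V11308.DC
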