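import Pool.Agent.V11308.DC5

/-!
`t(p^a)` modulo `p`, `p ≥ 5`.
-/

namespace Pool.Agent.V11308.DC

open Finset Pool.Agent.V11308.Leg Polynomial

lemma conv_cent (n : ℕ) : ∑ r ∈ range (n + 1), ((2 * r).choose r : ℤ) * ((2 * (n - r)).choose (n - r) : ℤ) =
    4 ^ n := by
  have h1 : ∀ r ∈ range (n + 1), ((2 * r).choose r : ℤ) * ((2 * (n - r)).choose (n - r) : ℤ) =
      ((((n.choose r : ℕ) : ℤ[X]) * (((1 + X) ^ 2) ^ r * (-(1 - X) ^ 2) ^ (n - r)))).coeff n := by
    intro r hr
    have hr' : r ≤ n := by have := mem_range.mp hr; omega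
    rw [← sc_choose n r hr']
    unfold sc
    rw [show r + (n - r) = n by omega, neg_pow ((1 - X : ℤ[X]) ^ 2)]
    have : (((n.choose r : ℕ) : ℤ[X]) * (((1 + X) ^ 2) ^ r * ((-1) ^ (n - r) * ((1 - X) ^ 2) ^ (n - r)))) =
        C ((n.choose r : ℤ) * (-1) ^ (n - r)) * ((1 + X) ^ (2 * r) * (1 - X) ^ (2 * (n - r))) := by
      simp only [C_mul, C_pow, C_neg, C_1, map_natCast, ← pow_mul]
      ring
    rw [this, coeff_C_mul]
    ring
  rw [sum_congr rfl h1, ← finsetSum_coeff]
  have h2 := add_pow ((1 + X : ℤ[X]) ^ 2) (-(1 - X) ^ 2) n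
  have h3 : ∑ m ∈ range (n + 1), ((n.choose m : ℕ) : ℤ[X]) * (((1 + X) ^ 2) ^ m * (-(1 - X) ^ 2) ^ (n - m)) =
      (C 4 * X) ^ n := by
    have e : ((1 + X : ℤ[X]) ^ 2) + (-(1 - X) ^ 2) = C 4 * X := by
      have : (C 4 : ℤ[X]) = 4 := rfl
      rw [this]; ring
    rw [← e, h2]
    exact sum_congr rfl (fun m _ => by ring)
  rw [h3, mul_pow, ← C_pow, coeff_C_mul, coeff_X_pow_self, mul_one]

lemma vand (h n : ℕ) : ∑ r ∈ range (n + 1), (h.choose r : ℤ) * (h.choose (n - r) : ℤ) =
    ((2 * h).choose n : ℤ) := by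
  have := Nat.add_choose_eq h h n
  rw [Finset.Nat.sum_antidiagonal_eq_sum_range_succ_mk] at this
  rw [two_mul, this]
  push_cast
  rfl

lemma conv_split {R : Type*} [CommRing R] (f : ℕ → R) (m : ℕ) :
    ∑ r ∈ range (m + 1 + 1), f r * f (m + 1 - r) =
    2 * f 0 * f (m + 1) + ∑ r ∈ range m, f (r + 1) * f (m - r) := by
  rw [sum_range_succ, sum_range_succ', Nat.sub_self, Nat.sub_zero]
  have : ∀ r ∈ range m, f (r + 1) * f (m + 1 - (r + 1)) = f (r + 1) * f (m - r) := by
    intro r _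
    rw [show m + 1 - (r + 1) = m - r by omega]
  rw [sum_congr rfl this]
  ring

section modp
variable (p a h : ℕ) [hp : Fact p.Prime]

lemma choose_pred (hq : 0 < p ^ a) (k : ℕ) (hk : k < p ^ a) :
    (((p ^ a - 1).choose k : ℕ) : ZMod p) = (-1) ^ k := by
  induction k with
  | zero => simp
  | succ k ih =>
    have h1 := ih (by omega)
    have h2 := choose_q_dvd p a (k + 1) (by omega) hk
    have h3 : (((p ^ a).choose (k + 1) : ℕ) : ZMod p) = 0 := by
      rw [ZMod.natCast_eq_zero_iff]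
      exact_mod_cast h2
    obtain ⟨m, hm⟩ : ∃ m, p ^ a = m + 1 := ⟨p ^ a - 1, by omega⟩
    rw [hm, Nat.choose_succ_succ] at h3
    rw [hm, show m + 1 - 1 = m by omega] at h1 ⊢
    push_cast at h3
    rw [h1] at h3
    rw [pow_succ]
    linear_combination h3

lemma choose_sum (k : ℕ) (hk : k < p ^ a) : (((p ^ a + k).choose k : ℕ) : ZMod p) = 1 := by
  rw [choose_q_add p a k k hk, Nat.choose_self]
  simp

lemma two_ne (hodd : p ≠ 2) : (2 : ZMod p) ≠ 0 := by
  intro h0
  have : ((2 : ℕ) : ZMod p) = 0 := by exact_mod_cast h0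
  have := (ZMod.natCast_eq_zero_iff _ _).mp this
  exact hodd ((Nat.prime_dvd_prime_iff_eq hp.out Nat.prime_two).mp this)

lemma three_ne (hodd : p ≠ 3) : (3 : ZMod p) ≠ 0 := by
  intro h0
  have : ((3 : ℕ) : ZMod p) = 0 := by exact_mod_cast h0
  have := (ZMod.natCast_eq_zero_iff _ _).mp this
  exact hodd ((Nat.prime_dvd_prime_iff_eq hp.out Nat.prime_three).mp this)

lemma cent_eq (hodd : p ≠ 2) (hh : p ^ a = 2 * h + 1) (r : ℕ) (hr : r < p ^ a) :
    (((2 * r).choose r : ℕ) : ZMod p) = (-4) ^ r * (h.choose r : ZMod p) := by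
  induction r using Nat.strong_induction_on with
  | _ r ih =>
    rcases r with _ | m
    · simp
    · have h1 := congrArg (Int.cast : ℤ → ZMod p) (conv_cent (m + 1))
      have h2 := congrArg (Int.cast : ℤ → ZMod p) (vand h (m + 1))
      push_cast at h1 h2
      have h3 := conv_split (fun r => (((2 * r).choose r : ℕ) : ZMod p)) m
      have h4 := conv_split (fun r => (-4) ^ r * (h.choose r : ZMod p)) m
      have e1 : ∑ r ∈ range (m + 1 + 1), ((-4) ^ r * (h.choose r : ZMod p)) *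
          ((-4) ^ (m + 1 - r) * (h.choose (m + 1 - r) : ZMod p)) = 4 ^ (m + 1) := by
        have : ∀ r ∈ range (m + 1 + 1), ((-4) ^ r * (h.choose r : ZMod p)) *
          ((-4) ^ (m + 1 - r) * (h.choose (m + 1 - r) : ZMod p)) =
          (-4) ^ (m + 1) * ((h.choose r : ZMod p) * (h.choose (m + 1 - r) : ZMod p)) := by
          intro r hr
          have hr' : r ≤ m + 1 := by have := mem_range.mp hr; omega
          have : (-4 : ZMod p) ^ (m + 1) = (-4) ^ r * (-4) ^ (m + 1 - r) := by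
            rw [← pow_add]; congr 1; omega
          rw [this]; ring
        rw [sum_congr rfl this, ← mul_sum, h2]
        have h5 := choose_pred p a (by omega) (m + 1) hr
        rw [hh, show 2 * h + 1 - 1 = 2 * h by omega] at h5
        rw [h5, ← mul_pow]
        norm_num
      have e2 : ∑ r ∈ range m, (((2 * (r + 1)).choose (r + 1) : ℕ) : ZMod p) *
          (((2 * (m - r)).choose (m - r) : ℕ) : ZMod p) =
          ∑ r ∈ range m, ((-4) ^ (r + 1) * (h.choose (r + 1) : ZMod p)) *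
          ((-4) ^ (m - r) * (h.choose (m - r) : ZMod p)) := by
        refine sum_congr rfl (fun r hr' => ?_)
        have hr2 := mem_range.mp hr'
        rw [ih (r + 1) (by omega) (by omega), ih (m - r) (by omega) (by omega)]
      rw [h1, e2] at h3
      rw [e1] at h4
      rw [h3] at h4
      simp only [pow_zero, mul_zero, Nat.choose_self, Nat.choose_zero_right, Nat.cast_one, mul_one] at h4
      have h6 : (2 : ZMod p) * (((2 * (m + 1)).choose (m + 1) : ℕ) : ZMod p) =
          2 * ((-4) ^ (m + 1) * (h.choose (m + 1) : ZMod p)) := by linear_combination h4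
      exact mul_left_cancel₀ (two_ne p hodd) h6

lemma cat_int (s : ℕ) : 2 * (catalan s : ℤ) = 4 * ((2 * s).choose s : ℤ) - ((2 * (s + 1)).choose (s + 1) : ℤ) := by
  have h1 := Nat.succ_mul_centralBinom_succ s
  have h2 := succ_mul_catalan_eq_centralBinom s
  rw [Nat.centralBinom_eq_two_mul_choose] at h1 h2
  rw [Nat.centralBinom_eq_two_mul_choose] at h1
  have h1' := congrArg (Nat.cast : ℕ → ℤ) h1
  have h2' := congrArg (Nat.cast : ℕ → ℤ) h2
  push_cast at h1' h2'
  have hs : ((s : ℤ) + 1) ≠ 0 := by positivity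
  apply mul_left_cancel₀ hs
  linear_combination 2 * h2' + h1'

lemma cat_eq (hodd : p ≠ 2) (hh : p ^ a = 2 * h + 1) (s : ℕ) (hs : s + 1 < p ^ a) :
    ((catalan s : ℕ) : ZMod p) = 2 * (-4) ^ s * ((h + 1).choose (s + 1) : ZMod p) := by
  have h1 := congrArg (Int.cast : ℤ → ZMod p) (cat_int s)
  push_cast at h1
  rw [cent_eq p a h hodd hh s (by omega), cent_eq p a h hodd hh (s + 1) hs] at h1
  apply mul_left_cancel₀ (two_ne p hodd)
  rw [h1, Nat.choose_succ_succ]
  push_cast
  ring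

lemma cat_last (hodd : p ≠ 2) (hh : p ^ a = 2 * h + 1) (h0 : 0 < h) :
    ((catalan (2 * h) : ℕ) : ZMod p) = -1 := by
  have h1 := congrArg (Int.cast : ℤ → ZMod p) (cat_int (2 * h))
  push_cast at h1
  rw [cent_eq p a h hodd hh (2 * h) (by omega), Nat.choose_eq_zero_of_lt (show h < 2 * h by omega)] at h1
  have h2 : (2 * (2 * h + 1)).choose (2 * h + 1) = 2 * (2 * (2 * h + 1) - 1).choose (2 * h) := by
    have := Nat.add_one_mul_choose_eq (2 * (2 * h + 1) - 1) (2 * h)
    rw [show 2 * (2 * h + 1) - 1 + 1 = 2 * (2 * h + 1) by omega] at this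
    have h : (2 * h + 1) * (2 * (2 * (2 * h + 1) - 1).choose (2 * h)) =
      (2 * h + 1) * (2 * (2 * h + 1)).choose (2 * h + 1) := by linarith
    exact (Nat.eq_of_mul_eq_mul_left (by omega) h).symm
  have h3 := cent_one p a
  rw [hh, show 2 * h + 1 - 1 = 2 * h by omega] at h3
  rw [h2] at h1
  push_cast at h1
  rw [h3] at h1
  apply mul_left_cancel₀ (two_ne p hodd)
  rw [h1]
  simp

end modp

section fn
variable {R : Type*} [CommRing R]

/-- alternating functional -/
noncomputable def E (h : ℕ) (G : R[X]) : R := ∑ i ∈ range (h + 1), (-1) ^ (h - i) * G.coeff i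

lemma E_add (h : ℕ) (G G' : R[X]) : E h (G + G') = E h G + E h G' := by
  unfold E
  rw [← sum_add_distrib]
  exact sum_congr rfl (fun i _ => by rw [coeff_add]; ring)

lemma E_sub (h : ℕ) (G G' : R[X]) : E h (G - G') = E h G - E h G' := by
  unfold E
  rw [← sum_sub_distrib]
  exact sum_congr rfl (fun i _ => by rw [coeff_sub]; ring)

lemma E_C (h : ℕ) (c : R) (G : R[X]) : E h (C c * G) = c * E h G := by
  unfold E
  rw [mul_sum]
  exact sum_congr rfl (fun i _ => by rw [coeff_C_mul]; ring)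

lemma E_sum (h : ℕ) {ι : Type*} (s : Finset ι) (G : ι → R[X]) : E h (∑ i ∈ s, G i) = ∑ i ∈ s, E h (G i) := by
  classical
  induction s using Finset.induction_on with
  | empty => simp [E]
  | insert a s ha ih => rw [sum_insert ha, sum_insert ha, E_add, ih]

lemma E_one_add (h : ℕ) (G : R[X]) : E h ((1 + X) * G) = G.coeff h := by
  induction h with
  | zero => simp [E, add_mul]
  | succ h ih =>
    unfold E at ih ⊢
    rw [sum_range_succ, Nat.sub_self, pow_zero, one_mul]
    have : ∑ i ∈ range (h + 1), (-1) ^ (h + 1 - i) * ((1 + X) * G).coeff i = - G.coeff h := by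
      rw [← ih, ← sum_neg_distrib]
      refine sum_congr rfl (fun i hi => ?_)
      rw [show h + 1 - i = (h - i) + 1 by have := mem_range.mp hi; omega, pow_succ]
      ring
    rw [this, add_mul, one_mul, coeff_add, coeff_X_mul]
    ring

lemma E_Xq (h q : ℕ) (hq : h < q) (G : R[X]) : E h (X ^ q * G) = 0 := by
  unfold E
  apply sum_eq_zero
  intro i hi
  rw [coeff_X_pow_mul', if_neg (by have := mem_range.mp hi; omega), mul_zero]

lemma E_one_sub (h : ℕ) (h0 : 0 < h) : E h (1 - X : R[X]) = 2 * (-1) ^ h := by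
  obtain ⟨m, rfl⟩ := Nat.exists_eq_add_of_le' (show 1 ≤ h from h0)
  unfold E
  rw [sum_range_succ', sum_range_succ']
  rw [sum_eq_zero]
  · simp [coeff_one, coeff_X]
    rw [pow_succ]
    ring
  · intro i _
    rw [coeff_sub, coeff_one, if_neg (by omega), coeff_X, if_neg (by omega)]
    simp

lemma E_pow (h i : ℕ) (hi : i + 1 ≤ h) : E h ((1 - X) * (1 + X) ^ (i + 1) : R[X]) =
    if i + 1 = h then -1 else 0 := by
  rw [show ((1 - X) * (1 + X) ^ (i + 1) : R[X]) = (1 + X) * ((1 - X) * (1 + X) ^ i) by ring, E_one_add]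
  obtain ⟨m, rfl⟩ := Nat.exists_eq_add_of_le' (show 1 ≤ h by omega)
  rw [sub_mul, one_mul, coeff_sub, coeff_X_mul, coeff_one_add_X_pow, coeff_one_add_X_pow,
    Nat.choose_eq_zero_of_lt (show i < m + 1 by omega)]
  split_ifs with h1
  · have : i = m := by omega
    subst this
    simp
  · rw [Nat.choose_eq_zero_of_lt (show i < m by omega)]
    simp

lemma E_c (h : ℕ) (h0 : 0 < h) : E h ((1 - X) * (3 - X) ^ h : R[X]) = (-1) ^ h * (2 * 4 ^ h - 1) := by
  have e : (3 - X : R[X]) = -(1 + X) + 4 := by ring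
  rw [e, add_pow, mul_sum, E_sum, sum_range_succ']
  have h1 : ∀ i ∈ range h, E h ((1 - X : R[X]) * ((-(1 + X)) ^ (i + 1) * 4 ^ (h - (i + 1)) * (h.choose (i + 1) : R[X]))) =
      if i + 1 = h then - (-1) ^ h else 0 := by
    intro i hi
    have hi' := mem_range.mp hi
    have : ((1 - X : R[X]) * ((-(1 + X)) ^ (i + 1) * 4 ^ (h - (i + 1)) * (h.choose (i + 1) : R[X]))) =
        C ((-1) ^ (i + 1) * 4 ^ (h - (i + 1)) * (h.choose (i + 1) : R)) * ((1 - X) * (1 + X) ^ (i + 1)) := by
      rw [neg_pow]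
      simp only [C_mul, C_pow, C_neg, C_1, map_natCast]
      have : (C 4 : R[X]) = 4 := rfl
      rw [this]
      ring
    rw [this, E_C, E_pow h i (by omega)]
    split_ifs with h2
    · rw [h2]; simp
    · simp
  rw [sum_congr rfl h1]
  obtain ⟨m, rfl⟩ := Nat.exists_eq_add_of_le' (show 1 ≤ h from h0)
  rw [sum_range_succ, sum_eq_zero]
  · have h2 : E (m + 1) ((1 - X : R[X]) * ((-(1 + X)) ^ 0 * 4 ^ (m + 1 - 0) * ((m + 1).choose 0 : R[X]))) =
        4 ^ (m + 1) * (2 * (-1) ^ (m + 1)) := by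
      have : ((1 - X : R[X]) * ((-(1 + X)) ^ 0 * 4 ^ (m + 1 - 0) * ((m + 1).choose 0 : R[X]))) =
        C (4 ^ (m + 1)) * (1 - X) := by
        simp only [C_pow]
        have : (C 4 : R[X]) = 4 := rfl
        rw [this]
        simp
        ring
      rw [this, E_C, E_one_sub _ h0]
    rw [h2, if_pos rfl]
    ring
  · intro i hi
    rw [if_neg (by have := mem_range.mp hi; omega)]

lemma E_f (h : ℕ) (y : R) : E h ((1 - X) * (C y * (1 + X) ^ 2 + X) ^ h : R[X]) = 1 := by
  rw [add_pow, mul_sum, E_sum, sum_range_succ']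
  rw [sum_eq_zero]
  · rw [zero_add, pow_zero, one_mul, Nat.choose_zero_right, Nat.sub_zero, Nat.cast_one, mul_one,
      show ((1 - X) * X ^ h : R[X]) = (X ^ h - X ^ (h + 1) * 1) by ring, E_sub, E_Xq h (h + 1) (by omega)]
    unfold E
    rw [sum_range_succ, sum_eq_zero]
    · simp
    · intro i hi
      rw [coeff_X_pow, if_neg (by have := mem_range.mp hi; omega), mul_zero]
  · intro i hi
    have hi' := mem_range.mp hi
    have : ((1 - X : R[X]) * ((C y * (1 + X) ^ 2) ^ (i + 1) * X ^ (h - (i + 1)) * (h.choose (i + 1) : R[X]))) =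
        C (y ^ (i + 1) * (h.choose (i + 1) : R)) * ((1 + X) * (X ^ (h - (i + 1)) * ((1 - X) * (1 + X) ^ (2 * i + 1)))) := by
      simp only [C_mul, C_pow, map_natCast, mul_pow, ← pow_mul]
      ring
    rw [this, E_C, E_one_add, coeff_X_pow_mul', if_pos (by omega), show h - (h - (i + 1)) = i + 1 by omega,
      sub_mul, one_mul, coeff_sub, coeff_X_mul, coeff_one_add_X_pow, coeff_one_add_X_pow,
      Nat.choose_symm_of_eq_add (show 2 * i + 1 = (i + 1) + i by ring), sub_self, mul_zero]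

end fn

end Pool.Agent.V11308.DC
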