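import Pool.Agent.V11308.DC6

/-!
`t(p^a)` modulo `p`, `p ≥ 5`: conclusion.
-/

namespace Pool.Agent.V11308.DC

open Finset Pool.Agent.V11308.Leg Polynomial

section modp
variable (p a h : ℕ) [hp : Fact p.Prime]

lemma fermat (hh : p ^ a = 2 * h + 1) (x : ZMod p) (hx : x ≠ 0) : x ^ (2 * h) = 1 := by
  have h1 : x ^ (p ^ a) = x := ZMod.pow_card_pow x
  rw [hh, pow_succ] at h1
  apply mul_right_cancel₀ hx
  rw [h1, one_mul]

/-- coefficients -/
noncomputable def y (r : ℕ) : ZMod p := (h.choose r : ZMod p) * (-3 / 16) ^ r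

/-- coefficients -/
noncomputable def z (s : ℕ) : ZMod p := ((h + 1).choose (s + 1) : ZMod p) * (-3 / 4) ^ s

/-- coefficients -/
def w (r s : ℕ) : ZMod p := ((r + s + r).choose r : ZMod p) - (if r = 0 then 0 else ((r + s + r).choose (r - 1) : ZMod p))

lemma w_coeff (r s : ℕ) : ((1 - X) * (1 + X) ^ (2 * r + s) : (ZMod p)[X]).coeff r = w p r s := by
  unfold w
  rw [sub_mul, one_mul, coeff_sub, coeff_one_add_X_pow, show 2 * r + s = r + s + r by ring]
  rcases r with _ | r
  · simp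
  · rw [coeff_X_mul, coeff_one_add_X_pow, if_neg (by omega)]
    simp

lemma Phi_coeff : ((1 - X) * (C (-3 / 16) * (1 + X) ^ 2 + X) ^ h *
    (∑ s ∈ range (h + 1), C (z p h s) * (1 + X) ^ s) : (ZMod p)[X]).coeff h =
    ∑ r ∈ range (h + 1), ∑ s ∈ range (h + 1), y p h r * z p h s * w p r s := by
  rw [add_pow, mul_assoc, mul_comm (∑ m ∈ range (h + 1), _) (∑ s ∈ range (h + 1), _), mul_sum, mul_sum,
    finsetSum_coeff]
  refine sum_congr rfl (fun r hr => ?_)
  have hr' : r ≤ h := by have := mem_range.mp hr; omega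
  rw [sum_mul, mul_sum, finsetSum_coeff]
  refine sum_congr rfl (fun s _ => ?_)
  have : (1 - X) * (C (z p h s) * (1 + X) ^ s * ((C (-3 / 16 : ZMod p) * (1 + X) ^ 2) ^ r * X ^ (h - r) *
      (h.choose r : (ZMod p)[X]))) = C (y p h r * z p h s) * (X ^ (h - r) * ((1 - X) * (1 + X) ^ (2 * r + s))) := by
    unfold y
    simp only [C_mul, C_pow, map_natCast, mul_pow, ← pow_mul, pow_add]
    ring
  rw [this, coeff_C_mul, coeff_X_pow_mul', if_pos (by omega), show h - (h - r) = r by omega, w_coeff]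

lemma Phi_one (h2 : p ≠ 2) (h3 : p ≠ 3) (hh : p ^ a = 2 * h + 1) (h0 : 0 < h) :
    ∑ r ∈ range (h + 1), ∑ s ∈ range (h + 1), y p h r * z p h s * w p r s = 1 := by
  have n2 := two_ne p h2
  have n3 := three_ne p h3
  have n4 : (4 : ZMod p) ≠ 0 := by
    have : (4 : ZMod p) = 2 ^ 2 := by norm_num
    rw [this]; exact pow_ne_zero _ n2
  have n16 : (16 : ZMod p) ≠ 0 := by
    have : (16 : ZMod p) = 2 ^ 4 := by norm_num
    rw [this]; exact pow_ne_zero _ n2
  rw [← Phi_coeff]
  set f : (ZMod p)[X] := (C (-3 / 16) * (1 + X) ^ 2 + X) ^ h with hf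
  set S : (ZMod p)[X] := ∑ s ∈ range (h + 1), C (z p h s) * (1 + X) ^ s with hS
  have k1 : (1 + X) * (C (-3 / 4) * S) = (C (-3 / 4) * (1 + X) + 1) ^ (h + 1) - 1 := by
    rw [add_pow, sum_range_succ', hS, mul_sum, mul_sum]
    simp only [one_pow, mul_one, pow_zero, Nat.choose_zero_right, Nat.cast_one, add_sub_cancel_right]
    refine sum_congr rfl (fun s _ => ?_)
    unfold z
    simp only [C_mul, C_pow, map_natCast, mul_pow]
    ring
  have k2 : (-3 / 4 : ZMod p) * ((1 - X) * f * S).coeff h =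
      E h ((1 - X) * (f * (C (-3 / 4) * (1 + X) + 1) ^ (h + 1))) - E h ((1 - X) * f) := by
    rw [← E_sub, ← coeff_C_mul, ← E_one_add]
    congr 1
    linear_combination (1 - X) * f * k1
  have k3 : f * (C (-3 / 4) * (1 + X) + 1) ^ (h + 1) = C ((-1) ^ h / 4) *
      ((3 - X) ^ h - X ^ (2 * h + 1) * (C (3 ^ (2 * h + 1)) * (3 - X) ^ h)) := by
    have e1 : (C (-3 / 16) * (1 + X) ^ 2 + X : (ZMod p)[X]) = C (-1 / 16) * ((1 - C 3 * X) * (3 - X)) := by
      have i16 : (C (1 / 16 : ZMod p)) * 16 = 1 := by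
        have : (16 : (ZMod p)[X]) = C 16 := rfl
        rw [this, ← C_mul, one_div, inv_mul_cancel₀ n16, C_1]
      have a1 : (C (-3 / 16 : ZMod p)) = - 3 * C (1 / 16) := by
        have : (3 : (ZMod p)[X]) = C 3 := rfl
        rw [this, ← C_neg, ← C_mul]; congr 1; ring
      have a2 : (C (-1 / 16 : ZMod p)) = - C (1 / 16) := by
        rw [← C_neg]; congr 1; ring
      have a3 : (C (3 : ZMod p)) = 3 := rfl
      rw [a1, a2, a3]
      linear_combination (-X) * i16
    have e2 : (C (-3 / 4) * (1 + X) + 1 : (ZMod p)[X]) = C (1 / 4) * (1 - C 3 * X) := by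
      have i4 : (C (1 / 4 : ZMod p)) * 4 = 1 := by
        have : (4 : (ZMod p)[X]) = C 4 := rfl
        rw [this, ← C_mul, one_div, inv_mul_cancel₀ n4, C_1]
      have a1 : (C (-3 / 4 : ZMod p)) = - 3 * C (1 / 4) := by
        have : (3 : (ZMod p)[X]) = C 3 := rfl
        rw [this, ← C_neg, ← C_mul]; congr 1; ring
      have a3 : (C (3 : ZMod p)) = 3 := rfl
      rw [a1, a3]
      linear_combination -i4
    have e3 : ((1 - C 3 * X : (ZMod p)[X])) ^ h * (1 - C 3 * X) ^ (h + 1) = 1 - C (3 ^ (2 * h + 1)) * X ^ (2 * h + 1) := by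
      rw [← pow_add, show h + (h + 1) = p ^ a by omega, sub_pow_char_pow, one_pow, mul_pow, ← C_pow, hh]
    have e4 : ((-1 / 16 : ZMod p)) ^ h * (1 / 4) ^ (h + 1) = (-1) ^ h / 4 := by
      have f1 : ((8 : ZMod p)) ^ (2 * h) = 1 := by
        apply fermat p a h hh
        have : (8 : ZMod p) = 2 ^ 3 := by norm_num
        rw [this]; exact pow_ne_zero _ n2
      have f2 : (16 : ZMod p) ^ h * 4 ^ h = 1 := by
        rw [← mul_pow, ← f1, pow_mul]; norm_num
      rw [div_pow, div_pow, one_pow, pow_succ]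
      have n16h : (16 : ZMod p) ^ h ≠ 0 := pow_ne_zero _ n16
      have n4h : (4 : ZMod p) ^ h ≠ 0 := pow_ne_zero _ n4
      field_simp
      linear_combination -f2
    rw [hf, e1, e2, mul_pow, mul_pow, mul_pow, ← e4]
    simp only [C_mul, C_pow]
    simp only [C_mul, C_pow] at e3
    linear_combination C (-1 / 16) ^ h * C (1 / 4) ^ (h + 1) * (3 - X) ^ h * e3
  have k4 : E h ((1 - X) * (f * (C (-3 / 4) * (1 + X) + 1) ^ (h + 1))) = 1 / 4 := by
    rw [k3, show ((1 - X) * (C ((-1) ^ h / 4) *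
      ((3 - X) ^ h - X ^ (2 * h + 1) * (C (3 ^ (2 * h + 1)) * (3 - X) ^ h))) : (ZMod p)[X]) =
      C ((-1) ^ h / 4) * ((1 - X) * (3 - X) ^ h - X ^ (2 * h + 1) * ((1 - X) * (C (3 ^ (2 * h + 1)) * (3 - X) ^ h)))
      by ring, E_C, E_sub, E_Xq h (2 * h + 1) (by omega), E_c h h0, sub_zero]
    have f1 : ((2 : ZMod p)) ^ (2 * h) = 1 := fermat p a h hh 2 n2
    have f2 : (4 : ZMod p) ^ h = 1 := by rw [← f1, pow_mul]; norm_num
    have f3 : ((-1 : ZMod p)) ^ h * (-1) ^ h = 1 := by rw [← mul_pow]; norm_num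
    rw [f2]
    linear_combination (1 / 4) * f3
  rw [k4] at k2
  have k7 : E h ((1 - X) * f) = 1 := by rw [hf]; exact E_f h _
  rw [k7] at k2
  have k6 : (-3 : ZMod p) * ((1 - X) * f * S).coeff h = -3 * 1 := by
    have : (4 : ZMod p) * (-3 / 4 * ((1 - X) * f * S).coeff h) = 4 * (1 / 4 - 1) := by rw [k2]
    field_simp at this
    linear_combination this
  exact mul_left_cancel₀ (neg_ne_zero.mpr n3) k6

lemma T_one (h2 : p ≠ 2) (h3 : p ≠ 3) (hh : p ^ a = 2 * h + 1) (h0 : 0 < h) :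
    ∑ k ∈ range (2 * h + 1), (3 / 64 : ZMod p) ^ k * (om k : ZMod p) = 1 := by
  have n2 := two_ne p h2
  have n3 := three_ne p h3
  have n64 : (64 : ZMod p) ≠ 0 := by
    have : (64 : ZMod p) = 2 ^ 6 := by norm_num
    rw [this]; exact pow_ne_zero _ n2
  have n16 : (16 : ZMod p) ≠ 0 := by
    have : (16 : ZMod p) = 2 ^ 4 := by norm_num
    rw [this]; exact pow_ne_zero _ n2
  have n4 : (4 : ZMod p) ≠ 0 := by
    have : (4 : ZMod p) = 2 ^ 2 := by norm_num
    rw [this]; exact pow_ne_zero _ n2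
  have e1 : ∀ k ∈ range (2 * h + 1), (3 / 64 : ZMod p) ^ k * (om k : ZMod p) =
      ∑ r ∈ range (k + 1), (fun r s => (3 / 64 : ZMod p) ^ (r + s) * (((2 * r).choose r : ZMod p) *
        (catalan s : ZMod p) * w p r s * 4 ^ s)) r (k - r) := by
    intro k _
    unfold om w
    push_cast
    rw [mul_sum]
    refine sum_congr rfl (fun r hr => ?_)
    have hr' : r ≤ k := by have := mem_range.mp hr; omega
    rw [show r + (k - r) = k by omega]
  rw [sum_congr rfl e1, sum_range_diag_flip (2 * h + 1) (fun r s => (3 / 64 : ZMod p) ^ (r + s) *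
    (((2 * r).choose r : ZMod p) * (catalan s : ZMod p) * w p r s * 4 ^ s))]
  have e2 : ∀ r ∈ range (2 * h + 1), ∀ s ∈ range (2 * h + 1 - r), (3 / 64 : ZMod p) ^ (r + s) *
      (((2 * r).choose r : ZMod p) * (catalan s : ZMod p) * w p r s * 4 ^ s) =
      2 * (y p h r * z p h s * w p r s) - (if r = 0 then (if s = 2 * h then 1 else 0) else 0) := by
    intro r hr s hs
    have hr' := mem_range.mp hr
    have hs' := mem_range.mp hs
    rw [cent_eq p a h h2 hh r (by omega)]
    rcases Nat.lt_or_ge (s + 1) (2 * h + 1) with hlt | hge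
    · rw [cat_eq p a h h2 hh s (by omega)]
      have : ¬ (s = 2 * h) := by omega
      rw [if_neg this]
      have e3 : (if r = 0 then (0 : ZMod p) else 0) = 0 := by split_ifs <;> rfl
      rw [e3, sub_zero]
      unfold y z
      have f1 : (3 / 64 : ZMod p) ^ (r + s) * ((-4) ^ r * ((-4) ^ s * 4 ^ s)) = (-3 / 16) ^ r * (-3 / 4) ^ s := by
        rw [pow_add, ← mul_pow]
        have g1 : (3 / 64 : ZMod p) ^ r * (3 / 64) ^ s * ((-4) ^ r * (-4 * 4) ^ s) =
          (3 / 64 * (-4)) ^ r * (3 / 64 * (-4 * 4)) ^ s := by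
          rw [mul_pow (3 / 64 : ZMod p) (-4) r, mul_pow (3 / 64 : ZMod p) (-4 * 4) s]; ring
        rw [g1]
        congr 2
        · field_simp; norm_num
        · field_simp; norm_num
      linear_combination 2 * (h.choose r : ZMod p) * ((h + 1).choose (s + 1) : ZMod p) * w p r s * f1
    · have hs2 : s = 2 * h := by omega
      have hr0 : r = 0 := by omega
      subst hs2 hr0
      rw [cat_last p a h h2 hh h0, if_pos rfl, if_pos rfl]
      have hz : z p h (2 * h) = 0 := by
        unfold z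
        rw [Nat.choose_eq_zero_of_lt (by omega)]
        simp
      rw [hz]
      have hw : w p 0 (2 * h) = 1 := by unfold w; simp
      rw [hw]
      have f1 := fermat p a h hh (3 / 64 * 4) (by
        apply mul_ne_zero (div_ne_zero n3 n64) n4)
      rw [mul_pow] at f1
      simp
      linear_combination f1
  rw [sum_congr rfl (fun r hr => sum_congr rfl (e2 r hr))]
  simp only [sum_sub_distrib]
  have e4 : ∑ r ∈ range (2 * h + 1), ∑ s ∈ range (2 * h + 1 - r),
      (if r = 0 then (if s = 2 * h then (1 : ZMod p) else 0) else 0) = 1 := by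
    rw [sum_range_succ']
    simp
  have e5 : ∑ r ∈ range (2 * h + 1), ∑ s ∈ range (2 * h + 1 - r), 2 * (y p h r * z p h s * w p r s) = 2 := by
    have e6 : ∑ r ∈ range (2 * h + 1), ∑ s ∈ range (2 * h + 1 - r), 2 * (y p h r * z p h s * w p r s) =
        ∑ r ∈ range (h + 1), ∑ s ∈ range (h + 1), 2 * (y p h r * z p h s * w p r s) := by
      symm
      have e7 : ∑ r ∈ range (h + 1), ∑ s ∈ range (h + 1), 2 * (y p h r * z p h s * w p r s) =
          ∑ r ∈ range (h + 1), ∑ s ∈ range (2 * h + 1 - r), 2 * (y p h r * z p h s * w p r s) := by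
        refine sum_congr rfl (fun r hr => ?_)
        have hr' := mem_range.mp hr
        apply sum_subset (range_subset_range.mpr (by omega))
        intro s _ hs
        have : z p h s = 0 := by
          unfold z
          rw [Nat.choose_eq_zero_of_lt (by simp at hs; omega)]
          simp
        rw [this]
        ring
      rw [e7]
      apply sum_subset (range_subset_range.mpr (by omega))
      intro r _ hr
      apply sum_eq_zero
      intro s _
      have : y p h r = 0 := by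
        unfold y
        rw [Nat.choose_eq_zero_of_lt (by simp at hr; omega)]
        simp
      rw [this]
      ring
    rw [e6]
    simp only [← mul_sum]
    rw [Phi_one p a h h2 h3 hh h0, mul_one]
  rw [e4, e5]
  ring

lemma t_modp (ha : 0 < a) (h2 : p ≠ 2) (h3 : p ≠ 3) : CongQ (t (p ^ a)) 1 p := by
  have hodd : Odd p := hp.out.odd_of_ne_two h2
  have hq : Odd (p ^ a) := hodd.pow
  have hq3 : 3 ≤ p ^ a := by
    have h5 : 3 ≤ p := by
      have := hp.out.two_le
      omega
    calc 3 ≤ p := h5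
      _ = p ^ 1 := by ring
      _ ≤ p ^ a := Nat.pow_le_pow_right (by omega) ha
  obtain ⟨h, hh⟩ := hq
  have h0 : 0 < h := by omega
  have n2 := two_ne p h2
  have n64 : (64 : ZMod p) ≠ 0 := by
    have : (64 : ZMod p) = 2 ^ 6 := by norm_num
    rw [this]; exact pow_ne_zero _ n2
  have hc : IsCoprime (64 ^ (p ^ a - 1) : ℤ) (p : ℤ) := by
    apply IsCoprime.pow_left
    rw [show (64 : ℤ) = ((64 : ℕ) : ℤ) by norm_num, Nat.isCoprime_iff_coprime]
    rw [show 64 = 2 ^ 6 by norm_num]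
    exact (Nat.Coprime.pow_left 6 ((Nat.coprime_primes Nat.prime_two hp.out).mpr h2.symm))
  refine congQ_of _ 1 p _ _ hc (t_V (p ^ a) (by omega)) ?_
  rw [← ZMod.intCast_zmod_eq_zero_iff_dvd]
  have f64 : (64 : ZMod p) ^ (2 * h) = 1 := fermat p a h hh 64 n64
  have hV : ((V (p ^ a) : ℤ) : ZMod p) = 1 := by
    rw [← T_one p a h h2 h3 hh h0]
    unfold V
    rw [hh]
    push_cast
    refine sum_congr rfl (fun k hk => ?_)
    have hk' := mem_range.mp hk
    have c1 := choose_pred p a (by omega) k (by omega)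
    have c2 := choose_sum p a k (by omega)
    rw [hh] at c1 c2
    rw [show 2 * h + 1 - 1 = 2 * h by omega] at c1
    rw [c1, c2]
    have e1 : (64 : ZMod p) ^ (2 * h - k) * 64 ^ k = 1 := by
      rw [← pow_add, ← f64]; congr 1; omega
    have e2 : (64 : ZMod p) ^ (2 * h - k) = 1 / 64 ^ k := by
      rw [eq_div_iff (pow_ne_zero _ n64)]; exact e1
    rw [e2, div_pow, show (-3 : ZMod p) = (-1) * 3 by ring, mul_pow]
    have e3 : (-1 : ZMod p) ^ k * (-1) ^ k = 1 := by rw [← mul_pow]; norm_num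
    linear_combination (3 ^ k / 64 ^ k * (om k : ZMod p)) * e3
  push_cast
  rw [hV, hh, show 2 * h + 1 - 1 = 2 * h by omega, f64]
  ring

end modp

end Pool.Agent.V11308.DC
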