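import Pool.Agent.V11308.Blocks

/-!
Domb numbers: the formula `s_n = ∑_j C(n+j,j) C(n,2j) C(2j,j)^2 4^(n-2j)`, the recurrence and a
telescoping sum.
-/

namespace Pool.Agent.V11308.Domb

open Finset Pool.Agent.V11308

lemma vandermonde (a b c : ℕ) :
    ∑ i ∈ Finset.range (c + 1), a.choose i * b.choose (c - i) = (a + b).choose c := by
  rw [Nat.add_choose_eq, Finset.Nat.sum_antidiagonal_eq_sum_range_succ_mk]

lemma three (k m j : ℕ) : (k + m).choose j * (k + m - j).choose k = (k + m).choose k * m.choose j := by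
  rcases Nat.lt_or_ge m j with h | h
  · rw [Nat.choose_eq_zero_of_lt h, mul_zero]
    rcases Nat.lt_or_ge (k + m) j with h' | h'
    · rw [Nat.choose_eq_zero_of_lt h', zero_mul]
    · rw [Nat.choose_eq_zero_of_lt (by omega : k + m - j < k), mul_zero]
  · have h1 := Nat.choose_mul (n := k + m) (k := k + j) (s := j) (by omega)
    have h2 := Nat.choose_mul (n := k + m) (k := k + j) (s := k) (by omega)
    rw [show k + j - j = k by omega] at h1
    rw [show k + m - k = m by omega, show k + j - k = j by omega] at h2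
    have h3 : (k + j).choose j = (k + j).choose k := (Nat.choose_symm_add).symm
    rw [← h1, ← h2, h3]

/-- special case of Surányi's identity -/
lemma suranyi (k m : ℕ) :
    ∑ j ∈ Finset.range (k + m + 1), k.choose j * m.choose j * (k + m + j).choose (k + m) =
      ((k + m).choose k) ^ 2 := by
  have h1 : ∀ j, (k + m + j).choose (k + m) =
      ∑ i ∈ Finset.range (k + m + 1), j.choose i * (k + m).choose i := by
    intro j
    rw [show k + m + j = j + (k + m) by ring, ← vandermonde]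
    apply Finset.sum_congr rfl
    intro i hi
    rw [Finset.mem_range] at hi
    rw [Nat.choose_symm (by omega)]
  simp only [h1, Finset.mul_sum]
  rw [Finset.sum_comm]
  have h2 : ∀ i ∈ Finset.range (k + m + 1), ∑ j ∈ Finset.range (k + m + 1),
      k.choose j * m.choose j * (j.choose i * (k + m).choose i) =
      (k + m).choose k * (m.choose i * k.choose (k - i) * if i ≤ k then 1 else 0) := by
    intro i hi
    rw [Finset.mem_range] at hi
    have h3 : ∑ j ∈ Finset.range (k + m + 1), k.choose j * m.choose j * (j.choose i * (k + m).choose i) =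
        ∑ j ∈ Finset.range (k + 1), k.choose j * m.choose j * (j.choose i * (k + m).choose i) := by
      symm
      apply Finset.sum_subset
      · intro j hj; rw [Finset.mem_range] at *; omega
      · intro j _ hj2
        rw [Finset.mem_range] at hj2
        rw [Nat.choose_eq_zero_of_lt (by omega : k < j)]
        ring
    rw [h3]
    by_cases hik : i ≤ k
    · rw [if_pos hik, mul_one]
      have h4 : ∀ j ∈ Finset.range (k + 1), k.choose j * m.choose j * (j.choose i * (k + m).choose i) =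
          (k + m).choose i * k.choose i * (m.choose j * (k - i).choose (k - j)) := by
        intro j hj
        rw [Finset.mem_range] at hj
        rcases Nat.lt_or_ge j i with h | h
        · rw [Nat.choose_eq_zero_of_lt h, Nat.choose_eq_zero_of_lt (by omega : k - i < k - j)]
          ring
        · have h5 := Nat.choose_mul (n := k) (k := j) (s := i) h
          have h6 : (k - i).choose (k - j) = (k - i).choose (j - i) :=
            Nat.choose_symm_of_eq_add (by omega)
          rw [h6]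
          calc k.choose j * m.choose j * (j.choose i * (k + m).choose i)
              = (k.choose j * j.choose i) * (m.choose j * (k + m).choose i) := by ring
            _ = _ := by rw [h5]; ring
      rw [Finset.sum_congr rfl h4, ← Finset.mul_sum, vandermonde]
      have h7 := three k m i
      rw [show m + (k - i) = k + m - i by omega, Nat.choose_symm hik]
      calc (k + m).choose i * k.choose i * (k + m - i).choose k
          = k.choose i * ((k + m).choose i * (k + m - i).choose k) := by ring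
        _ = _ := by rw [h7]; ring
    · rw [if_neg hik, mul_zero, mul_zero]
      apply Finset.sum_eq_zero
      intro j hj
      rw [Finset.mem_range] at hj
      rw [Nat.choose_eq_zero_of_lt (by omega : j < i)]
      ring
  rw [Finset.sum_congr rfl h2, ← Finset.mul_sum]
  have h8 : ∑ i ∈ Finset.range (k + m + 1), (m.choose i * k.choose (k - i) * if i ≤ k then 1 else 0) =
      ∑ i ∈ Finset.range (k + 1), m.choose i * k.choose (k - i) := by
    symm
    rw [Finset.sum_subset_zero_on_sdiff (f := fun i => m.choose i * k.choose (k - i))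
      (g := fun i => (m.choose i * k.choose (k - i) * if i ≤ k then 1 else 0))
      (s₁ := Finset.range (k + 1)) (s₂ := Finset.range (k + m + 1))]
    · intro j hj; rw [Finset.mem_range] at *; omega
    · intro i hi
      rw [Finset.mem_sdiff, Finset.mem_range, Finset.mem_range] at hi
      rw [if_neg (by omega), mul_zero]
    · intro i hi
      rw [Finset.mem_range] at hi
      rw [if_pos (by omega), mul_one]
  rw [h8, vandermonde, add_comm m k, sq]


/-! ## A convolution -/

/-- `g j k = C(2k,k) C(k,j)` -/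
def g (j k : ℕ) : ℚ := ((2 * k).choose k : ℚ) * (k.choose j : ℚ)

lemma cb_succ (k : ℕ) : ((2 * (k + 1)).choose (k + 1) : ℚ) * (k + 1) =
    2 * (2 * k + 1) * ((2 * k).choose k : ℚ) := by
  have h := Nat.succ_mul_centralBinom_succ k
  unfold Nat.centralBinom at h
  have h2 := congrArg (Nat.cast : ℕ → ℚ) h
  push_cast at h2
  linear_combination h2

lemma g_succ (j k : ℕ) : ((k : ℚ) + 1 - j) * g j (k + 1) = 2 * (2 * k + 1) * g j k := by
  unfold g
  have h1 := cb_succ k
  have h2 : ((k + 1).choose j : ℚ) * (k + 1 - j) = (k.choose j : ℚ) * (k + 1) := by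
    have h := Nat.choose_mul_succ_eq k j
    rcases Nat.lt_or_ge (k + 1) j with h3 | h3
    · rw [Nat.choose_eq_zero_of_lt h3, Nat.choose_eq_zero_of_lt (by omega : k < j)]; simp
    · have h4 := congrArg (Nat.cast : ℕ → ℚ) h
      push_cast at h4
      rw [Nat.cast_sub h3] at h4
      push_cast at h4
      linear_combination -h4
  linear_combination ((2 * (k + 1)).choose (k + 1) : ℚ) * h2 + (k.choose j : ℚ) * h1

/-- the convolution -/
def cv (j n : ℕ) : ℚ := ∑ k ∈ Finset.range (n + 1), g j k * g j (n - k)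

lemma cv_sym (j n : ℕ) : 2 * ∑ k ∈ Finset.range (n + 1), (k : ℚ) * (g j k * g j (n - k)) =
    n * cv j n := by
  have h := Finset.sum_range_reflect (fun k => (k : ℚ) * (g j k * g j (n - k))) (n + 1)
  have h2 : ∑ k ∈ Finset.range (n + 1), ((n + 1 - 1 - k : ℕ) : ℚ) *
      (g j (n + 1 - 1 - k) * g j (n - (n + 1 - 1 - k))) =
      ∑ k ∈ Finset.range (n + 1), ((n : ℚ) - k) * (g j k * g j (n - k)) := by
    apply Finset.sum_congr rfl
    intro k hk
    rw [Finset.mem_range] at hk
    rw [show n + 1 - 1 - k = n - k by omega, show n - (n - k) = k by omega,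
      Nat.cast_sub (by omega)]
    ring
  rw [h2] at h
  unfold cv
  rw [two_mul]
  nth_rewrite 1 [← h]
  rw [← Finset.sum_add_distrib, Finset.mul_sum]
  apply Finset.sum_congr rfl
  intro k _
  ring

lemma cv_succ (j n : ℕ) : ((n : ℚ) + 1 - 2 * j) * cv j (n + 1) = 4 * (n + 1) * cv j n := by
  -- `∑ (k - j) g k g (n+1-k)` equals `∑ 2 (2k+1) g k g (n-k)`
  have h1 : ∑ k ∈ Finset.range (n + 2), ((k : ℚ) - j) * (g j k * g j (n + 1 - k)) =
      ∑ k ∈ Finset.range (n + 1), 2 * (2 * (k : ℚ) + 1) * (g j k * g j (n - k)) := by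
    rw [Finset.sum_range_succ']
    have h0 : (((0 : ℕ) : ℚ) - j) * (g j 0 * g j (n + 1 - 0)) = 0 := by
      rcases Nat.eq_zero_or_pos j with hj | hj
      · subst hj; simp
      · have : g j 0 = 0 := by
          unfold g; rw [Nat.choose_eq_zero_of_lt hj]; simp
        rw [this]; simp
    rw [h0, add_zero]
    apply Finset.sum_congr rfl
    intro k hk
    rw [Finset.mem_range] at hk
    rw [show n + 1 - (k + 1) = n - k by omega]
    have := g_succ j k
    push_cast
    linear_combination g j (n - k) * this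
  have h2 := cv_sym j (n + 1)
  have h3 := cv_sym j n
  have h4 : ∑ k ∈ Finset.range (n + 2), ((k : ℚ) - j) * (g j k * g j (n + 1 - k)) =
      ∑ k ∈ Finset.range (n + 2), (k : ℚ) * (g j k * g j (n + 1 - k)) - j * cv j (n + 1) := by
    unfold cv
    rw [Finset.mul_sum, ← Finset.sum_sub_distrib]
    apply Finset.sum_congr rfl
    intro k _
    ring
  have h5 : ∑ k ∈ Finset.range (n + 1), 2 * (2 * (k : ℚ) + 1) * (g j k * g j (n - k)) =
      4 * ∑ k ∈ Finset.range (n + 1), (k : ℚ) * (g j k * g j (n - k)) + 2 * cv j n := by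
    unfold cv
    rw [Finset.mul_sum, Finset.mul_sum, ← Finset.sum_add_distrib]
    apply Finset.sum_congr rfl
    intro k _
    ring
  push_cast at h2
  linear_combination 2 * h1 - 2 * h4 - h2 + 2 * h5 + 4 * h3

/-- the closed form -/
lemma cv_eq (j n : ℕ) : cv j n = ((2 * j).choose j : ℚ) ^ 2 * (n.choose (2 * j) : ℚ) * 4 ^ n / 16 ^ j := by
  induction n with
  | zero =>
    unfold cv g
    rcases Nat.eq_zero_or_pos j with hj | hj
    · subst hj; simp
    · rw [Nat.choose_eq_zero_of_lt (by omega : 0 < 2 * j)]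
      simp [Nat.choose_eq_zero_of_lt hj]
  | succ n ih =>
    rcases eq_or_ne (n + 1) (2 * j) with h | h
    · -- base case on the diagonal
      have h16 : (16 : ℚ) ^ j = 4 ^ (n + 1) := by rw [h, pow_mul]; norm_num
      rw [h16, mul_div_assoc, div_self (by positivity), mul_one, h, Nat.choose_self, Nat.cast_one,
        mul_one]
      unfold cv
      rw [Finset.sum_eq_single_of_mem j (by rw [Finset.mem_range]; omega)]
      · rw [show 2 * j - j = j by omega]
        unfold g
        rw [Nat.choose_self]; push_cast; ring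
      · intro k hk hkj
        rw [Finset.mem_range] at hk
        rcases Nat.lt_or_ge k j with h3 | h3
        · have : g j k = 0 := by unfold g; rw [Nat.choose_eq_zero_of_lt h3]; simp
          rw [this, zero_mul]
        · have : g j (2 * j - k) = 0 := by
            unfold g; rw [Nat.choose_eq_zero_of_lt (by omega : 2 * j - k < j)]; simp
          rw [this, mul_zero]
    · have h1 := cv_succ j n
      have hne : ((n : ℚ) + 1 - 2 * j) ≠ 0 := by
        intro h0
        apply h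
        have : ((n + 1 : ℕ) : ℚ) = ((2 * j : ℕ) : ℚ) := by push_cast; linarith
        exact_mod_cast this
      apply mul_left_cancel₀ hne
      rw [h1, ih]
      have h2 : ((n + 1).choose (2 * j) : ℚ) * (n + 1 - 2 * j) = (n.choose (2 * j) : ℚ) * (n + 1) := by
        have h := Nat.choose_mul_succ_eq n (2 * j)
        rcases Nat.lt_or_ge (n + 1) (2 * j) with h3 | h3
        · rw [Nat.choose_eq_zero_of_lt h3, Nat.choose_eq_zero_of_lt (by omega : n < 2 * j)]; simp
        · have h4 := congrArg (Nat.cast : ℕ → ℚ) h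
          push_cast at h4
          rw [Nat.cast_sub h3] at h4
          push_cast at h4
          linear_combination -h4
      rw [pow_succ]
      linear_combination (-((2 * j).choose j : ℚ) ^ 2 * 4 ^ n * 4 / 16 ^ j) * h2

/-! ## Domb numbers -/

/-- the Domb numbers -/
def s (n : ℕ) : ℤ := ∑ k ∈ Finset.range (n + 1),
  (n.choose k : ℤ) ^ 2 * ((2 * k).choose k : ℤ) * ((2 * (n - k)).choose (n - k) : ℤ)

/-- the terms of the second formula -/
def t (n j : ℕ) : ℚ :=
  ((n + j).choose j : ℚ) * (n.choose (2 * j) : ℚ) * ((2 * j).choose j : ℚ) ^ 2 * 4 ^ n / 16 ^ j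

lemma t_eq_zero {n j : ℕ} (h : n < 2 * j) : t n j = 0 := by
  unfold t
  rw [Nat.choose_eq_zero_of_lt h]; simp

lemma s_eq (n : ℕ) : (s n : ℚ) = ∑ j ∈ Finset.range (n + 1), t n j := by
  have h1 : ∀ k ∈ Finset.range (n + 1), ((n.choose k : ℚ) ^ 2 * ((2 * k).choose k : ℚ) *
      ((2 * (n - k)).choose (n - k) : ℚ)) =
      ∑ j ∈ Finset.range (n + 1), ((n + j).choose j : ℚ) * (g j k * g j (n - k)) := by
    intro k hk
    rw [Finset.mem_range] at hk
    have h2 := suranyi k (n - k)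
    rw [show k + (n - k) = n by omega] at h2
    have h3 := congrArg (Nat.cast : ℕ → ℚ) h2
    push_cast at h3
    rw [← h3, Finset.sum_mul, Finset.sum_mul]
    apply Finset.sum_congr rfl
    intro j _
    have h4 : (n + j).choose n = (n + j).choose j := Nat.choose_symm_add
    rw [h4]
    unfold g
    ring
  unfold s
  push_cast
  rw [Finset.sum_congr rfl h1, Finset.sum_comm]
  apply Finset.sum_congr rfl
  intro j _
  rw [← Finset.mul_sum]
  change _ * cv j n = _
  rw [cv_eq]
  unfold t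
  ring

/-- we may sum over any longer range -/
lemma s_eq' (n J : ℕ) (hJ : n + 1 ≤ J) : (s n : ℚ) = ∑ j ∈ Finset.range J, t n j := by
  rw [s_eq]
  apply Finset.sum_subset
  · intro j hj; rw [Finset.mem_range] at *; omega
  · intro j _ hj
    rw [Finset.mem_range] at hj
    exact t_eq_zero (by omega)

/-! ## The recurrence -/

lemma b1 (n i : ℕ) : ((i : ℚ) + 1) * (n + 2) * ((n + 2 + (i + 1)).choose (i + 1) : ℚ) =
    (n + 3 + i) * (n + 2 + i) * ((n + 1 + i).choose i : ℚ) := by
  have h1 := congrArg (Nat.cast : ℕ → ℚ) (Nat.add_one_mul_choose_eq (n + 2 + i) i)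
  have h2 := congrArg (Nat.cast : ℕ → ℚ) (Nat.choose_mul_succ_eq (n + 1 + i) i)
  rw [show n + 1 + i + 1 - i = n + 2 by omega, show n + 1 + i + 1 = n + 2 + i by ring] at h2
  push_cast at h1 h2
  rw [show n + 2 + (i + 1) = n + 2 + i + 1 by ring]
  linear_combination (-(n + 2 : ℚ)) * h1 - (n + 3 + i) * h2

lemma b1' (n i : ℕ) : ((i : ℚ) + 1) * ((n + 1 + (i + 1)).choose (i + 1) : ℚ) =
    (n + 2 + i) * ((n + 1 + i).choose i : ℚ) := by
  have h1 := congrArg (Nat.cast : ℕ → ℚ) (Nat.add_one_mul_choose_eq (n + 1 + i) i)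
  push_cast at h1
  rw [show n + 1 + (i + 1) = n + 1 + i + 1 by ring]
  linear_combination -h1

lemma b1'' (n i : ℕ) : ((i : ℚ) + 1) * ((n + (i + 1)).choose (i + 1) : ℚ) =
    (n + 1) * ((n + 1 + i).choose i : ℚ) := by
  have h1 := congrArg (Nat.cast : ℕ → ℚ) (Nat.choose_succ_right_eq (n + 1 + i) i)
  rw [show n + 1 + i - i = n + 1 by omega] at h1
  push_cast at h1
  rw [show n + (i + 1) = n + 1 + i by ring]
  linear_combination h1

lemma b2 (n i : ℕ) : ((n + 2).choose (2 * (i + 1)) : ℚ) * (2 * i + 2) * (2 * i + 1) =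
    (n + 2) * (n + 1 - 2 * i) * ((n + 1).choose (2 * i) : ℚ) := by
  have h1 := congrArg (Nat.cast : ℕ → ℚ) (Nat.add_one_mul_choose_eq (n + 1) (2 * i + 1))
  have h2 := congrArg (Nat.cast : ℕ → ℚ) (Nat.choose_succ_right_eq (n + 1) (2 * i))
  have h3 : ((n + 1).choose (2 * i) : ℚ) * ((n + 1 - 2 * i : ℕ) : ℚ) =
      ((n + 1).choose (2 * i) : ℚ) * (n + 1 - 2 * i) := by
    rcases Nat.lt_or_ge (n + 1) (2 * i) with h | h
    · rw [Nat.choose_eq_zero_of_lt h]; simp
    · rw [Nat.cast_sub h]; push_cast; ring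
  push_cast at h1 h2
  rw [h3] at h2
  rw [show 2 * (i + 1) = 2 * i + 1 + 1 by ring]
  linear_combination (-(2 * i + 1 : ℚ)) * h1 + (n + 2) * h2

lemma b2' (n i : ℕ) : ((n + 1).choose (2 * (i + 1)) : ℚ) * (2 * i + 2) * (2 * i + 1) =
    (n + 1 - 2 * i) * (n - 2 * i) * ((n + 1).choose (2 * i) : ℚ) := by
  have h1 : ((n + 1).choose (2 * i + 1 + 1) : ℚ) * (2 * i + 1 + 1) =
      ((n + 1).choose (2 * i + 1) : ℚ) * ((n + 1 - (2 * i + 1) : ℕ) : ℚ) := by
    exact_mod_cast Nat.choose_succ_right_eq (n + 1) (2 * i + 1)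
  have h2 := congrArg (Nat.cast : ℕ → ℚ) (Nat.choose_succ_right_eq (n + 1) (2 * i))
  have h3 : ((n + 1).choose (2 * i) : ℚ) * ((n + 1 - 2 * i : ℕ) : ℚ) =
      ((n + 1).choose (2 * i) : ℚ) * (n + 1 - 2 * i) := by
    rcases Nat.lt_or_ge (n + 1) (2 * i) with h | h
    · rw [Nat.choose_eq_zero_of_lt h]; simp
    · rw [Nat.cast_sub h]; push_cast; ring
  have h4 : ((n + 1).choose (2 * i + 1) : ℚ) * ((n + 1 - (2 * i + 1) : ℕ) : ℚ) =
      ((n + 1).choose (2 * i + 1) : ℚ) * (n - 2 * i) := by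
    rcases Nat.lt_or_ge (n + 1) (2 * i + 1) with h | h
    · rw [Nat.choose_eq_zero_of_lt h]; simp
    · rw [Nat.cast_sub h]; push_cast; ring
  push_cast at h2
  rw [h3] at h2
  rw [h4] at h1
  rw [show 2 * (i + 1) = 2 * i + 1 + 1 by ring]
  linear_combination (2 * i + 1 : ℚ) * h1 + (n - 2 * i) * h2

lemma b2'' (n i : ℕ) : (n + 1) * ((n.choose (2 * (i + 1)) : ℚ) * (2 * i + 2) * (2 * i + 1)) =
    (n + 1 - 2 * i) * (n - 2 * i) * (n - 1 - 2 * i) * ((n + 1).choose (2 * i) : ℚ) := by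
  have h1 := b2' n i
  have h2 := congrArg (Nat.cast : ℕ → ℚ) (Nat.choose_mul_succ_eq n (2 * (i + 1)))
  have h3 : ((n + 1).choose (2 * (i + 1)) : ℚ) * ((n + 1 - 2 * (i + 1) : ℕ) : ℚ) =
      ((n + 1).choose (2 * (i + 1)) : ℚ) * (n - 1 - 2 * i) := by
    rcases Nat.lt_or_ge (n + 1) (2 * (i + 1)) with h | h
    · rw [Nat.choose_eq_zero_of_lt h]; simp
    · rw [Nat.cast_sub h]; push_cast; ring
  push_cast at h2
  rw [h3] at h2
  linear_combination (2 * i + 2) * (2 * i + 1) * h2 + (n - 1 - 2 * i) * h1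

lemma b3 (i : ℕ) : ((i : ℚ) + 1) * ((2 * (i + 1)).choose (i + 1) : ℚ) =
    2 * (2 * i + 1) * ((2 * i).choose i : ℚ) := by
  linear_combination cb_succ i

/-- `s1`–`s3`: the neighbours of `t (n+1) i` -/
lemma s1 (n i : ℕ) : 4 * ((i : ℚ) + 1) ^ 5 * t (n + 2) (i + 1) =
    (n + 3 + i) * (n + 2 + i) * (2 * i + 2) * (2 * i + 1) * (n + 1 - 2 * i) * t (n + 1) i := by
  have h1 := b1 n i
  have h2 := b2 n i
  have h3 := b3 i
  have hn : ((n : ℚ) + 2) ≠ 0 := by positivity
  have hi : (2 * (i : ℚ) + 2) * (2 * i + 1) ≠ 0 := by positivity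
  have t1 : t (n + 2) (i + 1) = ((n + 2 + (i + 1)).choose (i + 1) : ℚ) *
      ((n + 2).choose (2 * (i + 1)) : ℚ) * ((2 * (i + 1)).choose (i + 1) : ℚ) ^ 2 *
      (4 ^ n / 16 ^ i) := by
    unfold t; rw [pow_add 4 n 2, pow_succ 16 i]; field_simp; ring
  have t2 : t (n + 1) i = ((n + 1 + i).choose i : ℚ) * ((n + 1).choose (2 * i) : ℚ) *
      ((2 * i).choose i : ℚ) ^ 2 * 4 * (4 ^ n / 16 ^ i) := by
    unfold t; rw [pow_succ 4 n]; ring
  rw [t1, t2]
  generalize (4 : ℚ) ^ n / 16 ^ i = w at *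
  apply mul_left_cancel₀ (mul_ne_zero hn hi)
  generalize ((n + 2 + (i + 1)).choose (i + 1) : ℚ) = x1 at *
  generalize ((n + 1 + i).choose i : ℚ) = x2 at *
  generalize ((n + 2).choose (2 * (i + 1)) : ℚ) = y1 at *
  generalize ((n + 1).choose (2 * i) : ℚ) = y2 at *
  generalize ((2 * (i + 1)).choose (i + 1) : ℚ) = z1 at *
  generalize ((2 * i).choose i : ℚ) = z2 at *
  have e1 : ((i : ℚ) + 1) * (n + 2) * x1 * (y1 * (2 * i + 2) * (2 * i + 1)) * ((i + 1) * z1) ^ 2 =
      (n + 3 + i) * (n + 2 + i) * x2 * ((n + 2) * (n + 1 - 2 * i) * y2) * (2 * (2 * i + 1) * z2) ^ 2 := by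
    rw [h1, h2, h3]
  linear_combination 4 * ((i : ℚ) + 1) ^ 2 * w * e1

lemma s2 (n i : ℕ) : 16 * ((i : ℚ) + 1) ^ 5 * t (n + 1) (i + 1) =
    (n + 2 + i) * (2 * i + 2) * (2 * i + 1) * (n + 1 - 2 * i) * (n - 2 * i) * t (n + 1) i := by
  have h1 := b1' n i
  have h2 := b2' n i
  have h3 := b3 i
  have hi : (2 * (i : ℚ) + 2) * (2 * i + 1) ≠ 0 := by positivity
  have t1 : t (n + 1) (i + 1) = ((n + 1 + (i + 1)).choose (i + 1) : ℚ) *
      ((n + 1).choose (2 * (i + 1)) : ℚ) * ((2 * (i + 1)).choose (i + 1) : ℚ) ^ 2 *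
      (4 ^ n / 16 ^ i) / 4 := by
    unfold t; rw [pow_succ 4 n, pow_succ 16 i]; field_simp; ring
  have t2 : t (n + 1) i = ((n + 1 + i).choose i : ℚ) * ((n + 1).choose (2 * i) : ℚ) *
      ((2 * i).choose i : ℚ) ^ 2 * 4 * (4 ^ n / 16 ^ i) := by
    unfold t; rw [pow_succ 4 n]; ring
  rw [t1, t2]
  generalize (4 : ℚ) ^ n / 16 ^ i = w at *
  apply mul_left_cancel₀ hi
  generalize ((n + 1 + (i + 1)).choose (i + 1) : ℚ) = x1 at *
  generalize ((n + 1 + i).choose i : ℚ) = x2 at *
  generalize ((n + 1).choose (2 * (i + 1)) : ℚ) = y1 at *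
  generalize ((n + 1).choose (2 * i) : ℚ) = y2 at *
  generalize ((2 * (i + 1)).choose (i + 1) : ℚ) = z1 at *
  generalize ((2 * i).choose i : ℚ) = z2 at *
  have e1 : ((i : ℚ) + 1) * x1 * (y1 * (2 * i + 2) * (2 * i + 1)) * ((i + 1) * z1) ^ 2 =
      (n + 2 + i) * x2 * ((n + 1 - 2 * i) * (n - 2 * i) * y2) * (2 * (2 * i + 1) * z2) ^ 2 := by
    rw [h1, h2, h3]
  linear_combination 4 * ((i : ℚ) + 1) ^ 2 * w * e1

lemma s3 (n i : ℕ) : 64 * ((i : ℚ) + 1) ^ 5 * t n (i + 1) =
    (2 * i + 2) * (2 * i + 1) * (n + 1 - 2 * i) * (n - 2 * i) * (n - 1 - 2 * i) * t (n + 1) i := by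
  have h1 := b1'' n i
  have h2 := b2'' n i
  have h3 := b3 i
  have hn : ((n : ℚ) + 1) ≠ 0 := by positivity
  have hi : (2 * (i : ℚ) + 2) * (2 * i + 1) ≠ 0 := by positivity
  have t1 : t n (i + 1) = ((n + (i + 1)).choose (i + 1) : ℚ) *
      (n.choose (2 * (i + 1)) : ℚ) * ((2 * (i + 1)).choose (i + 1) : ℚ) ^ 2 *
      (4 ^ n / 16 ^ i) / 16 := by
    unfold t; rw [pow_succ 16 i]; field_simp
  have t2 : t (n + 1) i = ((n + 1 + i).choose i : ℚ) * ((n + 1).choose (2 * i) : ℚ) *
      ((2 * i).choose i : ℚ) ^ 2 * 4 * (4 ^ n / 16 ^ i) := by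
    unfold t; rw [pow_succ 4 n]; ring
  rw [t1, t2]
  generalize (4 : ℚ) ^ n / 16 ^ i = w at *
  apply mul_left_cancel₀ (mul_ne_zero hn hi)
  generalize ((n + (i + 1)).choose (i + 1) : ℚ) = x1 at *
  generalize ((n + 1 + i).choose i : ℚ) = x2 at *
  generalize (n.choose (2 * (i + 1)) : ℚ) = y1 at *
  generalize ((n + 1).choose (2 * i) : ℚ) = y2 at *
  generalize ((2 * (i + 1)).choose (i + 1) : ℚ) = z1 at *
  generalize ((2 * i).choose i : ℚ) = z2 at *
  have e1 : ((i : ℚ) + 1) * x1 * ((n + 1) * (y1 * (2 * i + 2) * (2 * i + 1))) * ((i + 1) * z1) ^ 2 =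
      (n + 1) * x2 * ((n + 1 - 2 * i) * (n - 2 * i) * (n - 1 - 2 * i) * y2) *
        (2 * (2 * i + 1) * z2) ^ 2 := by
    rw [h1, h2, h3]
  linear_combination 4 * ((i : ℚ) + 1) ^ 2 * w * e1

/-- the certificate -/
def G (n j : ℕ) : ℚ := if j = 0 then 0 else
  -6 * (3 * n + 1) * (2 * (j : ℚ) - 1) * (n - 2 * j + 2) * t n (j - 1)

lemma wz (n j : ℕ) : ((n : ℚ) + 2) ^ 3 * t (n + 2) j -
    2 * (2 * n + 3) * (5 * (n + 1) ^ 2 + 5 * (n + 1) + 2) * t (n + 1) j +
    64 * (n + 1) ^ 3 * t n j = G (n + 1) (j + 1) - G (n + 1) j := by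
  rcases Nat.eq_zero_or_pos j with h0 | h0
  · subst h0
    unfold G t
    simp
    ring
  · obtain ⟨i, rfl⟩ : ∃ i, j = i + 1 := ⟨j - 1, by omega⟩
    have h1 := s1 n i
    have h2 := s2 n i
    have h3 := s3 n i
    unfold G
    rw [if_neg (by omega), if_neg (by omega), show i + 1 + 1 - 1 = i + 1 by omega,
      show i + 1 - 1 = i by omega]
    push_cast
    have hi : 64 * ((i : ℚ) + 1) ^ 5 ≠ 0 := by positivity
    apply mul_left_cancel₀ hi
    linear_combination (16 * ((n : ℚ) + 2) ^ 3) * h1 + (4 * (-2 * (2 * n + 3) *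
      (5 * (n + 1) ^ 2 + 5 * (n + 1) + 2) + 6 * (3 * (n + 1) + 1) * (2 * (i + 1) + 1) *
        (n - 1 - 2 * i))) * h2 + (64 * ((n : ℚ) + 1) ^ 3) * h3

/-- the recurrence of the Domb numbers -/
lemma s_rec (n : ℕ) : ((n : ℤ) + 2) ^ 3 * s (n + 2) =
    2 * (2 * n + 3) * (5 * (n + 1) ^ 2 + 5 * (n + 1) + 2) * s (n + 1) - 64 * (n + 1) ^ 3 * s n := by
  have h1 := s_eq' (n + 2) (n + 3) (by omega)
  have h2 := s_eq' (n + 1) (n + 3) (by omega)
  have h3 := s_eq' n (n + 3) (by omega)
  have h4 : ∑ j ∈ Finset.range (n + 3), (((n : ℚ) + 2) ^ 3 * t (n + 2) j -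
    2 * (2 * n + 3) * (5 * (n + 1) ^ 2 + 5 * (n + 1) + 2) * t (n + 1) j +
    64 * (n + 1) ^ 3 * t n j) = 0 := by
    rw [Finset.sum_congr rfl (fun j _ => wz n j), Finset.sum_range_sub]
    unfold G
    rw [if_neg (by omega), if_pos rfl, t_eq_zero (by omega : n + 1 < 2 * (n + 3 - 1))]
    ring
  rw [Finset.sum_add_distrib, Finset.sum_sub_distrib, ← Finset.mul_sum, ← Finset.mul_sum,
    ← Finset.mul_sum, ← h1, ← h2, ← h3] at h4
  have h5 : (((n : ℤ) + 2) ^ 3 * s (n + 2) : ℚ) =
    ((2 * (2 * n + 3) * (5 * (n + 1) ^ 2 + 5 * (n + 1) + 2) * s (n + 1) -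
      64 * (n + 1) ^ 3 * s n : ℤ) : ℚ) := by
    push_cast
    linear_combination h4
  exact_mod_cast h5

/-- the telescoped sum -/
lemma telescope (m : ℕ) : 6 * ∑ n ∈ Finset.range (m + 1), (3 * (n : ℤ) ^ 2 + n) * 16 ^ (m - n) * s n =
    (m + 1) ^ 3 * (s (m + 1) - 4 * s m) := by
  induction m with
  | zero => decide
  | succ m ih =>
    rw [Finset.sum_range_succ, mul_add]
    have h1 : ∑ n ∈ Finset.range (m + 1), (3 * (n : ℤ) ^ 2 + n) * 16 ^ (m + 1 - n) * s n =
        16 * ∑ n ∈ Finset.range (m + 1), (3 * (n : ℤ) ^ 2 + n) * 16 ^ (m - n) * s n := by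
      rw [Finset.mul_sum]
      apply Finset.sum_congr rfl
      intro n hn
      rw [Finset.mem_range] at hn
      rw [show m + 1 - n = m - n + 1 by omega, pow_succ]
      ring
    rw [h1, Nat.sub_self, pow_zero]
    have h2 := s_rec m
    push_cast
    linear_combination 16 * ih - h2

end Pool.Agent.V11308.Domb
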