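import Mathlib

/-!
Power sums `∑_{k=1}^{p-1} k^{-s}` in the `p`-adic integers modulo `p` and `p^2`, and the
translation from `p`-adic divisibility to divisibility of numerators of rationals.
-/

namespace Pool.Agent.V11308

open Finset

variable {p : ℕ} [hp : Fact p.Prime]

/-- the inverse of `k` in `ℤ_[p]` (junk value if `p ∣ k`). -/
noncomputable def t (p : ℕ) [Fact p.Prime] (k : ℕ) : ℤ_[p] := Ring.inverse (k : ℤ_[p])

lemma isUnit_cast {k : ℕ} (h : ¬ p ∣ k) : IsUnit (k : ℤ_[p]) := by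
  rw [PadicInt.isUnit_iff]
  have h1 : ‖(k : ℤ_[p])‖ ≤ 1 := PadicInt.norm_le_one _
  rcases h1.lt_or_eq with h2 | h2
  · exfalso
    have := (PadicInt.norm_int_lt_one_iff_dvd (p := p) (k : ℤ)).1 (by simpa using h2)
    exact h (by exact_mod_cast this)
  · exact h2

lemma mul_t {k : ℕ} (h : ¬ p ∣ k) : (k : ℤ_[p]) * t p k = 1 :=
  Ring.mul_inverse_cancel _ (isUnit_cast h)

omit hp in
lemma not_dvd_of_mem {k : ℕ} (hk : k ∈ Finset.Ico 1 p) : ¬ p ∣ k := by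
  rw [Finset.mem_Ico] at hk
  exact Nat.not_dvd_of_pos_of_lt (by omega) hk.2

/-- `H p s = ∑_{k=1}^{p-1} k^{-s}` in `ℤ_[p]`. -/
noncomputable def H (p : ℕ) [Fact p.Prime] (s : ℕ) : ℤ_[p] := ∑ k ∈ Finset.Ico 1 p, t p k ^ s

lemma toZMod_t {k : ℕ} (h : ¬ p ∣ k) : PadicInt.toZMod (t p k) = ((k : ZMod p))⁻¹ := by
  have h1 := congrArg (PadicInt.toZMod (p := p)) (mul_t h)
  rw [map_mul, map_natCast, map_one] at h1
  exact (inv_eq_of_mul_eq_one_right h1).symm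

lemma dvd_iff_toZMod (x : ℤ_[p]) : (p : ℤ_[p]) ∣ x ↔ PadicInt.toZMod x = 0 := by
  rw [← RingHom.mem_ker, PadicInt.ker_toZMod, PadicInt.maximalIdeal_eq_span_p,
    Ideal.mem_span_singleton]

lemma sum_Ico_zmod (f : ZMod p → ZMod p) :
    ∑ k ∈ Finset.Ico 1 p, f (k : ZMod p) = ∑ x : (ZMod p)ˣ, f x := by
  symm
  apply Finset.sum_bij (fun (x : (ZMod p)ˣ) _ => (x : ZMod p).val)
  · intro x _
    rw [Finset.mem_Ico]
    refine ⟨?_, ZMod.val_lt _⟩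
    rcases Nat.eq_zero_or_pos (x : ZMod p).val with h | h
    · exact absurd ((ZMod.val_eq_zero _).1 h) x.ne_zero
    · exact h
  · intro a _ b _ h
    exact Units.ext (ZMod.val_injective p h)
  · intro k hk
    have h := not_dvd_of_mem hk
    rw [Finset.mem_Ico] at hk
    have h0 : (k : ZMod p) ≠ 0 := by
      intro h'
      exact h ((ZMod.natCast_eq_zero_iff _ _).1 h')
    refine ⟨Units.mk0 (k : ZMod p) h0, Finset.mem_univ _, ?_⟩
    change ((k : ZMod p)).val = k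
    rw [ZMod.val_natCast, Nat.mod_eq_of_lt hk.2]
  · intro x _
    rw [ZMod.natCast_zmod_val]

/-- `p ∣ ∑ k^{-s}` when `p - 1 ∤ s`. -/
lemma dvd_H {s : ℕ} (hs : ¬ (p - 1) ∣ s) : (p : ℤ_[p]) ∣ H p s := by
  rw [dvd_iff_toZMod, H, map_sum]
  have h1 : ∀ k ∈ Finset.Ico 1 p, PadicInt.toZMod (t p k ^ s) = ((k : ZMod p)⁻¹) ^ s := by
    intro k hk
    rw [map_pow, toZMod_t (not_dvd_of_mem hk)]
  rw [Finset.sum_congr rfl h1, sum_Ico_zmod (fun x => x⁻¹ ^ s)]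
  have h2 : ∑ x : (ZMod p)ˣ, ((x : ZMod p)⁻¹) ^ s = ∑ x : (ZMod p)ˣ, ((x ^ s : (ZMod p)ˣ) : ZMod p) := by
    rw [← Equiv.sum_comp (Equiv.inv (ZMod p)ˣ)]
    apply Finset.sum_congr rfl
    intro x _
    rw [Units.val_pow_eq_pow_val, Equiv.inv_apply, ← Units.val_inv_eq_inv_val, inv_inv]
  rw [h2]
  have := FiniteField.sum_pow_units (ZMod p) s
  rw [ZMod.card] at this
  rw [if_neg hs] at this
  simpa using this

/-- reflection `k ↦ p - k`. -/
lemma sum_reflect (f : ℕ → ℤ_[p]) :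
    ∑ k ∈ Finset.Ico 1 p, f k = ∑ k ∈ Finset.Ico 1 p, f (p - k) := by
  apply Finset.sum_bij' (fun k _ => p - k) (fun k _ => p - k)
  · intro k hk; rw [Finset.mem_Ico] at *; omega
  · intro k hk; rw [Finset.mem_Ico] at *; omega
  · intro k hk; rw [Finset.mem_Ico] at *; omega
  · intro k hk; rw [Finset.mem_Ico] at *; omega
  · intro k hk
    rw [Finset.mem_Ico] at hk
    congr 1; omega

/-- `1/(p-k) = -1/k - p/k^2 + p^2 (...)`. -/
lemma t_reflect {k : ℕ} (hk : k ∈ Finset.Ico 1 p) :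
    ∃ e : ℤ_[p], t p (p - k) = - t p k - p * t p k ^ 2 + p ^ 2 * e := by
  have h := not_dvd_of_mem hk
  have hk' : (p - k) ∈ Finset.Ico 1 p := by rw [Finset.mem_Ico] at *; omega
  have h' := not_dvd_of_mem hk'
  have h1 := mul_t h
  have h2 := mul_t h'
  have h3 : ((p - k : ℕ) : ℤ_[p]) = p - k := by
    rw [Nat.cast_sub]
    rw [Finset.mem_Ico] at hk; omega
  rw [h3] at h2
  refine ⟨t p (p - k) * t p k ^ 2, ?_⟩
  have h4 : (p - k : ℤ_[p]) * (t p (p - k) - (- t p k - p * t p k ^ 2 +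
      p ^ 2 * (t p (p - k) * t p k ^ 2))) = 0 := by
    linear_combination (1 - p ^ 2 * t p k ^ 2) * h2 + (-1 - p * t p k) * h1
  have h5 : IsUnit (p - k : ℤ_[p]) := by rw [← h3]; exact isUnit_cast h'
  have h6 := (h5.mul_right_eq_zero).1 h4
  exact sub_eq_zero.1 h6

/-- `p^2 ∣ ∑ k^{-s}` for odd `s` when `p` is odd and `p - 1 ∤ s + 1`. -/
lemma sq_dvd_H {s : ℕ} (hodd : Odd s) (hp2 : p ≠ 2) (hs : ¬ (p - 1) ∣ s + 1) :
    (p : ℤ_[p]) ^ 2 ∣ H p s := by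
  have h1 : ∀ k ∈ Finset.Ico 1 p, (p : ℤ_[p]) ^ 2 ∣
      t p (p - k) ^ s + t p k ^ s + s * p * t p k ^ (s + 1) := by
    intro k hk
    obtain ⟨e, he⟩ := t_reflect hk
    have h2 : (p : ℤ_[p]) ^ 2 ∣ t p (p - k) ^ s - (- t p k - p * t p k ^ 2) ^ s := by
      refine dvd_trans ?_ (sub_dvd_pow_sub_pow _ _ s)
      rw [he]; exact ⟨e, by ring⟩
    have h3 : (p : ℤ_[p]) ^ 2 ∣ (t p k + p * t p k ^ 2) ^ s - (t p k ^ s + s * (t p k) ^ (s - 1) *
        (p * t p k ^ 2)) := by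
      obtain ⟨c, hc⟩ := Polynomial.powAddExpansion (t p k) (p * t p k ^ 2) s
      refine ⟨c * t p k ^ 4, ?_⟩
      rw [hc]; ring
    have h4 : (- t p k - p * t p k ^ 2) ^ s = - (t p k + p * t p k ^ 2) ^ s := by
      rw [← hodd.neg_pow]; congr 1; ring
    rw [h4] at h2
    have h5 := dvd_sub h2 h3
    obtain ⟨r, hr⟩ := hodd
    have h6 : t p k ^ (s + 1) = t p k ^ (s - 1) * t p k ^ 2 := by
      rw [← pow_add]; congr 1; omega
    convert h5 using 1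
    rw [h6]; ring
  have h2 := Finset.dvd_sum h1
  rw [Finset.sum_add_distrib, Finset.sum_add_distrib, ← sum_reflect (fun k => t p k ^ s),
    ← Finset.mul_sum] at h2
  have h3 : (p : ℤ_[p]) ^ 2 ∣ s * p * ∑ k ∈ Finset.Ico 1 p, t p k ^ (s + 1) := by
    obtain ⟨c, hc⟩ := dvd_H (p := p) hs
    rw [H] at hc
    refine ⟨s * c, ?_⟩
    rw [hc]; ring
  have h4 := (dvd_add_left h3).1 h2
  have h5 : (2 : ℤ_[p]) * H p s = ∑ x ∈ Finset.Ico 1 p, t p x ^ s + ∑ x ∈ Finset.Ico 1 p, t p x ^ s := by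
    rw [H]; ring
  rw [← h5] at h4
  have h6 : IsUnit (2 : ℤ_[p]) := by
    have : ¬ p ∣ 2 := by
      intro h
      exact hp2 ((Nat.prime_dvd_prime_iff_eq hp.out Nat.prime_two).1 h)
    simpa using isUnit_cast this
  exact (h6.dvd_mul_left).1 h4

/-- `p^j` divides the numerator of a rational which is `p^j` times a `p`-adic integer. -/
lemma dvd_num_of_padic {x : ℚ} {j : ℕ} (z : ℤ_[p]) (h : (x : ℚ_[p]) = (p : ℚ_[p]) ^ j * z) :
    (p : ℤ) ^ j ∣ x.num := by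
  have hn : ‖(x : ℚ_[p])‖ ≤ (p : ℝ) ^ (-(j : ℤ)) := by
    rw [h, norm_mul, norm_pow, Padic.norm_p, inv_pow, zpow_neg, zpow_natCast]
    have := z.2
    have h0 : (0 : ℝ) ≤ ((p : ℝ) ^ j)⁻¹ := by positivity
    nlinarith
  have hx : (x : ℚ_[p]) * (x.den : ℚ_[p]) = (x.num : ℚ_[p]) := by
    have : x * x.den = x.num := Rat.mul_den_eq_num x
    exact_mod_cast this
  have hd : ‖(x.den : ℚ_[p])‖ ≤ 1 := by
    have := Padic.norm_int_le_one (p := p) (x.den : ℤ)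
    simpa using this
  have hnum : ‖((x.num : ℤ) : ℚ_[p])‖ ≤ (p : ℝ) ^ (-(j : ℤ)) := by
    rw [← hx, norm_mul]
    calc ‖(x : ℚ_[p])‖ * ‖(x.den : ℚ_[p])‖ ≤ (p : ℝ) ^ (-(j : ℤ)) * 1 :=
          mul_le_mul hn hd (norm_nonneg _) (by positivity)
      _ = _ := mul_one _
  exact (Padic.norm_int_le_pow_iff_dvd (p := p) x.num j).1 hnum

end Pool.Agent.V11308
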